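import Pool.Agent.Lib.MP_b07157_agYM.NSA
import Pool.Agent.Lib.MP_b07157_agYG.Defs

/-!
# Linear vector fields which kill a form with nodes
-/

noncomputable section

namespace MPb07157

open MvPolynomial

namespace YM

namespace NSK

open NSA

variable {n : ℕ}

theorem pderiv_comm (i j : Fin n) (p : MvPolynomial (Fin n) ℂ) :
    pderiv i (pderiv j p) = pderiv j (pderiv i p) := by
  classical
  have h : ⁅(pderiv i : Derivation ℂ (MvPolynomial (Fin n) ℂ) (MvPolynomial (Fin n) ℂ)),
      (pderiv j : Derivation ℂ (MvPolynomial (Fin n) ℂ) (MvPolynomial (Fin n) ℂ))⁆ = 0 := by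
    apply MvPolynomial.derivation_ext
    intro k
    rw [Derivation.commutator_apply, pderiv_X, pderiv_X, Derivation.zero_apply]
    simp only [Pi.single_apply]
    split_ifs <;> simp
  have h1 := congrArg (fun D : Derivation ℂ (MvPolynomial (Fin n) ℂ) (MvPolynomial (Fin n) ℂ) =>
    D p) h
  rw [Derivation.commutator_apply, Derivation.zero_apply, sub_eq_zero] at h1
  exact h1

theorem eval_aeval (f : Fin n → MvPolynomial (Fin n) ℂ) (y : Fin n → ℂ)
    (q : MvPolynomial (Fin n) ℂ) :
    eval y (aeval f q) = eval (fun i => eval y (f i)) q := by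
  induction q using MvPolynomial.induction_on with
  | C a => simp
  | add p r hp hr => simp only [map_add, hp, hr]
  | mul_X p j hp => rw [map_mul, map_mul, map_mul, hp, aeval_X, eval_X]

/-- The point with given new coordinates. -/
def pt (b : Module.Basis (Fin n) ℂ (Fin n → ℂ)) (y : Fin n → ℂ) : Fin n → ℂ :=
  fun i => eval y (lin (b.repr (Pi.single i 1)))

theorem eval_pt (b : Module.Basis (Fin n) ℂ (Fin n → ℂ)) (y : Fin n → ℂ)
    (p : MvPolynomial (Fin n) ℂ) : eval (pt b y) (autB b p) = eval y p := by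
  have h : eval y ((autB b).symm (autB b p)) = eval (pt b y) (autB b p) := by
    rw [autB_symm_apply, eval_aeval]
    rfl
  rw [← h, AlgEquiv.symm_apply_apply]

theorem pt_ne (b : Module.Basis (Fin n) ℂ (Fin n → ℂ)) {y : Fin n → ℂ} (hy : y ≠ 0) :
    pt b y ≠ 0 := by
  intro h
  apply hy
  funext m
  have h1 := eval_pt b y (X m)
  rw [h, autB_apply, aeval_X, eval_X, lin_apply, map_sum] at h1
  rw [← h1]
  simp

theorem hess_pt (b : Module.Basis (Fin n) ℂ (Fin n → ℂ)) (y : Fin n → ℂ)
    (g : MvPolynomial (Fin n) ℂ) :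
    YG.hessAt (autB b g) (pt b y) =
      (Matrix.of fun i l => b l i) * YG.hessAt g y * (Matrix.of fun m j => b m j) := by
  ext i j
  rw [Matrix.mul_apply]
  unfold YG.hessAt
  rw [Matrix.of_apply, pderiv_autB, map_sum, map_sum]
  refine Finset.sum_congr rfl fun m _ => ?_
  rw [Matrix.mul_apply, Matrix.of_apply, Derivation.leibniz, pderiv_C, smul_zero, add_zero,
    smul_eq_mul, map_mul, eval_C, pderiv_autB, map_sum, mul_comm]
  congr 1
  refine Finset.sum_congr rfl fun l _ => ?_
  rw [map_mul, eval_C, eval_pt, Matrix.of_apply, Matrix.of_apply]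

theorem nodal_pt (b : Module.Basis (Fin n) ℂ (Fin n → ℂ)) {g F : MvPolynomial (Fin n) ℂ}
    (hg : autB b g = F) {r : ℕ}
    (hN : ∀ q : Fin n → ℂ, q ≠ 0 → (∀ j, eval q (pderiv j F) = 0) →
      (YG.hessAt F q).rank = r)
    {y : Fin n → ℂ} (hy : y ≠ 0) (h : ∀ m, eval y (pderiv m g) = 0) :
    r ≤ (YG.hessAt g y).rank := by
  have h1 := hN (pt b y) (pt_ne b hy) (by
    intro j
    rw [← hg, pderiv_autB, map_sum]
    refine Finset.sum_eq_zero fun m _ => ?_
    rw [map_mul, eval_pt, h m, mul_zero])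
  rw [← h1, ← hg, hess_pt]
  exact (Matrix.rank_mul_le_left _ _).trans (Matrix.rank_mul_le_right _ _)

theorem exists_of_eval_ne {i : Fin n} {p : MvPolynomial (Fin n) ℂ}
    (h : eval (Pi.single i 1) p ≠ 0) : ∃ v ∈ p.support, S i v = 0 := by
  by_contra hcon
  push Not at hcon
  exact h (eval_zero fun v hv => Nat.one_le_iff_ne_zero.2 (hcon v hv))

theorem add_mem {m : Fin n} {p : MvPolynomial (Fin n) ℂ} {v : Fin n →₀ ℕ}
    (hv : v ∈ (pderiv m p).support) : v + Finsupp.single m 1 ∈ p.support := by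
  rw [mem_support_iff, coeff_pderiv] at hv
  exact mem_support_iff.2 (left_ne_zero_of_mul hv)

theorem eq_single {i : Fin n} {v : Fin n →₀ ℕ} (h : S i v = 0) : v = Finsupp.single i (v i) := by
  ext j
  unfold S at h
  rw [Finset.sum_eq_zero_iff] at h
  have h1 := h j (Finset.mem_univ j)
  by_cases hj : j = i
  · rw [hj, Finsupp.single_eq_same]
  · rw [if_neg hj] at h1
    rw [h1, Finsupp.single_apply, if_neg (Ne.symm hj)]

theorem sum_mul_single (w : Fin n → ℚ) (i : Fin n) (a : ℕ) :
    ∑ l, w l * ((Finsupp.single i a : Fin n →₀ ℕ) l : ℕ) = w i * a := by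
  classical
  rw [Finset.sum_eq_single i]
  · rw [Finsupp.single_eq_same]
  · intro j _ hj
    rw [Finsupp.single_apply, if_neg (Ne.symm hj), Nat.cast_zero, mul_zero]
  · intro h
    exact absurd (Finset.mem_univ i) h

theorem sum_single (i : Fin n) (a : ℕ) : ∑ l, (Finsupp.single i a : Fin n →₀ ℕ) l = a := by
  classical
  rw [Finset.sum_eq_single i]
  · rw [Finsupp.single_eq_same]
  · intro j _ hj
    rw [Finsupp.single_apply, if_neg (Ne.symm hj)]
  · intro h
    exact absurd (Finset.mem_univ i) h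

/-- A symmetric matrix of corank one with a zero row. -/
theorem exists_perm {H : Matrix (Fin n) (Fin n) ℂ} {i : Fin n} (hr : ∀ j, H i j = 0)
    (hc : ∀ j, H j i = 0) (hrank : n ≤ H.rank + 1) :
    ∃ σ : Equiv.Perm (Fin n), σ i = i ∧ ∀ j, j ≠ i → H (σ j) j ≠ 0 := by
  classical
  set H' : Matrix (Fin n) (Fin n) ℂ := H + Matrix.single i i 1 with hH'
  have hdet : H'.det ≠ 0 := by
    intro h0
    obtain ⟨u, hu, hu0⟩ := Matrix.exists_mulVec_eq_zero_iff.2 h0
    have h1 : H.mulVec u + (Matrix.single i i (1 : ℂ)).mulVec u = 0 := by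
      rw [← Matrix.add_mulVec]
      exact hu0
    have hsm : (Matrix.single i i (1 : ℂ)).mulVec u = Pi.single i (u i) := by
      rw [Matrix.single_mulVec, one_mul]
      rfl
    rw [hsm] at h1
    have hui : u i = 0 := by
      have h2 := congrFun h1 i
      rw [Pi.add_apply, Pi.single_eq_same, Matrix.mulVec, dotProduct, Pi.zero_apply] at h2
      rw [Finset.sum_eq_zero fun j _ => by rw [hr, zero_mul], zero_add] at h2
      exact h2
    rw [hui, Pi.single_zero, add_zero] at h1
    have h3 : H.mulVec (Pi.single i 1) = 0 := by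
      funext j
      rw [Matrix.mulVec_single_one]
      exact hc j
    have hli : LinearIndependent ℂ ![u, (Pi.single i 1 : Fin n → ℂ)] := by
      rw [LinearIndependent.pair_iff]
      intro s r hsr
      have h4 := congrFun hsr i
      simp only [Pi.add_apply, Pi.smul_apply, hui, smul_eq_mul, mul_zero, zero_add,
        Pi.single_eq_same, mul_one, Pi.zero_apply] at h4
      rw [h4, zero_smul, add_zero] at hsr
      exact ⟨(smul_eq_zero.1 hsr).resolve_right hu, h4⟩
    have hker : 2 ≤ Module.finrank ℂ (LinearMap.ker H.mulVecLin) := by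
      have hli' : LinearIndependent ℂ (fun k : Fin 2 =>
          (⟨![u, (Pi.single i 1 : Fin n → ℂ)] k, by
            rw [LinearMap.mem_ker, Matrix.mulVecLin_apply]
            fin_cases k
            · exact h1
            · exact h3⟩ : LinearMap.ker H.mulVecLin)) := by
        apply LinearIndependent.of_comp (LinearMap.ker H.mulVecLin).subtype
        exact hli
      have := hli'.fintype_card_le_finrank
      rwa [Fintype.card_fin] at this
    have h5 := LinearMap.finrank_range_add_finrank_ker H.mulVecLin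
    rw [Module.finrank_fin_fun] at h5
    have h6 : H.rank = Module.finrank ℂ (LinearMap.range H.mulVecLin) := rfl
    omega
  rw [Matrix.det_apply] at hdet
  obtain ⟨σ, -, hσ⟩ := Finset.exists_ne_zero_of_sum_ne_zero hdet
  have h1 : ∏ j, H' (σ j) j ≠ 0 := fun h => hσ (by rw [h, smul_zero])
  rw [Finset.prod_ne_zero_iff] at h1
  have hσi : σ i = i := by
    by_contra hne
    apply h1 i (Finset.mem_univ i)
    rw [hH', Matrix.add_apply, hc, zero_add, Matrix.single_apply, if_neg]
    intro h
    exact hne h.1.symm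
  refine ⟨σ, hσi, fun j hj => ?_⟩
  have h2 := h1 j (Finset.mem_univ j)
  rw [hH', Matrix.add_apply, Matrix.single_apply, if_neg (fun h => hj h.2.symm), add_zero] at h2
  exact h2

/-- The weights at a vertex. -/
theorem vertex {g : MvPolynomial (Fin n) ℂ} {d : ℕ} (hgh : g.IsHomogeneous d) {w : Fin n → ℚ}
    (hw : ∀ v ∈ g.support, ∑ i, w i * v i = 0) (hdeg : ∀ v ∈ g.support, ∑ i, v i = d)
    (hN : ∀ y : Fin n → ℂ, y ≠ 0 → (∀ m, eval y (pderiv m g) = 0) →
      n ≤ (YG.hessAt g y).rank + 1) (i : Fin n) :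
    (∃ k, ((d : ℚ) - 1) * w i + w k = 0) ∨
      ∃ σ : Equiv.Perm (Fin n), σ i = i ∧
        ∀ j, j ≠ i → w j + w (σ j) + ((d : ℚ) - 2) * w i = 0 := by
  classical
  by_cases h : ∃ m, eval (Pi.single i 1) (pderiv m g) ≠ 0
  · left
    obtain ⟨m, hm⟩ := h
    obtain ⟨v, hv, hS⟩ := exists_of_eval_ne hm
    have h1 := add_mem hv
    rw [eq_single hS] at h1
    have h2 := hw _ h1
    have h3 := hdeg _ h1
    simp only [Finsupp.add_apply, Nat.cast_add, mul_add, Finset.sum_add_distrib, sum_mul_single,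
      sum_single, Nat.cast_one, mul_one] at h2 h3
    refine ⟨m, ?_⟩
    rw [← h3]
    push_cast
    linear_combination h2
  · right
    push Not at h
    have h0 : (Pi.single i 1 : Fin n → ℂ) ≠ 0 := by
      intro h1
      have h2 := congrFun h1 i
      rw [Pi.single_eq_same] at h2
      exact one_ne_zero h2
    have hrank := hN _ h0 h
    have hr : ∀ j, YG.hessAt g (Pi.single i 1) i j = 0 := by
      intro j
      have h1 := (hgh.pderiv (i := j)).sum_X_mul_pderiv
      have h2 := congrArg (eval (Pi.single i 1 : Fin n → ℂ)) h1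
      rw [map_nsmul, h j, smul_zero, map_sum, Finset.sum_eq_single i] at h2
      · rw [map_mul, eval_X, Pi.single_eq_same, one_mul] at h2
        exact h2
      · intro k _ hk
        rw [map_mul, eval_X, Pi.single_eq_of_ne hk, zero_mul]
      · intro h
        exact absurd (Finset.mem_univ i) h
    have hc : ∀ j, YG.hessAt g (Pi.single i 1) j i = 0 := by
      intro j
      have h1 := hr j
      unfold YG.hessAt at h1 ⊢
      rw [Matrix.of_apply, pderiv_comm]
      exact h1
    obtain ⟨σ, hσ, hσj⟩ := exists_perm hr hc hrank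
    refine ⟨σ, hσ, fun j hj => ?_⟩
    obtain ⟨v, hv, hS⟩ := exists_of_eval_ne (hσj j hj)
    have h1 := add_mem (add_mem hv)
    rw [eq_single hS] at h1
    have h2 := hw _ h1
    have h3 := hdeg _ h1
    simp only [Finsupp.add_apply, Nat.cast_add, mul_add, Finset.sum_add_distrib, sum_mul_single,
      sum_single, Nat.cast_one, mul_one] at h2 h3
    rw [← h3]
    push_cast
    linear_combination h2

/-- The condition on the weights at a vertex. -/
def V (d : ℕ) (w : Fin n → ℚ) (i : Fin n) : Prop :=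
  (∃ k, ((d : ℚ) - 1) * w i + w k = 0) ∨
      ∃ σ : Equiv.Perm (Fin n), σ i = i ∧
        ∀ j, j ≠ i → w j + w (σ j) + ((d : ℚ) - 2) * w i = 0

theorem V_neg {d : ℕ} {w : Fin n → ℚ} {i : Fin n} (h : V d w i) : V d (fun j => -w j) i := by
  rcases h with ⟨k, hk⟩ | ⟨σ, hσ, h⟩
  · exact Or.inl ⟨k, by linear_combination -hk⟩
  · exact Or.inr ⟨σ, hσ, fun j hj => by linear_combination -(h j hj)⟩

theorem exists_other (hn : 4 ≤ n) (i : Fin n) : ∃ j : Fin n, j ≠ i := by
  have : Nontrivial (Fin n) := Fin.nontrivial_iff_two_le.2 (by omega)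
  exact exists_ne i

theorem exists_neg (hn : 4 ≤ n) {d : ℕ} (hd : 3 ≤ d) {w : Fin n → ℚ} (hV : ∀ i, V d w i)
    {i : Fin n} (hi : 0 < w i) : ∃ j, w j < 0 := by
  by_contra hcon
  push Not at hcon
  have hd' : (3 : ℚ) ≤ d := by exact_mod_cast hd
  rcases hV i with ⟨k, hk⟩ | ⟨σ, hσ, h⟩
  · have h1 := hcon k
    nlinarith
  · obtain ⟨j, hj⟩ := exists_other hn i
    have h1 := h j hj
    have h2 := hcon j
    have h3 := hcon (σ j)
    nlinarith

/-- The conclusion of the combinatorial argument. -/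
def Concl (d : ℕ) (w : Fin n → ℚ) : Prop :=
  d = 3 ∧ ∃ (m : Fin n) (c : ℚ), c ≠ 0 ∧ w m = -2 * c ∧ ∀ j, j ≠ m → w j = c

theorem mixed (hn : 4 ≤ n) {d : ℕ} (hd : 3 ≤ d) {w : Fin n → ℚ} {M m : Fin n}
    (hM : ∀ j, w j ≤ w M) (hm : ∀ j, w m ≤ w j) (hM0 : 0 < w M)
    {k : Fin n} (hk : ((d : ℚ) - 1) * w M + w k = 0) {σ : Equiv.Perm (Fin n)}
    (hσ : ∀ j, j ≠ m → w j + w (σ j) + ((d : ℚ) - 2) * w m = 0) : Concl d w := by
  have hd' : (3 : ℚ) ≤ d := by exact_mod_cast hd
  have h1 := hm k
  have h2 : w m ≤ -((d : ℚ) - 1) * w M := by linarith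
  have hd3 : d = 3 := by
    by_contra hne
    have hd4 : (4 : ℚ) ≤ d := by
      have : 4 ≤ d := by omega
      exact_mod_cast this
    obtain ⟨j, hj⟩ := exists_other hn m
    have h3 := hσ j hj
    have h4 := hM j
    have h5 := hM (σ j)
    have h6 : w m ≤ -3 * w M := by nlinarith
    nlinarith
  subst hd3
  have h2' : w m ≤ -2 * w M := by
    push_cast at h2
    linarith
  have h7 : ∀ j, j ≠ m → w j = w M ∧ w m = -2 * w M := by
    intro j hj
    have h3 := hσ j hj
    have h4 := hM j
    have h5 := hM (σ j)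
    push_cast at h3
    constructor <;> linarith
  obtain ⟨j, hj⟩ := exists_other hn m
  exact ⟨rfl, m, w M, hM0.ne', (h7 j hj).2, fun j hj => (h7 j hj).1⟩

theorem Concl_neg {d : ℕ} {w : Fin n → ℚ} (h : Concl d (fun j => -w j)) : Concl d w := by
  obtain ⟨h1, m, c, hc, hm, hj⟩ := h
  refine ⟨h1, m, -c, neg_ne_zero.2 hc, by linarith, fun j hjm => ?_⟩
  have := hj j hjm
  linarith

theorem sum_perm {d : ℕ} {w : Fin n → ℚ} {i : Fin n} {σ : Equiv.Perm (Fin n)} (hσi : σ i = i)
    (hσ : ∀ j, j ≠ i → w j + w (σ j) + ((d : ℚ) - 2) * w i = 0) :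
    2 * ∑ j, w j = ((d : ℚ) - n * (d - 2)) * w i := by
  classical
  have h1 : ∀ j, w j + w (σ j) = -((d : ℚ) - 2) * w i + if j = i then (d : ℚ) * w i else 0 := by
    intro j
    by_cases hj : j = i
    · rw [hj, if_pos rfl, hσi]
      ring
    · rw [if_neg hj]
      linear_combination hσ j hj
  have h2 : ∑ j, (w j + w (σ j)) = 2 * ∑ j, w j := by
    rw [Finset.sum_add_distrib, Equiv.sum_comp σ w]
    ring
  rw [← h2, Finset.sum_congr rfl fun j _ => h1 j, Finset.sum_add_distrib, Finset.sum_const,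
    Finset.card_univ, Fintype.card_fin, Finset.sum_ite_eq' Finset.univ i,
    if_pos (Finset.mem_univ i), nsmul_eq_mul]
  ring

theorem comb (hn : 4 ≤ n) {d : ℕ} (hd : 3 ≤ d) {w : Fin n → ℚ} (hV : ∀ i, V d w i)
    (hw : ∃ i, w i ≠ 0) : Concl d w := by
  have : Nonempty (Fin n) := ⟨⟨0, by omega⟩⟩
  obtain ⟨M, hM⟩ := Finite.exists_max w
  obtain ⟨m, hm⟩ := Finite.exists_min w
  have hd' : (3 : ℚ) ≤ d := by exact_mod_cast hd
  have hn' : (4 : ℚ) ≤ n := by exact_mod_cast hn
  have hpos : 0 < w M ∧ w m < 0 := by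
    obtain ⟨i, hi⟩ := hw
    rcases lt_or_gt_of_ne hi with h | h
    · obtain ⟨j, hj⟩ := exists_neg hn hd (w := fun j => -w j) (fun i => V_neg (hV i))
        (i := i) (by linarith)
      exact ⟨by linarith [hM j], by linarith [hm i]⟩
    · obtain ⟨j, hj⟩ := exists_neg hn hd hV h
      exact ⟨by linarith [hM i], by linarith [hm j]⟩
  obtain ⟨hM0, hm0⟩ := hpos
  rcases hV M with ⟨k, hk⟩ | ⟨σ, hσi, hσ⟩
  · rcases hV m with ⟨l, hl⟩ | ⟨τ, hτi, hτ⟩
    · exfalso
      have h1 := hm k
      have h2 := hM l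
      have h3 : w m ≤ -2 * w M := by nlinarith
      have h4 : -2 * w m ≤ w M := by nlinarith
      linarith
    · exact mixed hn hd hM hm hM0 hk hτ
  · rcases hV m with ⟨l, hl⟩ | ⟨τ, hτi, hτ⟩
    · apply Concl_neg
      refine mixed hn hd (w := fun j => -w j) (M := m) (m := M) (fun j => ?_) (fun j => ?_) ?_
        (k := l) ?_ (σ := σ) ?_
      · linarith [hm j]
      · linarith [hM j]
      · linarith
      · linear_combination -hl
      · intro j hj
        linear_combination -(hσ j hj)
    · exfalso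
      have h1 := sum_perm hσi hσ
      have h2 := sum_perm hτi hτ
      have h3 : ((d : ℚ) - n * (d - 2)) * (w M - w m) = 0 := by linear_combination h2 - h1
      rcases mul_eq_zero.1 h3 with h4 | h4
      · nlinarith
      · linarith

/-- A form has a zero on each line. -/
theorem exists_zero {p : MvPolynomial (Fin n) ℂ} {N : ℕ} (hN : N ≠ 0) (hp : p.IsHomogeneous N)
    {j₁ j₂ : Fin n} (hj : j₁ ≠ j₂) :
    ∃ y : Fin n → ℂ, y ≠ 0 ∧ (∀ m, m ≠ j₁ → m ≠ j₂ → y m = 0) ∧ eval y p = 0 := by
  classical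
  set y : ℂ → ℂ → Fin n → ℂ := fun s r => s • Pi.single j₁ 1 + r • Pi.single j₂ 1 with hy
  have hy1 : ∀ s r, y s r j₁ = s := by
    intro s r
    simp only [hy, Pi.add_apply, Pi.smul_apply, Pi.single_eq_same, Pi.single_eq_of_ne hj,
      smul_eq_mul, mul_one, mul_zero, add_zero]
  have hy2 : ∀ s r, y s r j₂ = r := by
    intro s r
    simp only [hy, Pi.add_apply, Pi.smul_apply, Pi.single_eq_same, Pi.single_eq_of_ne hj.symm,
      smul_eq_mul, mul_one, mul_zero, zero_add]
  have hy3 : ∀ s r m, m ≠ j₁ → m ≠ j₂ → y s r m = 0 := by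
    intro s r m h1 h2
    simp only [hy, Pi.add_apply, Pi.smul_apply, Pi.single_eq_of_ne h1, Pi.single_eq_of_ne h2,
      smul_eq_mul, mul_zero, zero_add]
  by_contra hcon
  push Not at hcon
  have hne : ∀ s r, s ≠ 0 ∨ r ≠ 0 → eval (y s r) p ≠ 0 := by
    intro s r h
    refine hcon (y s r) ?_ (hy3 s r)
    rcases h with h | h
    · intro h0
      apply h
      rw [← hy1 s r, h0, Pi.zero_apply]
    · intro h0
      apply h
      rw [← hy2 s r, h0, Pi.zero_apply]
  -- the restriction to the line `(X, 1)`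
  set P : Polynomial ℂ := aeval (fun m => if m = j₁ then (Polynomial.X : Polynomial ℂ) else
    if m = j₂ then 1 else 0) p with hP
  have hPe : ∀ s, P.eval s = eval (y s 1) p := by
    intro s
    have h1 : ∀ q : MvPolynomial (Fin n) ℂ, (aeval (fun m => if m = j₁ then
        (Polynomial.X : Polynomial ℂ) else if m = j₂ then 1 else 0) q).eval s =
        eval (y s 1) q := by
      intro q
      induction q using MvPolynomial.induction_on with
      | C a => simp
      | add p r hp hr => rw [map_add, map_add, Polynomial.eval_add, hp, hr]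
      | mul_X p j hp =>
        rw [map_mul, map_mul, Polynomial.eval_mul, hp, aeval_X, eval_X]
        congr 1
        split_ifs with h1 h2
        · rw [Polynomial.eval_X, h1, hy1]
        · rw [Polynomial.eval_one, h2, hy2]
        · rw [Polynomial.eval_zero, hy3 s 1 j h1 h2]
    exact h1 p
  have hP0 : P.degree = 0 := by
    by_contra hdeg
    obtain ⟨s, hs⟩ := IsAlgClosed.exists_root P hdeg
    exact hne s 1 (Or.inr one_ne_zero) (by rw [← hPe]; exact hs)
  obtain ⟨c, hc⟩ : ∃ c, P = Polynomial.C c := ⟨_, Polynomial.eq_C_of_degree_eq_zero hP0⟩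
  have hcs : ∀ s, eval (y s 1) p = c := by
    intro s
    rw [← hPe, hc, Polynomial.eval_C]
  -- the restriction to the line `(1, X)`
  have h1 : ∀ r, r ≠ 0 → eval (y 1 r) p = r ^ N * c := by
    intro r hr
    have h2 : y 1 r = r • y r⁻¹ 1 := by
      simp only [hy, smul_add, smul_smul, mul_inv_cancel₀ hr, mul_one]
    rw [h2, ← hcs r⁻¹]
    have h3 : ∀ (q : MvPolynomial (Fin n) ℂ), q.IsHomogeneous N → ∀ x : Fin n → ℂ,
        eval (r • x) q = r ^ N * eval x q := by
      intro q hq x
      rw [eval_eq', eval_eq', Finset.mul_sum]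
      refine Finset.sum_congr rfl fun v hv => ?_
      have h4 := hq (mem_support_iff.1 hv)
      rw [Finsupp.weight_apply, Finsupp.sum_fintype _ _ (fun i => by simp)] at h4
      have h5 : ∏ i, (r • x) i ^ v i = r ^ N * ∏ i, x i ^ v i := by
        rw [← h4, ← Finset.prod_pow_eq_pow_sum, ← Finset.prod_mul_distrib]
        refine Finset.prod_congr rfl fun i _ => ?_
        rw [Pi.smul_apply, smul_eq_mul, mul_pow]
        simp
      rw [h5]
      ring
    exact h3 p hp _
  set Q : Polynomial ℂ := aeval (fun m => if m = j₁ then (1 : Polynomial ℂ) else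
    if m = j₂ then Polynomial.X else 0) p with hQ
  have hQe : ∀ s, Q.eval s = eval (y 1 s) p := by
    intro s
    have h1 : ∀ q : MvPolynomial (Fin n) ℂ, (aeval (fun m => if m = j₁ then
        (1 : Polynomial ℂ) else if m = j₂ then Polynomial.X else 0) q).eval s =
        eval (y 1 s) q := by
      intro q
      induction q using MvPolynomial.induction_on with
      | C a => simp
      | add p r hp hr => rw [map_add, map_add, Polynomial.eval_add, hp, hr]
      | mul_X p j hp =>
        rw [map_mul, map_mul, Polynomial.eval_mul, hp, aeval_X, eval_X]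
        congr 1
        split_ifs with h1 h2
        · rw [Polynomial.eval_one, h1, hy1]
        · rw [Polynomial.eval_X, h2, hy2]
        · rw [Polynomial.eval_zero, hy3 1 s j h1 h2]
    exact h1 p
  have hQP : Q = Polynomial.X ^ N * Polynomial.C c := by
    apply Polynomial.eq_of_infinite_eval_eq
    refine Set.Infinite.mono (s := {(0 : ℂ)}ᶜ) ?_ (Set.finite_singleton (0 : ℂ)).infinite_compl
    intro r hr
    rw [Set.mem_ofPred_eq, hQe, h1 r hr, Polynomial.eval_mul, Polynomial.eval_pow,
      Polynomial.eval_X, Polynomial.eval_C]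
  have h2 := hQe 0
  rw [hQP, Polynomial.eval_mul, Polynomial.eval_pow, Polynomial.eval_X, zero_pow hN,
    zero_mul] at h2
  exact hne 1 0 (Or.inl one_ne_zero) h2.symm

/-- A matrix with only one non-zero row and one non-zero column. -/
theorem rank_le_two {H : Matrix (Fin n) (Fin n) ℂ} {m : Fin n}
    (h : ∀ i j, i ≠ m → j ≠ m → H i j = 0) : H.rank ≤ 2 := by
  classical
  have h1 : H = (Matrix.of fun (i : Fin n) (k : Fin 2) => if k = 0 then (if i = m then (1 : ℂ)
      else 0) else (if i = m then 0 else H i m)) *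
      (Matrix.of fun (k : Fin 2) (j : Fin n) => if k = 0 then H m j else
        (if j = m then (1 : ℂ) else 0)) := by
    ext i j
    rw [Matrix.mul_apply, Fin.sum_univ_two]
    simp only [Matrix.of_apply, if_true, Fin.one_eq_zero_iff, OfNat.ofNat_ne_one, if_false]
    by_cases hi : i = m
    · rw [if_pos hi, if_pos hi, hi, one_mul, zero_mul, add_zero]
    · rw [if_neg hi, if_neg hi, zero_mul, zero_add]
      by_cases hj : j = m
      · rw [if_pos hj, hj, mul_one]
      · rw [if_neg hj, mul_zero, h i j hi hj]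
  rw [h1]
  exact (Matrix.rank_mul_le_left _ _).trans (Matrix.rank_le_width _)

theorem eval_eq_zero {m : Fin n} {p : MvPolynomial (Fin n) ℂ} (hp : ∀ v ∈ p.support, v m ≠ 0)
    {y : Fin n → ℂ} (hy : y m = 0) : eval y p = 0 := by
  rw [eval_eq']
  refine Finset.sum_eq_zero fun v hv => ?_
  rw [Finset.prod_eq_zero (Finset.mem_univ m), mul_zero]
  rw [hy, zero_pow (hp v hv)]

end NSK

/-- A linear vector field which kills a form `F` of degree at least `3` in `n ≥ 4` variables such
that all singular points of the projective hypersurface `F = 0` are nodes has divergence zero.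

As `YN.ns_of_double`: choose a basis of generalized eigenvectors with eigenvalues `w_i`, not all
zero; all monomials `x^a` of `F` satisfy `∑ w_i a_i = 0`. By a `ℚ`-linear function `ℂ → ℚ` the
`w_i` may be assumed rational, not all zero. Let `w_1` be the largest and `w_n` the smallest of the
weights. If `w_1 ≤ 0`, the variables of weight `< 0` do not occur in `F`, and the vertex `e_n` is
singular with Hessian matrix zero; so `w_1 > 0 > w_n`. If `e_i` (`i = 1, n`) is not singular, there
is a monomial `x_i^{d-1} x_j`, `w_j = -(d-1) w_i`. If it is singular, it is a node, the determinant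
of the coefficients of `x_i^{d-2} x_j x_k`, `j, k ≠ i`, is not zero, so for a permutation `σ` of the
`j ≠ i`: `w_j + w_{σ(j)} = -(d-2) w_i`, and `2 ∑_{j ≠ i} w_j = -(n-1)(d-2) w_i`. Both nodes:
`2 (w_1 - w_n) = (n-1)(d-2)(w_1 - w_n)`, so `(n-1)(d-2) = 2`, a contradiction. Both not singular:
`w_1 ≥ -(d-1) w_n ≥ (d-1)² w_1`, a contradiction. If `e_1` is not singular and `e_n` is a node:
`w_n ≤ -(d-1) w_1` and `2 w_1 ≥ w_j + w_{σ(j)} = -(d-2) w_n ≥ (d-2)(d-1) w_1`, so `d = 3` and
`w_j = w_1` for all `j ≠ n`, `w_n = -2 w_1`, so `F = x_n Q(x_1, …, x_{n-1})`; at a zero `(x', 0)` of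
`Q` the point is singular and the Hessian matrix has rank `≤ 2 < n - 1`, a contradiction. The other
case is symmetric (`w ↦ -w`). -/
theorem ns_of_nodal {t : ℕ} (ht : 1 ≤ t) {F : MvPolynomial (Fin (t + 3)) ℂ} {d : ℕ} (hd : 3 ≤ d)
    (hF : F.IsHomogeneous d)
    (hN : ∀ q : Fin (t + 3) → ℂ, q ≠ 0 → (∀ j, eval q (pderiv j F) = 0) →
      (YG.hessAt F q).rank = t + 2) : NS F := by
  classical
  by_contra hNS
  obtain ⟨b, lam, g, hg, hgh, hlam, hdeg, i0, hi0⟩ := NSA.exists_weights hF hNS
  obtain ⟨φ, hφ⟩ : ∃ φ : Module.Dual ℚ ℂ, φ (lam i0) ≠ 0 := by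
    by_contra hcon
    push Not at hcon
    exact hi0 ((Module.forall_dual_apply_eq_zero_iff ℚ (lam i0)).1 hcon)
  set w : Fin (t + 3) → ℚ := fun i => φ (lam i) with hw
  have hws : ∀ v ∈ g.support, ∑ i, w i * v i = 0 := by
    intro v hv
    have h1 := congrArg φ (hlam v hv)
    rw [map_sum, map_zero] at h1
    rw [← h1]
    refine Finset.sum_congr rfl fun i _ => ?_
    have h2 : lam i * (v i : ℂ) = (v i) • lam i := by
      rw [nsmul_eq_mul, mul_comm]
    rw [h2, map_nsmul, nsmul_eq_mul, mul_comm]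
  have hN' : ∀ y : Fin (t + 3) → ℂ, y ≠ 0 → (∀ m, eval y (pderiv m g) = 0) →
      t + 2 ≤ (YG.hessAt g y).rank := fun y hy h => NSK.nodal_pt b hg hN hy h
  have hV : ∀ i, NSK.V d w i := fun i =>
    NSK.vertex hgh hws hdeg (fun y hy h => by have := hN' y hy h; omega) i
  obtain ⟨hd3, m, c, hc, hm, hj⟩ := NSK.comb (by omega) hd hV ⟨i0, hφ⟩
  -- all monomials have degree one in `x_m`
  have hvm : ∀ v ∈ g.support, v m = 1 := by
    intro v hv
    have h1 := hws v hv
    have h2 := hdeg v hv
    have h3 : ∀ i, w i * (v i : ℚ) = c * v i + if i = m then -3 * c * v i else 0 := by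
      intro i
      by_cases him : i = m
      · rw [if_pos him, him, hm]
        ring
      · rw [if_neg him, hj i him, add_zero]
    rw [Finset.sum_congr rfl fun i _ => h3 i, Finset.sum_add_distrib, Finset.sum_ite_eq',
      if_pos (Finset.mem_univ m), ← Finset.mul_sum, ← Nat.cast_sum, h2, hd3] at h1
    have h4 : 3 * c * (1 - (v m : ℚ)) = 0 := by
      push_cast at h1
      linear_combination h1
    have h5 : (1 : ℚ) - v m = 0 :=
      (mul_eq_zero.1 h4).resolve_left (mul_ne_zero (by norm_num) hc)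
    have h6 : ((v m : ℕ) : ℚ) = ((1 : ℕ) : ℚ) := by
      push_cast
      linarith
    exact_mod_cast h6
  obtain ⟨j₁, j₂, h1m, h2m, h12⟩ : ∃ j₁ j₂ : Fin (t + 3), j₁ ≠ m ∧ j₂ ≠ m ∧ j₁ ≠ j₂ := by
    have hcard : 2 < ((Finset.univ : Finset (Fin (t + 3))).card) := by
      rw [Finset.card_univ, Fintype.card_fin]
      omega
    have h1 : 1 < ((Finset.univ : Finset (Fin (t + 3))).erase m).card := by
      rw [Finset.card_erase_of_mem (Finset.mem_univ m)]
      omega
    obtain ⟨a, ha, b, hb, hab⟩ := Finset.one_lt_card.1 h1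
    exact ⟨a, b, (Finset.mem_erase.1 ha).1, (Finset.mem_erase.1 hb).1, hab⟩
  have hph : (pderiv m g).IsHomogeneous 2 := by
    have h1 := hgh.pderiv (i := m)
    rw [hd3] at h1
    exact h1
  obtain ⟨y, hy, hy0, hye⟩ := NSK.exists_zero two_ne_zero hph h12
  have hym : y m = 0 := hy0 m h1m.symm h2m.symm
  have hsing : ∀ l, eval y (pderiv l g) = 0 := by
    intro l
    by_cases hl : l = m
    · rw [hl, hye]
    · refine NSK.eval_eq_zero (m := m) (fun v hv => ?_) hym
      have h1 := hvm _ (NSK.add_mem hv)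
      rw [Finsupp.add_apply, Finsupp.single_apply, if_neg hl, add_zero] at h1
      rw [h1]
      exact one_ne_zero
  have h1 := hN' y hy hsing
  have h2 : (YG.hessAt g y).rank ≤ 2 := by
    refine NSK.rank_le_two (m := m) fun i j hi hj => ?_
    unfold YG.hessAt
    rw [Matrix.of_apply]
    refine NSK.eval_eq_zero (m := m) (fun v hv => ?_) hym
    have h1 := hvm _ (NSK.add_mem (NSK.add_mem hv))
    rw [Finsupp.add_apply, Finsupp.add_apply, Finsupp.single_apply, Finsupp.single_apply,
      if_neg hi, if_neg hj, add_zero, add_zero] at h1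
    rw [h1]
    exact one_ne_zero
  omega

end YM

end MPb07157
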