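import Pool.Agent.Lib.MP_b07157_agYG.Defs
import Pool.Agent.Lib.MP_b07157_agW.WX

/-!
# Linear vector fields which kill a form with points of corank one
-/

noncomputable section

namespace MPb07157

open MvPolynomial

namespace YM

namespace NSN

open W

variable {n : ℕ}

/-- The sum of the exponents except the one with index `i`. -/
def S (i : Fin n) (v : Fin n →₀ ℕ) : ℕ := ∑ j ∈ Finset.univ.erase i, v j

theorem S_add_single (i m : Fin n) (v : Fin n →₀ ℕ) :
    S i (v + Finsupp.single m 1) ≤ S i v + 1 := by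
  classical
  unfold S
  rw [Finset.sum_congr rfl fun j _ => Finsupp.add_apply v (Finsupp.single m 1) j,
    Finset.sum_add_distrib]
  have h1 : ∑ j ∈ Finset.univ.erase i, (Finsupp.single m 1 : Fin n →₀ ℕ) j ≤
      ∑ j, (Finsupp.single m 1 : Fin n →₀ ℕ) j :=
    Finset.sum_le_sum_of_subset (Finset.erase_subset _ _)
  have h2 : ∑ j, (Finsupp.single m 1 : Fin n →₀ ℕ) j = 1 := by
    rw [Finset.sum_eq_single m]
    · exact Finsupp.single_eq_same
    · intro j _ hj
      exact Finsupp.single_eq_of_ne hj
    · intro h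
      exact absurd (Finset.mem_univ m) h
  omega

theorem S_add (i : Fin n) (v : Fin n →₀ ℕ) : S i v + v i = ∑ j, v j :=
  Finset.sum_erase_add _ _ (Finset.mem_univ i)

theorem eval_zero {i : Fin n} {p : MvPolynomial (Fin n) ℂ} (h : ∀ v ∈ p.support, 1 ≤ S i v) :
    eval (Pi.single i 1) p = 0 := by
  classical
  rw [eval_eq']
  refine Finset.sum_eq_zero fun v hv => ?_
  obtain ⟨j, hj, hv0⟩ : ∃ j, j ≠ i ∧ v j ≠ 0 := by
    by_contra hcon
    push Not at hcon
    have h1 := h v hv
    have h0 : S i v = 0 := Finset.sum_eq_zero fun j hj => hcon j (Finset.ne_of_mem_erase hj)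
    omega
  rw [Finset.prod_eq_zero (Finset.mem_univ j), mul_zero]
  rw [Pi.single_eq_of_ne hj, zero_pow hv0]

theorem der {i : Fin n} {l : ℕ} {p : MvPolynomial (Fin n) ℂ}
    (h : ∀ v ∈ p.support, l + 1 ≤ S i v) (m : Fin n) :
    ∀ v ∈ (pderiv m p).support, l ≤ S i v := by
  intro v hv
  rw [mem_support_iff, coeff_pderiv] at hv
  have h1 := h (v + Finsupp.single m 1) (mem_support_iff.2 (left_ne_zero_of_mul hv))
  have h2 := S_add_single i m v
  omega

theorem pderiv_lin (l : Fin n) (c : Fin n → ℂ) : pderiv l (NX.lin c) = C (c l) := by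
  rw [NX.lin_apply, map_sum, Finset.sum_eq_single l]
  · rw [Derivation.map_smul, pderiv_X_self, smul_eq_C_mul, mul_one]
  · intro j _ hj
    rw [Derivation.map_smul, pderiv_X_of_ne hj, smul_zero]
  · intro h
    exact absurd (Finset.mem_univ l) h

theorem pderiv_autB (b : Module.Basis (Fin n) ℂ (Fin n → ℂ)) (l : Fin n)
    (p : MvPolynomial (Fin n) ℂ) :
    pderiv l (NX.autB b p) = ∑ m, C (b m l) * NX.autB b (pderiv m p) := by
  rw [NX.autB_apply]
  simp only [NX.autB_apply]
  induction p using MvPolynomial.induction_on with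
  | C a => simp
  | add p r hp hr => simp only [map_add, hp, hr, mul_add, Finset.sum_add_distrib]
  | mul_X p j hp =>
    rw [map_mul, aeval_X, Derivation.leibniz, hp, pderiv_lin]
    have h1 : ∀ m, C (b m l) * aeval (fun i => NX.lin (b i)) (pderiv m (p * X j)) =
        NX.lin (b j) * (C (b m l) * aeval (fun i => NX.lin (b i)) (pderiv m p)) +
        if m = j then C (b m l) * aeval (fun i => NX.lin (b i)) p else 0 := by
      intro m
      rw [Derivation.leibniz, smul_eq_mul, smul_eq_mul, map_add, map_mul, map_mul, aeval_X]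
      by_cases hm : m = j
      · rw [if_pos hm, hm, pderiv_X_self, map_one]
        ring
      · rw [if_neg hm, pderiv_X_of_ne (Ne.symm hm), map_zero]
        ring
    rw [Finset.sum_congr rfl fun m _ => h1 m, Finset.sum_add_distrib, ← Finset.mul_sum,
      Finset.sum_ite_eq' Finset.univ j, if_pos (Finset.mem_univ j), smul_eq_mul, smul_eq_mul]
    ring

/-- The vertex. -/
def vtx (b : Module.Basis (Fin n) ℂ (Fin n → ℂ)) (i : Fin n) : Fin n → ℂ :=
  fun l => b.repr (Pi.single l 1) i

theorem lin_vtx (b : Module.Basis (Fin n) ℂ (Fin n → ℂ)) (i m : Fin n) :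
    eval (vtx b i) (NX.lin (b m)) = (Pi.single i 1 : Fin n → ℂ) m := by
  have h : ∑ j, (b m) j • b.repr (Pi.single j 1) = b.repr (b m) := by
    have h1 : b m = ∑ j, (b m) j • (Pi.single j 1 : Fin n → ℂ) := by
      rw [← pi_eq_sum_univ' (b m)]
    conv_rhs => rw [h1, map_sum]
    refine Finset.sum_congr rfl fun j _ => ?_
    rw [map_smul]
  have h2 := congrArg (fun f : Fin n →₀ ℂ => f i) h
  rw [b.repr_self] at h2
  simp only [Finsupp.coe_finsetSum, Finset.sum_apply, Finsupp.smul_apply, smul_eq_mul] at h2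
  rw [NX.lin_apply, map_sum]
  simp only [smul_eval, eval_X]
  unfold vtx
  rw [h2, Finsupp.single_apply, Pi.single_apply]

theorem eval_vtx (b : Module.Basis (Fin n) ℂ (Fin n → ℂ)) (i : Fin n)
    (p : MvPolynomial (Fin n) ℂ) :
    eval (vtx b i) (NX.autB b p) = eval (Pi.single i 1) p := by
  rw [NX.autB_apply]
  induction p using MvPolynomial.induction_on with
  | C a => simp
  | add p r hp hr => simp only [map_add, hp, hr]
  | mul_X p j hp => rw [map_mul, map_mul, map_mul, hp, aeval_X, lin_vtx, eval_X]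

theorem vtx_ne (b : Module.Basis (Fin n) ℂ (Fin n → ℂ)) (i : Fin n) : vtx b i ≠ 0 := by
  intro h
  have h1 := lin_vtx b i i
  rw [h, Pi.single_eq_same, NX.lin_apply, map_sum] at h1
  simp at h1

/-- A hypersurface with double points has a monomial with a large exponent. -/
theorem exists_mon {F : MvPolynomial (Fin n) ℂ} {d : ℕ} (hd : 5 ≤ d)
    (hD : ∀ q : Fin n → ℂ, q ≠ 0 → (∀ j, eval q (pderiv j F) = 0) → YG.hessAt F q ≠ 0)
    (b : Module.Basis (Fin n) ℂ (Fin n → ℂ)) {g : MvPolynomial (Fin n) ℂ}
    (hg : NX.autB b g = F) (hdeg : ∀ v ∈ g.support, ∑ i, v i = d) (i : Fin n) :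
    ∃ v ∈ g.support, d - 2 ≤ v i := by
  by_contra hcon
  push Not at hcon
  have h3 : ∀ v ∈ g.support, 2 + 1 ≤ S i v := by
    intro v hv
    have h1 := hcon v hv
    have h2 := S_add i v
    have h4 := hdeg v hv
    omega
  have hd1 : ∀ l, eval (vtx b i) (pderiv l F) = 0 := by
    intro l
    rw [← hg, pderiv_autB, map_sum]
    refine Finset.sum_eq_zero fun m _ => ?_
    rw [map_mul, eval_vtx, eval_zero (fun v hv => ?_), mul_zero]
    have := der h3 m v hv
    omega
  apply hD (vtx b i) (vtx_ne b i) hd1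
  ext l l'
  show eval (vtx b i) (pderiv l (pderiv l' F)) = 0
  rw [← hg, pderiv_autB, map_sum, map_sum]
  refine Finset.sum_eq_zero fun m _ => ?_
  rw [Derivation.leibniz, pderiv_C, smul_zero, add_zero, smul_eq_mul, map_mul, pderiv_autB,
    map_sum, Finset.sum_eq_zero, mul_zero]
  intro m' _
  rw [map_mul, eval_vtx, eval_zero (der (der h3 m) m'), mul_zero]

end NSN

open W in
/-- A linear vector field which kills a form `F` of degree at least `5` in `n` variables such that the
singular points of `F = 0` are double points has divergence zero. As `YN.ns_of_double`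
(`agYN/NSD.lean`), which is the case `n = 3`. -/
theorem ns_of_double {n : ℕ} {F : MvPolynomial (Fin n) ℂ} {d : ℕ} (hd : 5 ≤ d)
    (hF : F.IsHomogeneous d) (hF0 : F ≠ 0)
    (hD : ∀ q : Fin n → ℂ, q ≠ 0 → (∀ j, eval q (pderiv j F) = 0) → YG.hessAt F q ≠ 0) :
    NS F := by
  classical
  intro a ha haf
  by_contra hdiv
  have hDC := hD
  -- the linear map
  set A : Fin n → Fin n → ℂ := fun j i => coeff 0 (pderiv i (a j)) with hA
  have haA : ∀ j, a j = NX.lin (A j) := fun j => NX.eq_lin (ha j)
  set T : Module.End ℂ (Fin n → ℂ) := Fintype.linearCombination ℂ A with hT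
  set D : Derivation ℂ (MvPolynomial (Fin n) ℂ) (MvPolynomial (Fin n) ℂ) := mkDerivation ℂ a with hD
  have hDT : ∀ c, D (NX.lin c) = NX.lin (T c) := NX.mkDerivation_lin a A haA
  have hDf : D F = 0 := by
    rw [← haf]
    have hcoe : ∀ (s : Finset (Fin n)) (p : MvPolynomial (Fin n) ℂ),
        (∑ i ∈ s, a i • (pderiv i : Derivation ℂ (MvPolynomial (Fin n) ℂ) _)) p =
        ∑ i ∈ s, a i * pderiv i p := by
      intro s p
      induction s using Finset.induction_on with
      | empty => simp
      | insert i s hi ih =>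
        rw [Finset.sum_insert hi, Finset.sum_insert hi, Derivation.add_apply, ih,
          Derivation.smul_apply, smul_eq_mul]
    have h0 : ∀ p, (∑ i, a i • (pderiv i : Derivation ℂ (MvPolynomial (Fin n) ℂ) _)) p =
        ∑ i, a i * pderiv i p := hcoe Finset.univ
    have h1 : D = ∑ i, a i • (pderiv i : Derivation ℂ (MvPolynomial (Fin n) ℂ) _) := by
      apply MvPolynomial.derivation_ext
      intro j
      rw [hD, mkDerivation_X, h0, Finset.sum_eq_single j]
      · rw [pderiv_X_self, mul_one]
      · intro i _ hij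
        rw [pderiv_X_of_ne hij.symm, mul_zero]
      · intro h2
        exact absurd (Finset.mem_univ j) h2
    rw [h1, h0]
  obtain ⟨b, lam, hb⟩ := NX.exists_basis T
  have hbD := fun i => NX.lin_mem_gen hDT (hb i)
  -- the polynomial in the new coordinates
  set g := (NX.autB b).symm F with hg
  have hfg : NX.autB b g = F := AlgEquiv.apply_symm_apply _ _
  have hgh : g.IsHomogeneous d := by
    rw [hg, NX.autB_symm_apply]
    have := hF.aeval (fun i => NX.lin (b.repr (Pi.single i 1)))
      (fun i => NX.lin_isHomogeneous _)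
    rwa [one_mul] at this
  have hsupp : ∀ v ∈ g.support, ∑ i, lam i * v i = 0 := fun v hv =>
    NX.sum_eq_zero_of_mem_support b hbD (by rw [hfg]; exact hDf) hv
  have hdeg : ∀ v ∈ g.support, ∑ i, v i = d := by
    intro v hv
    have h1 := hgh (mem_support_iff.1 hv)
    rw [Finsupp.weight_apply, Finsupp.sum_fintype _ _ (fun i => by simp)] at h1
    simpa using h1
  -- the trace
  have htr : ∑ i, lam i ≠ 0 := by
    intro h0
    apply hdiv
    have h6 : ∀ i, pderiv i (a i) = C (A i i) := by
      intro i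
      have h2 : (pderiv i (a i)).IsHomogeneous 0 := (ha i).pderiv
      exact totalDegree_eq_zero_iff_eq_C.1 (Nat.le_zero.1 h2.totalDegree_le)
    rw [Finset.sum_congr rfl fun i _ => h6 i, ← map_sum]
    have h7 : LinearMap.trace ℂ (Fin n → ℂ) T = ∑ i, A i i := by
      rw [LinearMap.trace_eq_matrix_trace ℂ (Pi.basisFun ℂ (Fin n)), Matrix.trace]
      refine Finset.sum_congr rfl fun i _ => ?_
      rw [Matrix.diag_apply, LinearMap.toMatrix_apply, Pi.basisFun_apply, Pi.basisFun_repr, hT,
        Fintype.linearCombination_apply_single, one_smul]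
    rw [← h7, NX.trace_eq_sum T b lam hb, h0, map_zero]
  choose v hv hvi using fun i => NSN.exists_mon hd hDC b hfg hdeg i
  set A' : Matrix (Fin n) (Fin n) ℂ := fun i j => (v i j : ℂ) with hA'
  have hdet : A'.det ≠ 0 := by
    refine det_ne_zero_of_sum_row_lt_diag fun i => ?_
    have h1 : ∀ j, ‖A' i j‖ = (v i j : ℝ) := fun j => by
      rw [hA']
      exact Complex.norm_natCast _
    rw [Finset.sum_congr rfl fun j _ => h1 j, h1 i, ← Nat.cast_sum, Nat.cast_lt]
    have h2 := Finset.sum_erase_add Finset.univ (fun j => v i j) (Finset.mem_univ i)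
    have h3 := hdeg (v i) (hv i)
    have h4 := hvi i
    omega
  have hmul : A'.mulVec lam = 0 := by
    funext i
    rw [Matrix.mulVec, dotProduct, Pi.zero_apply, ← hsupp (v i) (hv i)]
    exact Finset.sum_congr rfl fun j _ => mul_comm _ _
  have h0 := Matrix.eq_zero_of_mulVec_eq_zero hdet hmul
  apply htr
  rw [h0]
  exact Finset.sum_eq_zero fun i _ => rfl

end YM

end MPb07157
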