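import Pool.Agent.Lib.MP_b07157_agYG.Defs
import Pool.Agent.Lib.MP_b07157_agYH.A3

/-!
# Forms with finitely many singular points are squarefree
-/

noncomputable section

namespace MPb07157

open MvPolynomial

namespace YM

/-- The derivative of a polynomial along a line. -/
theorem lineP_derivative {n : ℕ} (F : MvPolynomial (Fin n) ℂ) (p : Fin n → ℂ) (i : Fin n) :
    Polynomial.derivative (YH.lineP F p (Pi.single i 1)) =
      YH.lineP (pderiv i F) p (Pi.single i 1) := by
  classical
  unfold YH.lineP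
  induction F using MvPolynomial.induction_on with
  | C a => simp
  | add f g hf hg => simp only [map_add, hf, hg]
  | mul_X f j hf =>
    have e1 : Polynomial.derivative (Polynomial.C (p j) +
        Polynomial.C ((Pi.single i 1 : Fin n → ℂ) j) * Polynomial.X) =
        Polynomial.C ((Pi.single i 1 : Fin n → ℂ) j) := by simp
    rw [map_mul, Polynomial.derivative_mul, hf, aeval_X, e1, Derivation.leibniz, smul_eq_mul,
      smul_eq_mul, map_add (aeval _), map_mul, map_mul, aeval_X]
    by_cases h : j = i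
    · subst h
      rw [pderiv_X_self, map_one, Pi.single_eq_same, Polynomial.C_1]
      ring
    · rw [pderiv_X_of_ne h, map_zero, Pi.single_eq_of_ne h, Polynomial.C_0]
      ring

/-- A nonzero linear form which vanishes at `p` and at the point `e_i`, in at least three
variables. -/
theorem exists_linear {n : ℕ} (hn : 3 ≤ n) (p : Fin n → ℂ) (i : Fin n) :
    ∃ ℓ : MvPolynomial (Fin n) ℂ, ℓ ≠ 0 ∧ ∀ c s : ℂ, eval (c • p + s • Pi.single i 1) ℓ = 0 := by
  classical
  obtain ⟨j, k, hji, hki, hjk⟩ : ∃ j k : Fin n, j ≠ i ∧ k ≠ i ∧ j ≠ k := by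
    have h0 : 0 < n := by omega
    have h1 : 1 < n := by omega
    have h2 : 2 < n := by omega
    by_cases hi0 : i = ⟨0, h0⟩
    · exact ⟨⟨1, h1⟩, ⟨2, h2⟩, by simp [hi0], by simp [hi0], by simp⟩
    · by_cases hi1 : i = ⟨1, h1⟩
      · exact ⟨⟨0, h0⟩, ⟨2, h2⟩, by simp [hi1], by simp [hi1], by simp⟩
      · exact ⟨⟨0, h0⟩, ⟨1, h1⟩, Ne.symm hi0, Ne.symm hi1, by simp⟩
  have hev : ∀ c s : ℂ, ∀ l : Fin n, l ≠ i → (c • p + s • Pi.single i 1 : Fin n → ℂ) l = c * p l := by
    intro c s l hl
    simp [Pi.single_eq_of_ne hl]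
  by_cases hj : p j = 0
  · refine ⟨X j, X_ne_zero j, fun c s => ?_⟩
    rw [eval_X, hev c s j hji, hj, mul_zero]
  · refine ⟨C (p j) * X k - C (p k) * X j, ?_, fun c s => ?_⟩
    · intro h
      have h1 := congrArg (eval (Pi.single k 1 : Fin n → ℂ)) h
      simp [Pi.single_eq_of_ne hjk] at h1
      exact hj h1
    · rw [map_sub, map_mul, map_mul, eval_C, eval_C, eval_X, eval_X, hev c s j hji, hev c s k hki]
      ring

/-- Finitely many planes which contain the line of `e_i` and the zeros of a polynomial do not cover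
the space. -/
theorem exists_off {n : ℕ} (hn : 3 ≤ n) (P : Finset (Fin n → ℂ)) (i : Fin n)
    {w : MvPolynomial (Fin n) ℂ} (hw : w ≠ 0) : ∃ a : Fin n → ℂ, eval a w ≠ 0 ∧
      (∀ s : ℂ, a ≠ s • Pi.single i 1) ∧ ∀ p ∈ P, ∀ c s : ℂ, a ≠ c • p + s • Pi.single i 1 := by
  classical
  choose ℓ hℓ0 hℓ using fun p => exists_linear hn p i
  have hprod : (w * (ℓ 0 * ∏ p ∈ P, ℓ p)) ≠ 0 :=
    mul_ne_zero hw (mul_ne_zero (hℓ0 0) (Finset.prod_ne_zero_iff.2 fun p _ => hℓ0 p))
  obtain ⟨a, ha⟩ : ∃ a, eval a (w * (ℓ 0 * ∏ p ∈ P, ℓ p)) ≠ 0 := by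
    by_contra hcon
    push Not at hcon
    exact hprod (MvPolynomial.funext fun a => by rw [hcon a, map_zero])
  rw [map_mul, map_mul, map_prod] at ha
  have h1 := left_ne_zero_of_mul ha
  have h2 := left_ne_zero_of_mul (right_ne_zero_of_mul ha)
  have h3 := right_ne_zero_of_mul (right_ne_zero_of_mul ha)
  rw [Finset.prod_ne_zero_iff] at h3
  refine ⟨a, h1, fun s hs => ?_, fun p hp c s hs => ?_⟩
  · apply h2
    have h4 := hℓ 0 0 s
    rw [zero_smul, zero_add, ← hs] at h4
    exact h4
  · apply h3 p hp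
    rw [hs]
    exact hℓ p c s

/-- A polynomial in at least three variables whose zeros lie on finitely many lines through the
origin is constant. -/
theorem const_of_finite_zeros {n : ℕ} (hn : 3 ≤ n) {x : MvPolynomial (Fin n) ℂ}
    (P : Finset (Fin n → ℂ))
    (h : ∀ y : Fin n → ℂ, eval y x = 0 → y = 0 ∨ ∃ p ∈ P, ∃ c : ℂ, y = c • p)
    (i : Fin n) : pderiv i x = 0 := by
  classical
  by_contra hx
  obtain ⟨a, ha, ha0, haP⟩ := exists_off hn P i hx
  -- the line through `a` in the direction of `e_i` meets the zeros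
  have hdeg : (YH.lineP x a (Pi.single i 1)).degree ≠ 0 := by
    intro h0
    have h1 : Polynomial.derivative (YH.lineP x a (Pi.single i 1)) = 0 := by
      rw [Polynomial.eq_C_of_degree_eq_zero h0, Polynomial.derivative_C]
    rw [lineP_derivative] at h1
    have h2 := YH.lineP_eval (pderiv i x) a (Pi.single i 1) 0
    rw [h1, Polynomial.eval_zero, zero_smul, add_zero] at h2
    exact ha h2.symm
  obtain ⟨s, hs⟩ := IsAlgClosed.exists_root _ hdeg
  rw [Polynomial.IsRoot.def, YH.lineP_eval] at hs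
  rcases h _ hs with h1 | ⟨p, hp, c, h1⟩
  · refine ha0 (-s) ?_
    rw [neg_smul]
    exact eq_neg_of_add_eq_zero_left h1
  · refine haP p hp c (-s) ?_
    rw [neg_smul, ← h1]
    simp

/-- A polynomial all of whose derivatives vanish is constant. -/
theorem eq_C_of_pderiv {n : ℕ} {x : MvPolynomial (Fin n) ℂ} (h : ∀ i, pderiv i x = 0) :
    x = C (coeff 0 x) := by
  classical
  ext m
  rw [coeff_C]
  by_cases hm : 0 = m
  · rw [if_pos hm, hm]
  · rw [if_neg hm]
    obtain ⟨i, hi⟩ : ∃ i, m i ≠ 0 := by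
      by_contra hcon
      push Not at hcon
      exact hm (Finsupp.ext fun i => (hcon i).symm)
    have h1 := coeff_pderiv (i := i) x (m - Finsupp.single i 1)
    rw [h i, coeff_zero] at h1
    have h2 : m - Finsupp.single i 1 + Finsupp.single i 1 = m :=
      tsub_add_cancel_of_le (Finsupp.single_le_iff.2 (Nat.one_le_iff_ne_zero.2 hi))
    rw [h2] at h1
    rcases mul_eq_zero.1 h1.symm with h3 | h3
    · exact h3
    · exact absurd h3 (Nat.cast_add_one_ne_zero ((m - Finsupp.single i 1 : Fin n →₀ ℕ) i))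

/-- A polynomial with finitely many lines of singular points is squarefree, in at least three
variables. -/
theorem FinSing.squarefree {n : ℕ} (hn : 3 ≤ n) {F : MvPolynomial (Fin n) ℂ}
    (hfin : YG.FinSing F) : Squarefree F := by
  classical
  obtain ⟨P, hP⟩ := hfin
  intro x ⟨g, hg⟩
  have h1 : ∀ y : Fin n → ℂ, eval y x = 0 → y = 0 ∨ ∃ p ∈ P, ∃ c : ℂ, y = c • p := by
    intro y hy
    by_cases h0 : y = 0
    · exact Or.inl h0
    · refine Or.inr (hP y h0 fun j => ?_)
      rw [hg, Derivation.leibniz, Derivation.leibniz]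
      simp only [smul_eq_mul, map_add, map_mul, hy]
      ring
  have h2 := eq_C_of_pderiv fun i => const_of_finite_zeros hn P h1 i
  rw [h2]
  refine IsUnit.map C (isUnit_iff_ne_zero.2 ?_)
  intro h3
  rw [h3, map_zero] at h2
  obtain ⟨a, _, ha0, haP⟩ := exists_off hn P ⟨0, by omega⟩
    (one_ne_zero : (1 : MvPolynomial (Fin n) ℂ) ≠ 0)
  rcases h1 a (by rw [h2, map_zero]) with h4 | ⟨p, hp, c, h4⟩
  · exact ha0 0 (by rw [h4, zero_smul])
  · exact haP p hp c 0 (by rw [h4, zero_smul, add_zero])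

end YM

end MPb07157
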