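import Pool.Agent.Lib.MP_b07157_agYM.Defs

/-!
# Vector fields which kill a form
-/

noncomputable section

namespace MPb07157

open MvPolynomial

namespace YM

variable {n : ℕ}

namespace BadNaux

/-- Homogeneous components of a product with a homogeneous polynomial. -/
theorem hc_mul {g : MvPolynomial (Fin n) ℂ} {e : ℕ} (hg : g.IsHomogeneous e)
    (c : MvPolynomial (Fin n) ℂ) (j : ℕ) :
    homogeneousComponent (j + e) (c * g) = homogeneousComponent j c * g := by
  classical
  ext m
  rw [coeff_homogeneousComponent, coeff_mul, coeff_mul]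
  split_ifs with hm
  · refine Finset.sum_congr rfl fun p hp => ?_
    by_cases h0 : coeff p.2 g = 0
    · rw [h0, mul_zero, mul_zero]
    · have h1 : p.2.degree = e := by
        by_contra hne
        exact h0 (hg.coeff_eq_zero hne)
      have h2 : p.1 + p.2 = m := Finset.HasAntidiagonal.mem_antidiagonal.1 hp
      have h3 : p.1.degree = j := by
        rw [← h2, map_add, h1] at hm
        omega
      rw [coeff_homogeneousComponent, if_pos h3]
  · symm
    refine Finset.sum_eq_zero fun p hp => ?_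
    by_cases h0 : coeff p.2 g = 0
    · rw [h0, mul_zero]
    · have h1 : p.2.degree = e := by
        by_contra hne
        exact h0 (hg.coeff_eq_zero hne)
      have h2 : p.1 + p.2 = m := Finset.HasAntidiagonal.mem_antidiagonal.1 hp
      have h3 : p.1.degree ≠ j := by
        intro h4
        apply hm
        rw [← h2, map_add, h1, h4]
      rw [coeff_homogeneousComponent, if_neg h3, zero_mul]

theorem hc_pderiv (i : Fin n) (p : MvPolynomial (Fin n) ℂ) (k : ℕ) :
    homogeneousComponent k (pderiv i p) = pderiv i (homogeneousComponent (k + 1) p) := by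
  classical
  ext m
  rw [coeff_homogeneousComponent, coeff_pderiv, coeff_pderiv, coeff_homogeneousComponent,
    map_add, Finsupp.degree_single]
  by_cases h : m.degree = k
  · rw [if_pos h, if_pos (by omega)]
  · rw [if_neg h, if_neg (by omega), zero_mul]

theorem hc_of {p : MvPolynomial (Fin n) ℂ} {k : ℕ} (hp : p.IsHomogeneous k) :
    homogeneousComponent k p = p := by
  rw [homogeneousComponent_of_mem ((mem_homogeneousSubmodule _ _).2 hp), if_pos rfl]

theorem pcomm (i j : Fin n) (F : MvPolynomial (Fin n) ℂ) :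
    pderiv i (pderiv j F) = pderiv j (pderiv i F) := by
  classical
  ext m
  rw [coeff_pderiv, coeff_pderiv, coeff_pderiv, coeff_pderiv, add_right_comm m]
  by_cases h : i = j
  · subst h
    rfl
  · simp only [Finsupp.coe_add, Pi.add_apply, Finsupp.single_apply, h, Ne.symm h, if_false,
      add_zero]
    ring

theorem eulerF {F : MvPolynomial (Fin n) ℂ} {d : ℕ} (hF : F.IsHomogeneous d) :
    ∑ i, X i * pderiv i F = C (d : ℂ) * F := by
  have h1 := hF.sum_X_mul_pderiv
  rw [nsmul_eq_mul] at h1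
  rw [h1, map_natCast]

/-- The sum of an antisymmetric matrix. -/
theorem anti_sum (S : Fin n → Fin n → MvPolynomial (Fin n) ℂ) (h : ∀ i j, S i j = -S j i) :
    ∑ i, ∑ j, S i j = 0 := by
  have h1 : ∑ i, ∑ j, S i j = -∑ i, ∑ j, S i j := by
    conv_lhs => rw [Finset.sum_comm]
    rw [← Finset.sum_neg_distrib]
    refine Finset.sum_congr rfl fun i _ => ?_
    rw [← Finset.sum_neg_distrib]
    exact Finset.sum_congr rfl fun j _ => h j i
  have h2 : (2 : MvPolynomial (Fin n) ℂ) * ∑ i, ∑ j, S i j = 0 := by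
    linear_combination h1
  exact (mul_eq_zero.1 h2).resolve_left two_ne_zero

end BadNaux

open BadNaux

/-- The field may be assumed homogeneous. As `YN.Bad.homog` (`agYN/BadA.lean`). -/
theorem Bad.homog {F : MvPolynomial (Fin n) ℂ} {d m : ℕ} (hF : F.IsHomogeneous d)
    (h : Bad F m) : ∃ v : Fin n → MvPolynomial (Fin n) ℂ,
      (∀ i, (v i).IsHomogeneous (d * m + 1)) ∧ ∑ i, v i * pderiv i F = 0 ∧
      ∑ i, pderiv i (v i) = F ^ m := by
  obtain ⟨v, h1, h2⟩ := h
  refine ⟨fun i => homogeneousComponent (d * m + 1) (v i),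
    fun i => homogeneousComponent_isHomogeneous _ _, ?_, ?_⟩
  · have h3 := congrArg (homogeneousComponent (d * m + 1 + (d - 1))) h1
    rw [map_sum, map_zero] at h3
    rw [← h3]
    exact Finset.sum_congr rfl fun i _ => (hc_mul hF.pderiv _ _).symm
  · have h3 := congrArg (homogeneousComponent (d * m)) h2
    rw [map_sum, hc_of (hF.pow m)] at h3
    rw [← h3]
    exact Finset.sum_congr rfl fun i _ => (hc_pderiv i _ _).symm

/-- `v = a - (g/d) x`, `g = (∑ a_i ∂_i F) / F`. -/
theorem bad_of_not_nonEx (hn : 0 < n) {F : MvPolynomial (Fin n) ℂ} {d : ℕ} (hd : 0 < d)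
    (hF : F.IsHomogeneous d) (hF0 : F ≠ 0) (h : ¬ NonEx F ((n : ℂ) / (d : ℂ))) :
    ∃ m, Bad F m := by
  unfold NonEx at h
  push Not at h
  obtain ⟨m, a, ha⟩ := h
  refine ⟨m, ?_⟩
  have hd0 : (d : ℂ) ≠ 0 := by exact_mod_cast hd.ne'
  set α : ℂ := (n : ℂ) / (d : ℂ) + m with hα
  have hα0 : α ≠ 0 := by
    intro h0
    have h1 : (n : ℂ) + m * d = 0 := by
      have h2 : α * d = 0 := by rw [h0, zero_mul]
      rw [hα, add_mul, div_mul_cancel₀ _ hd0] at h2
      exact h2
    have h2 : ((n + m * d : ℕ) : ℂ) = 0 := by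
      push_cast
      exact h1
    have h3 : n + m * d = 0 := by exact_mod_cast h2
    omega
  -- the homogeneous part of the field
  set b : Fin n → MvPolynomial (Fin n) ℂ := fun i => homogeneousComponent (d * m + 1) (a i)
    with hb
  have hbh : ∀ i, (b i).IsHomogeneous (d * m + 1) := fun i =>
    homogeneousComponent_isHomogeneous _ _
  have hb1 : F * ∑ i, pderiv i (b i) - C α * ∑ i, b i * pderiv i F = F ^ (m + 1) := by
    have e1 : (F ^ (m + 1)).IsHomogeneous (d * m + d) := by
      have e2 := hF.pow (m + 1)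
      rwa [mul_add, mul_one] at e2
    have e3 := congrArg (homogeneousComponent (d * m + d)) ha
    rw [map_sum, hc_of e1] at e3
    rw [← e3, Finset.mul_sum, Finset.mul_sum, ← Finset.sum_sub_distrib]
    refine Finset.sum_congr rfl fun i _ => ?_
    have e4 : homogeneousComponent (d * m + d) (F * pderiv i (a i)) = F * pderiv i (b i) := by
      rw [mul_comm F, hc_mul hF, hc_pderiv, mul_comm]
    have e5 : homogeneousComponent (d * m + d) (C α * (a i * pderiv i F)) =
        C α * (b i * pderiv i F) := by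
      have e6 : d * m + d = d * m + 1 + (d - 1) := by omega
      rw [homogeneousComponent_C_mul, e6, hc_mul hF.pderiv]
    rw [map_sub, e4, e5]
  set g : MvPolynomial (Fin n) ℂ := C α⁻¹ * (∑ i, pderiv i (b i) - F ^ m) with hg
  have hCα : C α * (C α⁻¹ : MvPolynomial (Fin n) ℂ) = 1 := by
    rw [← C_mul, mul_inv_cancel₀ hα0, C_1]
  have hg1 : F * g = ∑ i, b i * pderiv i F := by
    have e1 : (C α : MvPolynomial (Fin n) ℂ) ≠ 0 := by
      rw [Ne, C_eq_zero]
      exact hα0
    apply mul_left_cancel₀ e1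
    rw [hg]
    linear_combination (F * (∑ i, pderiv i (b i) - F ^ m)) * hCα + hb1
  have hg2 : C α * g = ∑ i, pderiv i (b i) - F ^ m := by
    rw [hg, ← mul_assoc, hCα, one_mul]
  have hgh : g.IsHomogeneous (d * m) := by
    rw [hg]
    have e1 : (∑ i, pderiv i (b i) - F ^ m).IsHomogeneous (d * m) := by
      apply IsHomogeneous.sub
      · apply IsHomogeneous.sum
        intro i _
        have e2 := (hbh i).pderiv (i := i)
        rwa [Nat.add_sub_cancel] at e2
      · exact hF.pow m
    have e3 := (isHomogeneous_C (Fin n) α⁻¹).mul e1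
    rwa [zero_add] at e3
  have hE := eulerF hgh
  have hEF := eulerF hF
  have hCd : C (d : ℂ) * (C (d : ℂ)⁻¹ : MvPolynomial (Fin n) ℂ) = 1 := by
    rw [← C_mul, mul_inv_cancel₀ hd0, C_1]
  refine ⟨fun i => b i - C (d : ℂ)⁻¹ * g * X i, ?_, ?_⟩
  · have e1 : ∑ i, (b i - C (d : ℂ)⁻¹ * g * X i) * pderiv i F =
        ∑ i, b i * pderiv i F - C (d : ℂ)⁻¹ * g * ∑ i, X i * pderiv i F := by
      rw [Finset.mul_sum, ← Finset.sum_sub_distrib]
      refine Finset.sum_congr rfl fun i _ => ?_
      ring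
    rw [e1]
    linear_combination (-C (d : ℂ)⁻¹ * g) * hEF - (F * g) * hCd - hg1
  · have e1 : ∑ i, pderiv i (b i - C (d : ℂ)⁻¹ * g * X i) =
        ∑ i, pderiv i (b i) - C (d : ℂ)⁻¹ * ((n : MvPolynomial (Fin n) ℂ) * g +
          ∑ i, X i * pderiv i g) := by
      have e2 : (n : MvPolynomial (Fin n) ℂ) * g = ∑ _i : Fin n, g := by
        rw [Finset.sum_const, Finset.card_univ, Fintype.card_fin, nsmul_eq_mul]
      rw [e2, ← Finset.sum_add_distrib, Finset.mul_sum, ← Finset.sum_sub_distrib]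
      refine Finset.sum_congr rfl fun i _ => ?_
      rw [map_sub, mul_assoc, pderiv_C_mul, pderiv_mul, pderiv_X_self]
      ring
    rw [e1]
    have e2 : (C α : MvPolynomial (Fin n) ℂ) =
        C (d : ℂ)⁻¹ * (n : MvPolynomial (Fin n) ℂ) + (m : MvPolynomial (Fin n) ℂ) := by
      rw [hα, map_add, div_eq_mul_inv, C_mul, mul_comm (C (n : ℂ)), map_natCast C m,
        map_natCast C n]
    have e3 : (C ((d * m : ℕ) : ℂ) : MvPolynomial (Fin n) ℂ) =
        C (d : ℂ) * (m : MvPolynomial (Fin n) ℂ) := by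
      rw [Nat.cast_mul, C_mul, map_natCast C m]
    rw [e2] at hg2
    rw [e3] at hE
    linear_combination (-C (d : ℂ)⁻¹) * hE - hg2 - ((m : MvPolynomial (Fin n) ℂ) * g) * hCd

/-- If `v_i = ∑ c_ij F_j`, then `div v = ∑_j (∑_i ∂_i c_ij) F_j`, and
`∑_i ∂_i c_ij - (1/d) F^m x_j` kills `F` and has divergence `-((n + d m)/d) F^m`. -/
theorem Bad.pred (hn : 0 < n) {F : MvPolynomial (Fin n) ℂ} {d m : ℕ} (hd : 0 < d)
    (hF : F.IsHomogeneous d) {v : Fin n → MvPolynomial (Fin n) ℂ}
    (hk : IsKos (fun i => pderiv i F) v) (hdiv : ∑ i, pderiv i (v i) = F ^ (m + 1)) :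
    Bad F m := by
  obtain ⟨c, hc1, _, hc3⟩ := hk
  have h00 : ((n : ℂ) + d * m) ≠ 0 := by
    intro h0
    have h2 : ((n + d * m : ℕ) : ℂ) = 0 := by
      push_cast
      exact h0
    have h3 : n + d * m = 0 := by exact_mod_cast h2
    omega
  set w : Fin n → MvPolynomial (Fin n) ℂ := fun j => ∑ i, pderiv i (c i j) with hw
  have hw1 : ∑ j, w j * pderiv j F = F ^ (m + 1) := by
    have e1 : ∑ i, pderiv i (v i) =
        ∑ i, ∑ j, pderiv i (c i j) * pderiv j F + ∑ i, ∑ j, c i j * pderiv i (pderiv j F) := by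
      rw [← Finset.sum_add_distrib]
      refine Finset.sum_congr rfl fun i _ => ?_
      rw [hc3 i, map_sum, ← Finset.sum_add_distrib]
      refine Finset.sum_congr rfl fun j _ => ?_
      rw [pderiv_mul]
    have e2 : ∑ i, ∑ j, c i j * pderiv i (pderiv j F) = 0 := by
      apply anti_sum
      intro i j
      rw [hc1 i j, pcomm i j F]
      ring
    rw [e1, e2, add_zero, Finset.sum_comm] at hdiv
    rw [← hdiv]
    refine Finset.sum_congr rfl fun j _ => ?_
    rw [hw, Finset.sum_mul]
  have hw2 : ∑ j, pderiv j (w j) = 0 := by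
    have e1 : ∀ j, pderiv j (w j) = ∑ i, pderiv j (pderiv i (c i j)) := by
      intro j
      rw [hw, map_sum]
    rw [Finset.sum_congr rfl fun j _ => e1 j]
    apply anti_sum
    intro i j
    rw [hc1 j i, map_neg, map_neg, pcomm i j]
  have hEF := eulerF hF
  have hE := eulerF (hF.pow m)
  have e3 : (C ((d * m : ℕ) : ℂ) : MvPolynomial (Fin n) ℂ) =
      C (d : ℂ) * (m : MvPolynomial (Fin n) ℂ) := by
    rw [Nat.cast_mul, C_mul, map_natCast C m]
  rw [e3] at hE
  set k : ℂ := ((n : ℂ) + (d : ℂ) * m)⁻¹ with hk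
  have hcc : (C k : MvPolynomial (Fin n) ℂ) * ((n : MvPolynomial (Fin n) ℂ) +
      C (d : ℂ) * (m : MvPolynomial (Fin n) ℂ)) = 1 := by
    have e4 : ((n : MvPolynomial (Fin n) ℂ) + C (d : ℂ) * (m : MvPolynomial (Fin n) ℂ)) =
        C ((n : ℂ) + (d : ℂ) * m) := by
      rw [C_add, C_mul, map_natCast C m, map_natCast C n]
    rw [e4, ← C_mul, hk, inv_mul_cancel₀ h00, C_1]
  refine ⟨fun j => C k * (F ^ m * X j - C (d : ℂ) * w j), ?_, ?_⟩
  · have e1 : ∑ j, C k * (F ^ m * X j - C (d : ℂ) * w j) * pderiv j F =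
        C k * (F ^ m * ∑ j, X j * pderiv j F - C (d : ℂ) * ∑ j, w j * pderiv j F) := by
      rw [Finset.mul_sum, Finset.mul_sum, ← Finset.sum_sub_distrib, Finset.mul_sum]
      refine Finset.sum_congr rfl fun i _ => ?_
      ring
    rw [e1, hEF, hw1]
    ring
  · have e1 : ∑ j, pderiv j (C k * (F ^ m * X j - C (d : ℂ) * w j)) =
        C k * ((n : MvPolynomial (Fin n) ℂ) * F ^ m + ∑ j, X j * pderiv j (F ^ m) -
          C (d : ℂ) * ∑ j, pderiv j (w j)) := by
      have e2 : (n : MvPolynomial (Fin n) ℂ) * F ^ m = ∑ _i : Fin n, F ^ m := by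
        rw [Finset.sum_const, Finset.card_univ, Fintype.card_fin, nsmul_eq_mul]
      rw [e2, ← Finset.sum_add_distrib, Finset.mul_sum, ← Finset.sum_sub_distrib,
        Finset.mul_sum]
      refine Finset.sum_congr rfl fun i _ => ?_
      rw [pderiv_C_mul, map_sub, pderiv_C_mul, pderiv_mul, pderiv_X_self]
      ring
    rw [e1, hE, hw2]
    linear_combination (F ^ m) * hcc

end YM

end MPb07157
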