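import Pool.Agent.Lib.MP_b07157_agYM.Defs

/-!
# Vector fields which kill a form, in a chart
-/

noncomputable section

namespace MPb07157

open MvPolynomial

namespace YM

open SI in
/-- The derivatives of the germ in the chart. -/
private theorem pderiv_gch {n : ℕ} (F : MvPolynomial (Fin (n + 1)) ℂ) (q : Fin (n + 1) → ℂ)
    (j₀ : Fin (n + 1)) (i : Fin n) :
    pderiv i (gch F q j₀) = gch (pderiv (j₀.succAbove i) F) q j₀ := by
  unfold gch
  induction F using MvPolynomial.induction_on with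
  | C a => simp
  | add p r hp hr => simp only [map_add, hp, hr]
  | mul_X p l hp =>
    rw [map_mul, aeval_X, Derivation.leibniz, hp, Derivation.leibniz, map_add, smul_eq_mul,
      smul_eq_mul, smul_eq_mul, smul_eq_mul, map_mul, map_mul, aeval_X]
    rcases Fin.eq_self_or_eq_succAbove j₀ l with rfl | ⟨m, rfl⟩
    · rw [Fin.insertNth_apply_same, pderiv_one, pderiv_X_of_ne (Fin.succAbove_ne _ _).symm]
      simp
    · rw [Fin.insertNth_apply_succAbove, map_add, pderiv_C, add_zero]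
      by_cases h : m = i
      · subst h
        rw [pderiv_X_self, pderiv_X_self, map_one]
      · rw [pderiv_X_of_ne h, pderiv_X_of_ne (fun hh => h (Fin.succAbove_right_injective hh))]
        simp

open SI in
private theorem gch_mul {n : ℕ} (F G : MvPolynomial (Fin (n + 1)) ℂ) (q : Fin (n + 1) → ℂ)
    (j₀ : Fin (n + 1)) : gch (F * G) q j₀ = gch F q j₀ * gch G q j₀ := by
  unfold gch
  exact map_mul _ _ _

open SI in
private theorem gch_add {n : ℕ} (F G : MvPolynomial (Fin (n + 1)) ℂ) (q : Fin (n + 1) → ℂ)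
    (j₀ : Fin (n + 1)) : gch (F + G) q j₀ = gch F q j₀ + gch G q j₀ := by
  unfold gch
  exact map_add _ _ _

open SI in
private theorem gch_zero {n : ℕ} (q : Fin (n + 1) → ℂ) (j₀ : Fin (n + 1)) :
    gch (0 : MvPolynomial (Fin (n + 1)) ℂ) q j₀ = 0 := by
  unfold gch
  exact map_zero _

open SI in
private theorem gch_pow {n : ℕ} (F : MvPolynomial (Fin (n + 1)) ℂ) (m : ℕ)
    (q : Fin (n + 1) → ℂ) (j₀ : Fin (n + 1)) :
    gch (F ^ m) q j₀ = gch F q j₀ ^ m := by
  unfold gch
  exact map_pow _ _ _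

open SI in
private theorem gch_sum {n : ℕ} {ι : Type*} (s : Finset ι)
    (F : ι → MvPolynomial (Fin (n + 1)) ℂ) (q : Fin (n + 1) → ℂ) (j₀ : Fin (n + 1)) :
    gch (∑ i ∈ s, F i) q j₀ = ∑ i ∈ s, gch (F i) q j₀ := by
  unfold gch
  exact map_sum _ _ _

open SI in
private theorem gch_X_same {n : ℕ} (q : Fin (n + 1) → ℂ) (j₀ : Fin (n + 1)) :
    gch (X j₀ : MvPolynomial (Fin (n + 1)) ℂ) q j₀ = 1 := by
  unfold gch
  rw [aeval_X, Fin.insertNth_apply_same]

open SI in
private theorem gch_X_succ {n : ℕ} (q : Fin (n + 1) → ℂ) (j₀ : Fin (n + 1)) (l : Fin n) :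
    gch (X (j₀.succAbove l) : MvPolynomial (Fin (n + 1)) ℂ) q j₀ =
      X l + C (q (j₀.succAbove l)) := by
  unfold gch
  rw [aeval_X, Fin.insertNth_apply_succAbove]

open SI in
private theorem gch_natCast {n : ℕ} (k : ℕ) (q : Fin (n + 1) → ℂ) (j₀ : Fin (n + 1)) :
    gch (k : MvPolynomial (Fin (n + 1)) ℂ) q j₀ = k := by
  unfold gch
  exact map_natCast _ _

open SI in
/-- Euler's formula in the chart. -/
private theorem euler_gch {n : ℕ} {F : MvPolynomial (Fin (n + 1)) ℂ} {d : ℕ}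
    (hF : F.IsHomogeneous d) (q : Fin (n + 1) → ℂ) (j₀ : Fin (n + 1)) :
    gch (pderiv j₀ F) q j₀ +
      ∑ l : Fin n, (X l + C (q (j₀.succAbove l))) * gch (pderiv (j₀.succAbove l) F) q j₀ =
      (d : MvPolynomial (Fin n) ℂ) * gch F q j₀ := by
  have h := hF.sum_X_mul_pderiv
  rw [Fin.sum_univ_succAbove _ j₀, nsmul_eq_mul] at h
  have h1 := congrArg (fun p => gch p q j₀) h
  simp only [gch_add, gch_sum, gch_mul, gch_X_same, gch_X_succ, gch_natCast, one_mul] at h1
  exact h1

open SI in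
/-- The equations in the chart. As `YN.chart_eqs` (`agYN/ChartA.lean`), in `n + 1` variables. -/
theorem chart_eqs {n : ℕ} {F : MvPolynomial (Fin (n + 1)) ℂ} {d m : ℕ} (hF : F.IsHomogeneous d)
    {v : Fin (n + 1) → MvPolynomial (Fin (n + 1)) ℂ}
    (hv : ∀ i, (v i).IsHomogeneous (d * m + 1))
    (hvF : ∑ i, v i * pderiv i F = 0) (hdiv : ∑ i, pderiv i (v i) = F ^ m)
    (q : Fin (n + 1) → ℂ) (j₀ : Fin (n + 1)) :
    (d : MvPolynomial (Fin n) ℂ) * gch (v j₀) q j₀ * gch F q j₀ +
        ∑ l : Fin n, (gch (v (j₀.succAbove l)) q j₀ -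
          (X l + C (q (j₀.succAbove l))) * gch (v j₀) q j₀) * pderiv l (gch F q j₀) = 0 ∧
      ((d * m + (n + 1) : ℕ) : MvPolynomial (Fin n) ℂ) * gch (v j₀) q j₀ +
        ∑ l : Fin n, pderiv l (gch (v (j₀.succAbove l)) q j₀ -
          (X l + C (q (j₀.succAbove l))) * gch (v j₀) q j₀) = gch F q j₀ ^ m := by
  have e1 := euler_gch hF q j₀
  have e2 := euler_gch (hv j₀) q j₀
  have e3 := congrArg (fun p => gch p q j₀) hvF
  have e4 := congrArg (fun p => gch p q j₀) hdiv
  rw [Fin.sum_univ_succAbove _ j₀] at e3 e4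
  simp only [gch_add, gch_sum, gch_mul, gch_zero, gch_pow] at e3 e4
  constructor
  · have h1 : ∀ l : Fin n, (gch (v (j₀.succAbove l)) q j₀ -
          (X l + C (q (j₀.succAbove l))) * gch (v j₀) q j₀) * pderiv l (gch F q j₀) =
        gch (v (j₀.succAbove l)) q j₀ * gch (pderiv (j₀.succAbove l) F) q j₀ -
          gch (v j₀) q j₀ *
            ((X l + C (q (j₀.succAbove l))) * gch (pderiv (j₀.succAbove l) F) q j₀) := by
      intro l
      rw [pderiv_gch]
      ring
    rw [Finset.sum_congr rfl fun l _ => h1 l, Finset.sum_sub_distrib, ← Finset.mul_sum]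
    linear_combination e3 - gch (v j₀) q j₀ * e1
  · have h1 : ∀ l : Fin n, pderiv l (gch (v (j₀.succAbove l)) q j₀ -
        (X l + C (q (j₀.succAbove l))) * gch (v j₀) q j₀) =
        gch (pderiv (j₀.succAbove l) (v (j₀.succAbove l))) q j₀ - gch (v j₀) q j₀ -
        (X l + C (q (j₀.succAbove l))) * gch (pderiv (j₀.succAbove l) (v j₀)) q j₀ := by
      intro l
      rw [map_sub, Derivation.leibniz, map_add, pderiv_X_self, pderiv_C, pderiv_gch, pderiv_gch,
        smul_eq_mul, smul_eq_mul]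
      ring
    rw [Finset.sum_congr rfl fun l _ => h1 l, Finset.sum_sub_distrib, Finset.sum_sub_distrib,
      Finset.sum_const, Finset.card_univ, Fintype.card_fin, nsmul_eq_mul]
    push_cast at e2 ⊢
    linear_combination e4 - e2

end YM

end MPb07157
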