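import Pool.Agent.Lib.MP_b07157_agYN.Krull

/-!
# Relations with power series coefficients, modules
-/

noncomputable section

namespace MPb07157

open MvPolynomial

namespace YM

/-- If the tuple `α` is a combination of the tuples `g_i` with power series coefficients, then
`s α` is a combination with polynomial coefficients, `s(0) ≠ 0`. As `YN.exists_local`
(`agYN/Krull.lean`), for the module `ℂ[x]^l / (g_1, …, g_k)`. -/
theorem exists_local_mod {n k l : ℕ} (g : Fin k → Fin l → MvPolynomial (Fin n) ℂ)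
    (α : Fin l → MvPolynomial (Fin n) ℂ) (c : Fin k → MvPowerSeries (Fin n) ℂ)
    (h : ∀ r, (α r : MvPowerSeries (Fin n) ℂ) = ∑ i, c i * (g i r : MvPowerSeries (Fin n) ℂ)) :
    ∃ (s : MvPolynomial (Fin n) ℂ) (b : Fin k → MvPolynomial (Fin n) ℂ),
      constantCoeff s ≠ 0 ∧ ∀ r, s * α r = ∑ i, b i * g i r := by
  classical
  let m : Ideal (MvPolynomial (Fin n) ℂ) := idealOfVars (Fin n) ℂ
  let I : Submodule (MvPolynomial (Fin n) ℂ) (Fin l → MvPolynomial (Fin n) ℂ) :=
    Submodule.span _ (Set.range g)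
  have hx : (Submodule.Quotient.mk α : (Fin l → MvPolynomial (Fin n) ℂ) ⧸ I) ∈
      (⨅ i : ℕ, m ^ i • ⊤ : Submodule (MvPolynomial (Fin n) ℂ)
        ((Fin l → MvPolynomial (Fin n) ℂ) ⧸ I)) := by
    rw [Submodule.mem_iInf]
    intro N
    have h3 : ∑ i, MvPowerSeries.truncTotal N (c i) • g i ∈ I :=
      Submodule.sum_mem _ fun i _ => Submodule.smul_mem _ _ (Submodule.subset_span ⟨i, rfl⟩)
    have h4 : (Submodule.Quotient.mk α : (Fin l → MvPolynomial (Fin n) ℂ) ⧸ I) =
        ∑ r, (α r - ∑ i, MvPowerSeries.truncTotal N (c i) * g i r) •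
          (Submodule.Quotient.mk (Pi.single r (1 : MvPolynomial (Fin n) ℂ)) :
            (Fin l → MvPolynomial (Fin n) ℂ) ⧸ I) := by
      have h5 : α = (∑ r, (α r - ∑ i, MvPowerSeries.truncTotal N (c i) * g i r) •
          (Pi.single r (1 : MvPolynomial (Fin n) ℂ) : Fin l → MvPolynomial (Fin n) ℂ)) +
            ∑ i, MvPowerSeries.truncTotal N (c i) • g i := by
        funext q
        rw [Pi.add_apply, Finset.sum_apply, Finset.sum_apply,
          Finset.sum_eq_single q (fun r _ hr => by
            rw [Pi.smul_apply, Pi.single_eq_of_ne (Ne.symm hr), smul_zero])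
            (fun h => absurd (Finset.mem_univ q) h)]
        rw [Pi.smul_apply, Pi.single_eq_same, smul_eq_mul, mul_one]
        simp only [Pi.smul_apply, smul_eq_mul]
        ring
      conv_lhs => rw [h5]
      rw [Submodule.Quotient.mk_add, (Submodule.Quotient.mk_eq_zero I).2 h3, add_zero]
      rw [← Submodule.mkQ_apply, map_sum]
      exact Finset.sum_congr rfl fun r _ => by rw [map_smul, Submodule.mkQ_apply]
    rw [h4]
    exact Submodule.sum_mem _ fun r _ => Submodule.smul_mem_smul
      (YN.exists_trunc (fun i => g i r) (α r) c (h r) N) Submodule.mem_top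
  obtain ⟨r, hr⟩ := (Ideal.mem_iInf_smul_pow_eq_bot_iff m _).1 hx
  have h6 : (1 - (r : MvPolynomial (Fin n) ℂ)) • α ∈ I := by
    rw [← Submodule.Quotient.mk_smul, eq_comm, ← sub_eq_zero, ← Submodule.Quotient.mk_sub,
      Submodule.Quotient.mk_eq_zero] at hr
    rw [sub_smul, one_smul]
    exact hr
  obtain ⟨b, hb⟩ := (Submodule.mem_span_range_iff_exists_fun _).1 h6
  refine ⟨1 - (r : MvPolynomial (Fin n) ℂ), b, ?_, fun q => ?_⟩
  · have h8 : constantCoeff (r : MvPolynomial (Fin n) ℂ) = 0 := by
      have hle : m ≤ RingHom.ker (constantCoeff (σ := Fin n) (R := ℂ)) := by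
        refine Ideal.span_le.2 ?_
        rintro _ ⟨i, rfl⟩
        simp [RingHom.mem_ker]
      exact hle r.2
    rw [map_sub, map_one, h8, sub_zero]
    exact one_ne_zero
  · have h9 := congrFun hb q
    rw [Finset.sum_apply] at h9
    simp only [Pi.smul_apply, smul_eq_mul] at h9
    exact h9.symm

end YM

end MPb07157
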