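import Pool.Agent.Lib.MP_b07157_agYM.KosP
import Pool.Agent.Lib.MP_b07157_agYM.KrullM
import Pool.Agent.Lib.MP_b07157_agYN.Krull
import Pool.Agent.Lib.MP_b07157_agYL.FormLY

/-!
# Koszul relations near a point
-/

noncomputable section

namespace MPb07157

open MvPolynomial

namespace YM

namespace ChBaux

open SI

theorem IsKos.add {R : Type*} [CommRing R] {n : ℕ} {y v w : Fin n → R} (hv : IsKos y v)
    (hw : IsKos y w) : IsKos y fun i => v i + w i := by
  obtain ⟨c, h1, h2, h3⟩ := hv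
  obtain ⟨c', h1', h2', h3'⟩ := hw
  refine ⟨fun i j => c i j + c' i j, fun i j => ?_, fun i => ?_, fun i => ?_⟩
  · show c i j + c' i j = -(c j i + c' j i)
    rw [h1 i j, h1' i j]; ring
  · show c i i + c' i i = 0
    rw [h2 i, h2' i, add_zero]
  · show v i + w i = ∑ j, (c i j + c' i j) * y j
    rw [h3 i, h3' i, ← Finset.sum_add_distrib]
    exact Finset.sum_congr rfl fun j _ => by ring

theorem IsKos.mul {R : Type*} [CommRing R] {n : ℕ} {y v : Fin n → R} (s : R) (hv : IsKos y v) :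
    IsKos y fun i => s * v i := by
  obtain ⟨c, h1, h2, h3⟩ := hv
  refine ⟨fun i j => s * c i j, fun i j => ?_, fun i => ?_, fun i => ?_⟩
  · show s * c i j = -(s * c j i)
    rw [h1 i j]; ring
  · show s * c i i = 0
    rw [h2 i, mul_zero]
  · show s * v i = ∑ j, s * c i j * y j
    rw [h3 i, Finset.mul_sum]
    exact Finset.sum_congr rfl fun j _ => by ring

/-- A Koszul tuple is orthogonal to `y`. -/
theorem IsKos.orth {R : Type*} [CommRing R] {n : ℕ} {y v : Fin n → R} (hv : IsKos y v)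
    (h2' : ∀ a : R, a + a = 0 → a = 0) : ∑ i, v i * y i = 0 := by
  obtain ⟨c, h1, h2, h3⟩ := hv
  have e1 : ∑ i, v i * y i = ∑ i, ∑ j, c i j * y j * y i := by
    refine Finset.sum_congr rfl fun i _ => ?_
    rw [h3 i, Finset.sum_mul]
  have e2 : ∑ i, ∑ j, c i j * y j * y i = ∑ i, ∑ j, -(c i j * y j * y i) := by
    rw [Finset.sum_comm]
    refine Finset.sum_congr rfl fun i _ => Finset.sum_congr rfl fun j _ => ?_
    rw [h1 j i]; ring
  refine h2' _ ?_
  rw [e1]
  have e3 : (∑ i, ∑ j, c i j * y j * y i) + ∑ i, ∑ j, c i j * y j * y i =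
      (∑ i, ∑ j, c i j * y j * y i) + ∑ i, ∑ j, -(c i j * y j * y i) := by
    rw [← e2]
  rw [e3, ← Finset.sum_add_distrib]
  refine Finset.sum_eq_zero fun i _ => ?_
  rw [← Finset.sum_add_distrib]
  exact Finset.sum_eq_zero fun j _ => add_neg_cancel _

/-- The derivatives of the germ in the chart. -/
theorem pderiv_gch {n : ℕ} (F : MvPolynomial (Fin (n + 1)) ℂ) (q : Fin (n + 1) → ℂ)
    (j₀ : Fin (n + 1)) (i : Fin n) :
    pderiv i (gch F q j₀) = gch (pderiv (j₀.succAbove i) F) q j₀ := by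
  unfold gch
  induction F using MvPolynomial.induction_on with
  | C a => simp
  | add p r hp hr => simp only [map_add, hp, hr]
  | mul_X p l hp =>
    rw [map_mul, aeval_X, Derivation.leibniz, hp, Derivation.leibniz, map_add, smul_eq_mul,
      smul_eq_mul, smul_eq_mul, smul_eq_mul, map_mul, map_mul, aeval_X]
    rcases Fin.eq_self_or_eq_succAbove j₀ l with rfl | ⟨m, rfl⟩
    · rw [Fin.insertNth_apply_same, pderiv_one, pderiv_X_of_ne (Fin.succAbove_ne _ _).symm]
      simp
    · rw [Fin.insertNth_apply_succAbove, map_add, pderiv_C, add_zero]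
      by_cases h : m = i
      · subst h
        rw [pderiv_X_self, pderiv_X_self, map_one]
      · rw [pderiv_X_of_ne h, pderiv_X_of_ne (fun hh => h (Fin.succAbove_right_injective hh))]
        simp

/-- The chart as an algebra homomorphism. -/
def ph {n : ℕ} (q : Fin (n + 1) → ℂ) (j₀ : Fin (n + 1)) :
    MvPolynomial (Fin (n + 1)) ℂ →ₐ[ℂ] MvPolynomial (Fin n) ℂ :=
  aeval (j₀.insertNth (α := fun _ => MvPolynomial (Fin n) ℂ) 1
    fun i => X i + C (q (j₀.succAbove i)))

theorem ph_apply {n : ℕ} (q : Fin (n + 1) → ℂ) (j₀ : Fin (n + 1))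
    (F : MvPolynomial (Fin (n + 1)) ℂ) : ph q j₀ F = gch F q j₀ := rfl

/-- The inverse of the chart. -/
def psi {n : ℕ} (q : Fin (n + 1) → ℂ) (j₀ : Fin (n + 1)) :
    MvPolynomial (Fin n) ℂ →ₐ[ℂ] MvPolynomial (Fin (n + 1)) ℂ :=
  aeval fun l => X (j₀.succAbove l) - C (q (j₀.succAbove l)) * X j₀

theorem psi_homog {n : ℕ} (q : Fin (n + 1) → ℂ) (j₀ : Fin (n + 1)) {p : MvPolynomial (Fin n) ℂ}
    {k : ℕ} (hp : p.IsHomogeneous k) : (psi q j₀ p).IsHomogeneous k := by
  have h := hp.aeval (S := ℂ) (fun l : Fin n => (X (j₀.succAbove l) - C (q (j₀.succAbove l)) *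
    X j₀ : MvPolynomial (Fin (n + 1)) ℂ)) (n := 1) fun l => ?_
  · rw [one_mul] at h
    exact h
  · refine (isHomogeneous_X _ _).sub ?_
    have h2 := (isHomogeneous_C (Fin (n + 1)) (q (j₀.succAbove l))).mul (isHomogeneous_X ℂ j₀)
    rwa [zero_add] at h2

theorem ph_psi {n : ℕ} (q : Fin (n + 1) → ℂ) (j₀ : Fin (n + 1)) (p : MvPolynomial (Fin n) ℂ) :
    ph q j₀ (psi q j₀ p) = p := by
  have h : (ph q j₀).comp (psi q j₀) = AlgHom.id ℂ _ := by
    apply algHom_ext
    intro l
    rw [AlgHom.comp_apply, AlgHom.id_apply]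
    unfold psi ph
    rw [aeval_X, map_sub, map_mul, aeval_X, aeval_X, Fin.insertNth_apply_succAbove,
      Fin.insertNth_apply_same, mul_one, MvPolynomial.aeval_C, MvPolynomial.algebraMap_eq,
      add_sub_cancel_right]
  exact congrArg (fun φ : MvPolynomial (Fin n) ℂ →ₐ[ℂ] MvPolynomial (Fin n) ℂ => φ p) h

/-- The homogenization of degree `N`. -/
def Hz {n : ℕ} (q : Fin (n + 1) → ℂ) (j₀ : Fin (n + 1)) (N : ℕ) (p : MvPolynomial (Fin n) ℂ) :
    MvPolynomial (Fin (n + 1)) ℂ :=
  ∑ k ∈ Finset.range (N + 1), psi q j₀ (homogeneousComponent k p) * X j₀ ^ (N - k)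

theorem Hz_homog {n : ℕ} (q : Fin (n + 1) → ℂ) (j₀ : Fin (n + 1)) (N : ℕ)
    (p : MvPolynomial (Fin n) ℂ) : (Hz q j₀ N p).IsHomogeneous N := by
  unfold Hz
  refine IsHomogeneous.sum _ _ _ fun k hk => ?_
  rw [Finset.mem_range] at hk
  have h := (psi_homog q j₀ (homogeneousComponent_isHomogeneous k p)).mul
    ((isHomogeneous_X ℂ j₀).pow (N - k))
  rwa [one_mul, show k + (N - k) = N by omega] at h

theorem ph_Hz {n : ℕ} (q : Fin (n + 1) → ℂ) (j₀ : Fin (n + 1)) {N : ℕ}
    {p : MvPolynomial (Fin n) ℂ} (hN : p.totalDegree ≤ N) : ph q j₀ (Hz q j₀ N p) = p := by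
  have h0 : ph q j₀ (X j₀) = 1 := by
    unfold ph
    rw [aeval_X, Fin.insertNth_apply_same]
  unfold Hz
  rw [map_sum]
  have h1 : ∀ k ∈ Finset.range (N + 1), ph q j₀ (psi q j₀ (homogeneousComponent k p) *
      X j₀ ^ (N - k)) = homogeneousComponent k p := by
    intro k _
    rw [map_mul, map_pow, h0, one_pow, mul_one, ph_psi]
  rw [Finset.sum_congr rfl h1]
  conv_rhs => rw [← sum_homogeneousComponent p]
  refine (Finset.sum_subset (Finset.range_mono (by omega)) fun j _ hj => ?_).symm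
  rw [Finset.mem_range, not_lt] at hj
  exact homogeneousComponent_eq_zero _ _ (by omega)

theorem Hz_neg {n : ℕ} (q : Fin (n + 1) → ℂ) (j₀ : Fin (n + 1)) (N : ℕ)
    (p : MvPolynomial (Fin n) ℂ) : Hz q j₀ N (-p) = -Hz q j₀ N p := by
  unfold Hz
  rw [← Finset.sum_neg_distrib]
  refine Finset.sum_congr rfl fun k _ => ?_
  rw [map_neg, map_neg, neg_mul]

theorem Hz_zero {n : ℕ} (q : Fin (n + 1) → ℂ) (j₀ : Fin (n + 1)) (N : ℕ) :
    Hz q j₀ N 0 = 0 := by
  unfold Hz
  refine Finset.sum_eq_zero fun k _ => ?_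
  rw [map_zero, map_zero, zero_mul]

/-- Values in the chart. -/
theorem eval_ph {n : ℕ} (q : Fin (n + 1) → ℂ) (j₀ : Fin (n + 1)) (y : Fin n → ℂ)
    (P : MvPolynomial (Fin (n + 1)) ℂ) : eval y (ph q j₀ P) =
      aeval (j₀.insertNth (α := fun _ => ℂ) 1 fun i => y i + q (j₀.succAbove i)) P := by
  have h : (aeval y : MvPolynomial (Fin n) ℂ →ₐ[ℂ] ℂ).comp (ph q j₀) =
      aeval (j₀.insertNth (α := fun _ => ℂ) 1 fun i => y i + q (j₀.succAbove i)) := by
    apply algHom_ext
    intro i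
    rw [AlgHom.comp_apply, aeval_X]
    unfold ph
    rw [aeval_X]
    rcases Fin.eq_self_or_eq_succAbove j₀ i with rfl | ⟨l, rfl⟩
    · rw [Fin.insertNth_apply_same, Fin.insertNth_apply_same, map_one]
    · rw [Fin.insertNth_apply_succAbove, Fin.insertNth_apply_succAbove, map_add, aeval_X, aeval_C]
      rfl
  have h2 := congrArg (fun φ : MvPolynomial (Fin (n + 1)) ℂ →ₐ[ℂ] ℂ => φ P) h
  exact h2

/-- The value at the centre of the chart. -/
theorem eval_center {n : ℕ} {q : Fin (n + 1) → ℂ} {j₀ : Fin (n + 1)} (hq : q j₀ = 1)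
    (P : MvPolynomial (Fin (n + 1)) ℂ) : eval q P = constantCoeff (ph q j₀ P) := by
  rw [← eval_zero, eval_ph]
  have h : (j₀.insertNth (α := fun _ => ℂ) 1 fun i => (0 : Fin n → ℂ) i + q (j₀.succAbove i)) =
      q := by
    funext i
    rcases Fin.eq_self_or_eq_succAbove j₀ i with rfl | ⟨l, rfl⟩
    · rw [Fin.insertNth_apply_same, hq]
    · rw [Fin.insertNth_apply_succAbove, Pi.zero_apply, zero_add]
  rw [h]
  rfl

/-- A form is determined by its germ in the chart. -/
theorem eq_zero_of_ph {n : ℕ} {q : Fin (n + 1) → ℂ} {j₀ : Fin (n + 1)} {N : ℕ}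
    {P : MvPolynomial (Fin (n + 1)) ℂ} (hP : P.IsHomogeneous N) (h : ph q j₀ P = 0) : P = 0 := by
  have h1 : (X j₀ : MvPolynomial (Fin (n + 1)) ℂ) * P = 0 := by
    refine MvPolynomial.funext fun x => ?_
    rw [map_zero, map_mul, eval_X]
    by_cases hx : x j₀ = 0
    · rw [hx, zero_mul]
    · have h2 := eval_ph q j₀ (fun l => x (j₀.succAbove l) / x j₀ - q (j₀.succAbove l)) P
      rw [h, map_zero] at h2
      have h3 : x = fun i => x j₀ * (j₀.insertNth (α := fun _ => ℂ) 1 fun l =>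
          (x (j₀.succAbove l) / x j₀ - q (j₀.succAbove l)) + q (j₀.succAbove l)) i := by
        funext i
        rcases Fin.eq_self_or_eq_succAbove j₀ i with rfl | ⟨l, rfl⟩
        · rw [Fin.insertNth_apply_same, mul_one]
        · rw [Fin.insertNth_apply_succAbove, sub_add_cancel, mul_div_cancel₀ _ hx]
      have h4 := YL.aeval_mul_form hP (x j₀) (j₀.insertNth (α := fun _ => ℂ) 1 fun l =>
          (x (j₀.succAbove l) / x j₀ - q (j₀.succAbove l)) + q (j₀.succAbove l))
      rw [← h3, ← h2, mul_zero] at h4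
      have h5 : eval x P = 0 := h4
      rw [h5, mul_zero]
  rcases mul_eq_zero.1 h1 with h2 | h2
  · exact absurd h2 (X_ne_zero j₀)
  · exact h2

/-- The first reduction: a multiple of `v` with a given `j₀` component. -/
theorem kos_first {R : Type*} [CommRing R] {n : ℕ} (y : Fin (n + 1) → R) (j₀ : Fin (n + 1))
    (B : Fin n → R) : IsKos y (j₀.insertNth (α := fun _ => R) (∑ l, B l * y (j₀.succAbove l))
      fun l => -(B l) * y j₀) := by
  classical
  refine ⟨j₀.insertNth (α := fun _ => Fin (n + 1) → R)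
    (j₀.insertNth (α := fun _ => R) 0 B)
    (fun l => j₀.insertNth (α := fun _ => R) (-(B l)) (fun _ => 0)), ?_, ?_, ?_⟩
  · intro i j
    refine Fin.succAboveCases j₀ ?_ (fun l => ?_) i <;>
      refine Fin.succAboveCases j₀ ?_ (fun m => ?_) j <;>
      simp
  · intro i
    refine Fin.succAboveCases j₀ ?_ (fun l => ?_) i <;> simp
  · intro i
    refine Fin.succAboveCases j₀ ?_ (fun l => ?_) i
    · rw [Fin.sum_univ_succAbove _ j₀]
      simp
    · rw [Fin.sum_univ_succAbove _ j₀]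
      simp

/-- Koszul relations between the last elements. -/
theorem kos_last {R : Type*} [CommRing R] {n : ℕ} (y : Fin (n + 1) → R) (j₀ : Fin (n + 1))
    {u : Fin n → R} (hu : IsKos (fun l => y (j₀.succAbove l)) u) :
    IsKos y (j₀.insertNth (α := fun _ => R) 0 u) := by
  classical
  obtain ⟨c, h1, h2, h3⟩ := hu
  refine ⟨j₀.insertNth (α := fun _ => Fin (n + 1) → R) (fun _ => 0)
    (fun l => j₀.insertNth (α := fun _ => R) 0 (c l)), ?_, ?_, ?_⟩
  · intro i j
    refine Fin.succAboveCases j₀ ?_ (fun l => ?_) i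
    · refine Fin.succAboveCases j₀ ?_ (fun m => ?_) j <;> simp
    · refine Fin.succAboveCases j₀ ?_ (fun m => ?_) j
      · simp
      · simp [← h1 l m]
  · intro i
    refine Fin.succAboveCases j₀ ?_ (fun l => ?_) i <;> simp [h2]
  · intro i
    refine Fin.succAboveCases j₀ ?_ (fun l => ?_) i
    · rw [Fin.sum_univ_succAbove _ j₀]
      simp
    · rw [Fin.sum_univ_succAbove _ j₀]
      simp [h3 l]

/-- Koszul relations with power series coefficients are Koszul relations with polynomial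
coefficients, after multiplication by `s`. -/
theorem kos_local {n : ℕ} (G : Fin n → MvPolynomial (Fin n) ℂ)
    (α : Fin n → MvPolynomial (Fin n) ℂ)
    (h : IsKos (fun l => (G l : MvPowerSeries (Fin n) ℂ))
      fun l => (α l : MvPowerSeries (Fin n) ℂ)) :
    ∃ s : MvPolynomial (Fin n) ℂ, constantCoeff s ≠ 0 ∧ IsKos G fun l => s * α l := by
  classical
  obtain ⟨c, h1, h2, h3⟩ := h
  let e : Fin n × Fin n ≃ Fin (n * n) := finProdFinEquiv
  let g : Fin (n * n) → Fin n → MvPolynomial (Fin n) ℂ := fun k r =>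
    (if r = (e.symm k).1 then G (e.symm k).2 else 0) -
      (if r = (e.symm k).2 then G (e.symm k).1 else 0)
  have hhalf : (algebraMap ℂ (MvPowerSeries (Fin n) ℂ) (1 / 2)) +
      (algebraMap ℂ (MvPowerSeries (Fin n) ℂ) (1 / 2)) = 1 := by
    rw [← map_add, ← map_one (algebraMap ℂ (MvPowerSeries (Fin n) ℂ))]
    congr 1
    norm_num
  have key : ∀ {A : Type} [CommRing A] (ι : MvPolynomial (Fin n) ℂ →+* A)
      (b : Fin (n * n) → A) (r : Fin n), ∑ k, b k * ι (g k r) =
      ∑ m, b (e (r, m)) * ι (G m) - ∑ m, b (e (m, r)) * ι (G m) := by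
    intro A _ ι b r
    rw [← e.sum_comp, Fintype.sum_prod_type]
    simp only [g, Equiv.symm_apply_apply, map_sub, mul_sub, Finset.sum_sub_distrib]
    congr 1
    · rw [Finset.sum_eq_single r]
      · simp
      · intro l _ hl
        refine Finset.sum_eq_zero fun m _ => ?_
        rw [if_neg (fun h => hl h.symm), map_zero, mul_zero]
      · intro h
        exact absurd (Finset.mem_univ _) h
    · refine Finset.sum_congr rfl fun l _ => ?_
      rw [Finset.sum_eq_single r]
      · simp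
      · intro m _ hm
        rw [if_neg (fun h => hm h.symm), map_zero, mul_zero]
      · intro h
        exact absurd (Finset.mem_univ _) h
  obtain ⟨s, b, hs, hb⟩ := exists_local_mod g α
    (fun k => algebraMap ℂ (MvPowerSeries (Fin n) ℂ) (1 / 2) * c (e.symm k).1 (e.symm k).2) (by
      intro r
      have h4 := key (A := MvPowerSeries (Fin n) ℂ)
        (MvPolynomial.coeToMvPowerSeries.ringHom (R := ℂ) (σ := Fin n))
        (fun k => algebraMap ℂ (MvPowerSeries (Fin n) ℂ) (1 / 2) *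
          c (e.symm k).1 (e.symm k).2) r
      simp only [MvPolynomial.coeToMvPowerSeries.ringHom_apply, Equiv.symm_apply_apply] at h4
      rw [h4]
      have h5 : (α r : MvPowerSeries (Fin n) ℂ) = ∑ m, c r m * (G m : MvPowerSeries (Fin n) ℂ) :=
        h3 r
      rw [h5, ← Finset.sum_sub_distrib]
      refine Finset.sum_congr rfl fun m _ => ?_
      rw [h1 m r]
      calc c r m * (G m : MvPowerSeries (Fin n) ℂ) = 1 * (c r m * (G m : MvPowerSeries _ ℂ)) := by
            rw [one_mul]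
        _ = _ := by rw [← hhalf]; ring)
  refine ⟨s, hs, fun i j => b (e (i, j)) - b (e (j, i)), fun i j => by ring, fun i => by ring,
    fun r => ?_⟩
  have h4 := key (RingHom.id (MvPolynomial (Fin n) ℂ)) b r
  simp only [RingHom.id_apply] at h4
  show s * α r = _
  rw [hb r, h4, ← Finset.sum_sub_distrib]
  exact Finset.sum_congr rfl fun m _ => by ring

/-- Homogenization of a Koszul relation. -/
theorem kos_homog {n : ℕ} {q : Fin (n + 1) → ℂ} {j₀ : Fin (n + 1)} {d : ℕ}
    {y : Fin n → MvPolynomial (Fin (n + 1)) ℂ} (hy : ∀ l, (y l).IsHomogeneous (d - 1))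
    {w : Fin n → MvPolynomial (Fin (n + 1)) ℂ} {δ : ℕ} (hw : ∀ l, (w l).IsHomogeneous δ)
    {s : MvPolynomial (Fin n) ℂ}
    (h : IsKos (fun l => ph q j₀ (y l)) fun l => s * ph q j₀ (w l)) :
    ∃ N : ℕ, s.totalDegree ≤ N ∧ IsKos y fun l => Hz q j₀ N s * w l := by
  obtain ⟨c, h1, h2, h3⟩ := h
  set M : ℕ := s.totalDegree + ∑ i, ∑ j, (c i j).totalDegree + δ with hM
  have hMc : ∀ i j, (c i j).totalDegree ≤ M := by
    intro i j
    have e1 : (c i j).totalDegree ≤ ∑ j, (c i j).totalDegree :=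
      Finset.single_le_sum (f := fun j => (c i j).totalDegree) (fun _ _ => Nat.zero_le _)
        (Finset.mem_univ j)
    have e2 : ∑ j, (c i j).totalDegree ≤ ∑ i, ∑ j, (c i j).totalDegree :=
      Finset.single_le_sum (f := fun i => ∑ j, (c i j).totalDegree) (fun _ _ => Nat.zero_le _)
        (Finset.mem_univ i)
    omega
  refine ⟨M + (d - 1) - δ, by omega, fun i j => Hz q j₀ M (c i j), fun i j => ?_, fun i => ?_,
    fun i => ?_⟩
  · show Hz q j₀ M (c i j) = -Hz q j₀ M (c j i)
    rw [h1 i j, Hz_neg]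
  · show Hz q j₀ M (c i i) = 0
    rw [h2 i, Hz_zero]
  · have h5 : Hz q j₀ (M + (d - 1) - δ) s * w i - ∑ j, Hz q j₀ M (c i j) * y j = 0 := by
      refine eq_zero_of_ph (q := q) (j₀ := j₀) (N := M + (d - 1)) ?_ ?_
      · refine IsHomogeneous.sub ?_ ?_
        · have h6 := (Hz_homog q j₀ (M + (d - 1) - δ) s).mul (hw i)
          rwa [show M + (d - 1) - δ + δ = M + (d - 1) by omega] at h6
        · exact IsHomogeneous.sum _ _ _ fun j _ => (Hz_homog q j₀ M (c i j)).mul (hy j)
      · have h7 : s * ph q j₀ (w i) = ∑ j, c i j * ph q j₀ (y j) := h3 i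
        rw [map_sub, map_mul, ph_Hz _ _ (by omega), map_sum, h7, sub_eq_zero]
        refine Finset.sum_congr rfl fun j _ => ?_
        rw [map_mul, ph_Hz _ _ (hMc i j)]
    exact sub_eq_zero.1 h5

end ChBaux

open ChBaux in
open SI in
/-- If `v_{j₀}` belongs to the ideal of the other partial derivatives near `q`, then `v` is Koszul
near `q`: `s gch(v_{j₀}) = ∑ b_l ∂_l gch(F)` (`YN.exists_local`); homogenize; subtract a Koszul
relation from `S v`, so that `v_{j₀} = 0`; the remaining relation between the `∂_l gch(F)` is Koszul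
with power series coefficients (`koszul_of_powers_ps`), so with polynomial coefficients after
multiplication by `s` (`exists_local_mod`); homogenize again. -/
theorem local_kos {n : ℕ} {F : MvPolynomial (Fin (n + 1)) ℂ} {d : ℕ} (hd : 1 ≤ d)
    (hF : F.IsHomogeneous d) {δ : ℕ} {v : Fin (n + 1) → MvPolynomial (Fin (n + 1)) ℂ}
    (hv : ∀ i, (v i).IsHomogeneous δ) (hvF : ∑ i, v i * pderiv i F = 0)
    {q : Fin (n + 1) → ℂ} {j₀ : Fin (n + 1)} (hq : q j₀ = 1)
    (hN : ∃ N : ℕ, ∀ i, (MvPowerSeries.X i : MvPowerSeries (Fin n) ℂ) ^ N ∈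
      JI (gch F q j₀ : MvPowerSeries (Fin n) ℂ))
    (hc : (gch (v j₀) q j₀ : MvPowerSeries (Fin n) ℂ) ∈
      JI (gch F q j₀ : MvPowerSeries (Fin n) ℂ)) :
    ∃ (S : MvPolynomial (Fin (n + 1)) ℂ) (l : ℕ), S.IsHomogeneous l ∧ eval q S ≠ 0 ∧
      IsKos (fun i => pderiv i F) fun i => S * v i := by
  classical
  obtain ⟨N, hN⟩ := hN
  have hpF : ∀ i, (pderiv i F).IsHomogeneous (d - 1) := fun i => hF.pderiv
  have hder : ∀ l : Fin n, MvPowerSeries.pderiv ℂ l (gch F q j₀ : MvPowerSeries (Fin n) ℂ) =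
      ((ph q j₀ (pderiv (j₀.succAbove l) F) : MvPolynomial (Fin n) ℂ) :
        MvPowerSeries (Fin n) ℂ) := by
    intro l
    rw [MvPowerSeries.pderiv_coe, pderiv_gch]
    rfl
  -- first step
  obtain ⟨c, hc1⟩ := Ideal.mem_span_range_iff_exists_fun.1 hc
  simp only [hder] at hc1
  obtain ⟨s, b, hs, hb⟩ := YN.exists_local (fun l => ph q j₀ (pderiv (j₀.succAbove l) F))
    (gch (v j₀) q j₀) c hc1.symm
  set M : ℕ := s.totalDegree + ∑ l, (b l).totalDegree + δ with hM
  have hMb : ∀ l, (b l).totalDegree ≤ M := by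
    intro l
    have e1 : (b l).totalDegree ≤ ∑ l, (b l).totalDegree :=
      Finset.single_le_sum (f := fun l => (b l).totalDegree) (fun _ _ => Nat.zero_le _)
        (Finset.mem_univ l)
    omega
  set K : ℕ := M + (d - 1) - δ with hK
  have hSv : Hz q j₀ K s * v j₀ = ∑ l, Hz q j₀ M (b l) * pderiv (j₀.succAbove l) F := by
    rw [← sub_eq_zero]
    refine eq_zero_of_ph (q := q) (j₀ := j₀) (N := M + (d - 1)) ?_ ?_
    · refine IsHomogeneous.sub ?_ ?_
      · have h6 := (Hz_homog q j₀ K s).mul (hv j₀)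
        rwa [show K + δ = M + (d - 1) by omega] at h6
      · exact IsHomogeneous.sum _ _ _ fun j _ => (Hz_homog q j₀ M (b j)).mul (hpF _)
    · rw [map_sub, map_mul, ph_Hz _ _ (by omega), map_sum, sub_eq_zero, ph_apply, hb]
      refine Finset.sum_congr rfl fun j _ => ?_
      rw [map_mul, ph_Hz _ _ (hMb j)]
  set k : Fin (n + 1) → MvPolynomial (Fin (n + 1)) ℂ :=
    j₀.insertNth (α := fun _ => MvPolynomial (Fin (n + 1)) ℂ)
      (∑ l, Hz q j₀ M (b l) * pderiv (j₀.succAbove l) F)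
      (fun l => -(Hz q j₀ M (b l)) * pderiv j₀ F) with hk
  have hkk : IsKos (fun i => pderiv i F) k := kos_first (fun i => pderiv i F) j₀ _
  have hk0 : k j₀ = Hz q j₀ K s * v j₀ := by
    rw [hSv, hk, Fin.insertNth_apply_same]
  have hkl : ∀ l, (k (j₀.succAbove l)).IsHomogeneous (M + (d - 1)) := by
    intro l
    rw [hk, Fin.insertNth_apply_succAbove]
    exact (Hz_homog q j₀ M (b l)).neg.mul (hpF _)
  -- the remaining part
  set w : Fin n → MvPolynomial (Fin (n + 1)) ℂ := fun l =>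
    Hz q j₀ K s * v (j₀.succAbove l) - k (j₀.succAbove l) with hw
  have hwh : ∀ l, (w l).IsHomogeneous (M + (d - 1)) := by
    intro l
    refine IsHomogeneous.sub ?_ (hkl l)
    have h6 := (Hz_homog q j₀ K s).mul (hv (j₀.succAbove l))
    rwa [show K + δ = M + (d - 1) by omega] at h6
  have horth : ∑ l, w l * pderiv (j₀.succAbove l) F = 0 := by
    have h1 := IsKos.orth hkk (fun a ha => by
      have h2 : (2 : MvPolynomial (Fin (n + 1)) ℂ) * a = 0 := by rw [two_mul]; exact ha
      rcases mul_eq_zero.1 h2 with h3 | h3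
      · exact absurd h3 two_ne_zero
      · exact h3)
    rw [Fin.sum_univ_succAbove _ j₀] at h1 hvF
    have h4 : ∑ l, w l * pderiv (j₀.succAbove l) F =
        Hz q j₀ K s * ∑ l, v (j₀.succAbove l) * pderiv (j₀.succAbove l) F -
          ∑ l, k (j₀.succAbove l) * pderiv (j₀.succAbove l) F := by
      rw [Finset.mul_sum, ← Finset.sum_sub_distrib]
      exact Finset.sum_congr rfl fun l _ => by rw [hw]; ring
    rw [h4]
    rw [hk0] at h1
    linear_combination Hz q j₀ K s * hvF - h1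
  have hps : IsKos (fun l => ((ph q j₀ (pderiv (j₀.succAbove l) F) : MvPolynomial (Fin n) ℂ) :
      MvPowerSeries (Fin n) ℂ)) fun l => ((ph q j₀ (w l) : MvPolynomial (Fin n) ℂ) :
        MvPowerSeries (Fin n) ℂ) := by
    refine koszul_of_powers_ps (N := N) (fun j => ?_) ?_
    · have h1 := hN j
      unfold JI at h1
      simp only [hder] at h1
      exact h1
    · have h1 := congrArg (ph q j₀) horth
      rw [map_sum, map_zero] at h1
      have h2 := congrArg (MvPolynomial.coeToMvPowerSeries.ringHom (R := ℂ) (σ := Fin n)) h1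
      rw [map_sum, map_zero] at h2
      simp only [map_mul, MvPolynomial.coeToMvPowerSeries.ringHom_apply] at h2
      exact h2
  obtain ⟨s', hs', hkos'⟩ := kos_local _ _ hps
  obtain ⟨N', hN', hkos2⟩ := kos_homog (q := q) (j₀ := j₀) (d := d)
    (y := fun l => pderiv (j₀.succAbove l) F) (fun l => hpF _) hwh hkos'
  have hkos3 := kos_last (fun i => pderiv i F) j₀ hkos2
  refine ⟨Hz q j₀ N' s' * Hz q j₀ K s, N' + K, (Hz_homog q j₀ N' s').mul (Hz_homog q j₀ K s), ?_,
    ?_⟩
  · rw [eval_center hq, map_mul, map_mul, ph_Hz _ _ hN', ph_Hz _ _ (by omega)]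
    exact mul_ne_zero hs' hs
  · have h7 := IsKos.add hkos3 (IsKos.mul (Hz q j₀ N' s') hkk)
    convert h7 using 2 with i
    rcases Fin.eq_self_or_eq_succAbove j₀ i with rfl | ⟨l, rfl⟩
    · rw [Fin.insertNth_apply_same, hk0]
      ring
    · rw [Fin.insertNth_apply_succAbove, hw]
      ring

end YM

end MPb07157
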