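import Pool.Agent.Lib.MP_b07157_agYM.Defs
import Pool.Agent.Lib.MP_b07157_agI.Geo

/-!
# The sections of a form with finitely many singular points
-/

noncomputable section

namespace MPb07157

open MvPolynomial

namespace YM

/-- An ideal of polynomials with finitely many zeros contains powers of the variables in the ring of
power series at the origin. -/
theorem exists_powers_of_finite {n : ℕ} (I : Ideal (MvPolynomial (Fin n) ℂ))
    (S : Finset (Fin n → ℂ)) (hS : ∀ x : Fin n → ℂ, (∀ p ∈ I, eval x p = 0) → x ∈ S) :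
    ∃ N : ℕ, ∀ i, (MvPowerSeries.X i : MvPowerSeries (Fin n) ℂ) ^ N ∈
      I.map (coeToMvPowerSeries.ringHom (σ := Fin n) (R := ℂ)) := by
  classical
  have key : ∀ i : Fin n, ∃ N : ℕ, (MvPowerSeries.X i : MvPowerSeries (Fin n) ℂ) ^ N ∈
      I.map (coeToMvPowerSeries.ringHom (σ := Fin n) (R := ℂ)) := by
    intro i
    have hrad : (∏ a ∈ S, (X i - C (a i)) : MvPolynomial (Fin n) ℂ) ∈ I.radical := by
      rw [← vanishingIdeal_zeroLocus_eq_radical (K := ℂ), mem_vanishingIdeal_iff]
      intro x hx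
      rw [mem_zeroLocus_iff] at hx
      have hxS : x ∈ S := hS x fun p hp => by
        rw [← hx p hp, ← coe_aeval_eq_eval]
        rfl
      rw [map_prod]
      refine Finset.prod_eq_zero hxS ?_
      simp
    obtain ⟨N, hN⟩ := hrad
    have h1 := Ideal.mem_map_of_mem (coeToMvPowerSeries.ringHom (σ := Fin n) (R := ℂ)) hN
    rw [map_pow, map_prod] at h1
    -- each factor is a variable or a unit
    have h2 : ∀ T : Finset (Fin n → ℂ), ∃ (k : ℕ) (u : MvPowerSeries (Fin n) ℂ), IsUnit u ∧
        ∏ a ∈ T, coeToMvPowerSeries.ringHom (X i - C (a i) : MvPolynomial (Fin n) ℂ) =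
          (MvPowerSeries.X i : MvPowerSeries (Fin n) ℂ) ^ k * u := by
      intro T
      induction T using Finset.induction_on with
      | empty => exact ⟨0, 1, isUnit_one, by simp⟩
      | insert a T ha ih =>
        obtain ⟨k, u, hu, h⟩ := ih
        rw [Finset.prod_insert ha, h]
        by_cases h0 : a i = 0
        · refine ⟨k + 1, u, hu, ?_⟩
          rw [h0, map_zero, sub_zero, coeToMvPowerSeries.ringHom_apply, coe_X, pow_succ]
          ring
        · refine ⟨k, coeToMvPowerSeries.ringHom (X i - C (a i) : MvPolynomial (Fin n) ℂ) * u,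
            IsUnit.mul ?_ hu, by ring⟩
          rw [MvPowerSeries.isUnit_iff_constantCoeff, map_sub, coeToMvPowerSeries.ringHom_apply,
            coeToMvPowerSeries.ringHom_apply, coe_X, coe_C, map_sub,
            MvPowerSeries.constantCoeff_X, MvPowerSeries.constantCoeff_C, zero_sub]
          exact (neg_ne_zero.2 h0).isUnit
    obtain ⟨k, u, hu, h⟩ := h2 S
    rw [h, mul_pow, ← pow_mul] at h1
    exact ⟨k * N, (Ideal.mul_unit_mem_iff_mem _ (hu.pow N)).1 h1⟩
  choose N hN using key
  refine ⟨Finset.univ.sup N, fun i => ?_⟩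
  exact Ideal.mem_of_dvd _ (pow_dvd_pow _ (Finset.le_sup (Finset.mem_univ i))) (hN i)

open SI

/-- The derivatives of the germ in the chart. -/
theorem pderiv_gchN {n : ℕ} (F : MvPolynomial (Fin (n + 1)) ℂ) (q : Fin (n + 1) → ℂ)
    (j₀ : Fin (n + 1)) (i : Fin n) :
    pderiv i (gch F q j₀) = gch (pderiv (j₀.succAbove i) F) q j₀ := by
  classical
  unfold gch
  induction F using MvPolynomial.induction_on with
  | C a => simp
  | add p r hp hr => simp only [map_add, hp, hr]
  | mul_X p l hp =>
    rw [map_mul, aeval_X, Derivation.leibniz, hp, Derivation.leibniz, map_add, smul_eq_mul,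
      smul_eq_mul, smul_eq_mul, smul_eq_mul, map_mul, map_mul, aeval_X]
    rcases Fin.eq_self_or_eq_succAbove j₀ l with rfl | ⟨m, rfl⟩
    · rw [Fin.insertNth_apply_same, pderiv_one, pderiv_X_of_ne (Fin.succAbove_ne _ _).symm]
      simp
    · rw [Fin.insertNth_apply_succAbove, map_add, pderiv_C, add_zero]
      by_cases h : m = i
      · subst h
        rw [pderiv_X_self, pderiv_X_self, map_one]
      · rw [pderiv_X_of_ne h, pderiv_X_of_ne (fun hh => h (Fin.succAbove_right_injective hh))]
        simp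

/-- The values of the germ in the chart. -/
theorem eval_gchN {n : ℕ} (F : MvPolynomial (Fin (n + 1)) ℂ) (q : Fin (n + 1) → ℂ)
    (j₀ : Fin (n + 1)) (x : Fin n → ℂ) :
    eval x (gch F q j₀) =
      eval (j₀.insertNth (α := fun _ => ℂ) 1 fun i => x i + q (j₀.succAbove i)) F := by
  unfold gch
  induction F using MvPolynomial.induction_on with
  | C a => simp
  | add p r hp hr => simp only [map_add, hp, hr]
  | mul_X p l hp =>
    rw [map_mul, map_mul, map_mul, hp, aeval_X, eval_X]
    congr 1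
    rcases Fin.eq_self_or_eq_succAbove j₀ l with rfl | ⟨m, rfl⟩
    · rw [Fin.insertNth_apply_same, Fin.insertNth_apply_same, map_one]
    · rw [Fin.insertNth_apply_succAbove, Fin.insertNth_apply_succAbove]
      simp

/-- The sections are isolated singularities. -/
theorem isoSing_gchN {n : ℕ} {F : MvPolynomial (Fin (n + 1)) ℂ} {d : ℕ}
    (hF : F.IsHomogeneous d) (hfin : YG.FinSing F) (q : Fin (n + 1) → ℂ) (j₀ : Fin (n + 1)) :
    ∃ N : ℕ, ∀ i, (MvPowerSeries.X i : MvPowerSeries (Fin n) ℂ) ^ N ∈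
      Ideal.span {(gch F q j₀ : MvPowerSeries (Fin n) ℂ)} ⊔
        JI (gch F q j₀ : MvPowerSeries (Fin n) ℂ) := by
  classical
  obtain ⟨P, hP⟩ := hfin
  set g := gch F q j₀ with hg
  set I : Ideal (MvPolynomial (Fin n) ℂ) :=
    Ideal.span {g} ⊔ Ideal.span (Set.range fun l => pderiv l g) with hI
  have h1 : I.map (coeToMvPowerSeries.ringHom (σ := Fin n) (R := ℂ)) =
      Ideal.span {(g : MvPowerSeries (Fin n) ℂ)} ⊔ JI (g : MvPowerSeries (Fin n) ℂ) := by
    rw [hI, Ideal.map_sup, Ideal.map_span, Ideal.map_span, Set.image_singleton, ← Set.range_comp,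
      JI]
    simp only [coeToMvPowerSeries.ringHom_apply, MvPowerSeries.pderiv_coe]
    rfl
  rw [← h1]
  refine exists_powers_of_finite I
    (P.image fun p l => p (j₀.succAbove l) / p j₀ - q (j₀.succAbove l)) fun x hx => ?_
  set y : Fin (n + 1) → ℂ :=
    j₀.insertNth (α := fun _ => ℂ) 1 fun i => x i + q (j₀.succAbove i) with hy
  have hyj : y j₀ = 1 := by rw [hy, Fin.insertNth_apply_same]
  have hys : ∀ l, y (j₀.succAbove l) = x l + q (j₀.succAbove l) := fun l => by
    rw [hy, Fin.insertNth_apply_succAbove]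
  have hy0 : y ≠ 0 := fun h => by
    rw [h] at hyj
    exact zero_ne_one hyj
  have hFy : eval y F = 0 := by
    rw [hy, ← eval_gchN]
    exact hx _ (Ideal.mem_sup_left (Ideal.mem_span_singleton_self _))
  have hdl : ∀ l, eval y (pderiv (j₀.succAbove l) F) = 0 := by
    intro l
    rw [hy, ← eval_gchN, ← pderiv_gchN]
    exact hx _ (Ideal.mem_sup_right (Ideal.subset_span ⟨l, rfl⟩))
  have hd0 : eval y (pderiv j₀ F) = 0 := by
    have h2 := congrArg (eval y) hF.sum_X_mul_pderiv
    rw [map_sum, map_nsmul, hFy, smul_zero, Fin.sum_univ_succAbove _ j₀,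
      Finset.sum_eq_zero (fun l _ => by rw [map_mul, hdl l, mul_zero]), add_zero, map_mul, eval_X,
      hyj, one_mul] at h2
    exact h2
  have hall : ∀ j, eval y (pderiv j F) = 0 := by
    intro j
    rcases Fin.eq_self_or_eq_succAbove j₀ j with rfl | ⟨m, rfl⟩
    · exact hd0
    · exact hdl m
  obtain ⟨p, hp, c, hc⟩ := hP y hy0 hall
  have hcp : c * p j₀ = 1 := by
    rw [← hyj, hc, Pi.smul_apply, smul_eq_mul]
  have hp0 : p j₀ ≠ 0 := right_ne_zero_of_mul (hcp.trans_ne one_ne_zero)
  refine Finset.mem_image.2 ⟨p, hp, ?_⟩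
  funext l
  have h3 := hys l
  rw [hc, Pi.smul_apply, smul_eq_mul] at h3
  have h4 : c = (p j₀)⁻¹ := eq_inv_of_mul_eq_one_left hcp
  rw [h4] at h3
  rw [div_eq_inv_mul, h3, add_sub_cancel_right]

end YM

end MPb07157
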