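import Pool.Agent.Lib.MP_b07157_agYM.Defs
import Pool.Agent.Lib.MP_b07157_agI.KosB

/-!
# The Koszul relations between power series
-/

noncomputable section

namespace MPb07157

open MvPolynomial

namespace YM

/-- The powers of the variables. -/
def zXp (n N : ℕ) (k : ℕ) : MvPowerSeries (Fin n) ℂ :=
  if h : k < n then MvPowerSeries.X ⟨k, h⟩ ^ N else 0

/-- The power series all of whose monomials are divisible by the `N`-th power of a variable
before the variable `j`. -/
def pwI (n N j : ℕ) : Ideal (MvPowerSeries (Fin n) ℂ) where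
  carrier := {f | ∀ m : Fin n →₀ ℕ, (∀ i : Fin n, (i : ℕ) < j → m i < N) →
    MvPowerSeries.coeff m f = 0}
  zero_mem' := fun m _ => by rw [map_zero]
  add_mem' := fun {a b} ha hb m hm => by rw [map_add, ha m hm, hb m hm, add_zero]
  smul_mem' := fun c f hf m hm => by
    classical
    rw [smul_eq_mul, MvPowerSeries.coeff_mul]
    refine Finset.sum_eq_zero fun p hp => ?_
    have h1 : p.1 + p.2 = m := Finset.HasAntidiagonal.mem_antidiagonal.1 hp
    rw [hf p.2 fun i hi => ?_, mul_zero]
    have h2 := hm i hi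
    rw [← h1, Finsupp.add_apply] at h2
    omega

theorem mem_pwI {n N j : ℕ} {f : MvPowerSeries (Fin n) ℂ} : f ∈ pwI n N j ↔
    ∀ m : Fin n →₀ ℕ, (∀ i : Fin n, (i : ℕ) < j → m i < N) → MvPowerSeries.coeff m f = 0 :=
  Iff.rfl

theorem span_le_pwI (n N j : ℕ) : Ideal.span (zXp n N '' {k | k < j}) ≤ pwI n N j := by
  rw [Ideal.span_le]
  rintro _ ⟨k, hk, rfl⟩
  have hk' : k < j := hk
  unfold zXp
  split_ifs with h
  · intro m hm
    exact MvPowerSeries.X_pow_dvd_iff.1 (dvd_refl _) m (hm ⟨k, h⟩ hk')
  · exact (pwI n N j).zero_mem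

theorem pwI_le_span (n N : ℕ) (j : ℕ) : pwI n N j ≤ Ideal.span (zXp n N '' {k | k < j}) := by
  induction j with
  | zero =>
    intro f hf
    have h0 : f = 0 := by
      ext m
      rw [hf m fun i hi => absurd hi (Nat.not_lt_zero _), map_zero]
    rw [h0]
    exact Ideal.zero_mem _
  | succ j ih =>
    intro f hf
    have hmono : Ideal.span (zXp n N '' {k | k < j}) ≤
        Ideal.span (zXp n N '' {k | k < j + 1}) :=
      Ideal.span_mono (Set.image_mono fun k (hk : k < j) => Nat.lt_succ_of_lt hk)
    by_cases hj : j < n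
    · let f' : MvPowerSeries (Fin n) ℂ := fun m =>
        if m ⟨j, hj⟩ < N then MvPowerSeries.coeff m f else 0
      have hf' : ∀ m, MvPowerSeries.coeff m f' =
          if m ⟨j, hj⟩ < N then MvPowerSeries.coeff m f else 0 := fun m => rfl
      have h1 : f' ∈ pwI n N j := by
        intro m hm
        rw [hf']
        split_ifs with h
        · refine hf m fun i hi => ?_
          rcases Nat.lt_succ_iff_lt_or_eq.1 hi with h2 | h2
          · exact hm i h2
          · have : i = ⟨j, hj⟩ := Fin.ext h2
            rw [this]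
            exact h
        · rfl
      have h2 : (MvPowerSeries.X ⟨j, hj⟩ : MvPowerSeries (Fin n) ℂ) ^ N ∣ f - f' := by
        rw [MvPowerSeries.X_pow_dvd_iff]
        intro m hm
        rw [map_sub, hf', if_pos hm, sub_self]
      have h3 : f = f' + (f - f') := by ring
      rw [h3]
      refine Ideal.add_mem _ (hmono (ih h1)) (Ideal.mem_of_dvd _ h2 (Ideal.subset_span ?_))
      refine ⟨j, Nat.lt_succ_self j, ?_⟩
      unfold zXp
      rw [dif_pos hj]
    · refine hmono (ih ?_)
      intro m hm
      refine hf m fun i _ => hm i ?_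
      have := i.2
      omega

theorem zXp_reg {n : ℕ} (N : ℕ) {j : ℕ} (hj : j < n) (r : MvPowerSeries (Fin n) ℂ)
    (h : zXp n N j * r ∈ Ideal.span (zXp n N '' {k | k < j})) :
    r ∈ Ideal.span (zXp n N '' {k | k < j}) := by
  refine pwI_le_span n N j fun m hm => ?_
  have h1 := span_le_pwI n N j h (Finsupp.single ⟨j, hj⟩ N + m) fun i hi => ?_
  · unfold zXp at h1
    rwa [dif_pos hj, MvPowerSeries.X_pow_eq, MvPowerSeries.coeff_add_monomial_mul,
      one_mul] at h1
  · rw [Finsupp.add_apply, Finsupp.single_apply, if_neg, zero_add]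
    · exact hm i hi
    · intro h2
      rw [← h2] at hi
      exact lt_irrefl _ hi

/-- All relations between `n` power series in `n` variables such that the ideal generated by them
contains powers of the variables are Koszul relations. As `MPb07157I.koszul_of_powers`
(`agI/KosB.lean`), for power series (`zX_reg` for power series: coefficients). -/
theorem koszul_of_powers_ps {n : ℕ} {y : Fin n → MvPowerSeries (Fin n) ℂ} {N : ℕ}
    (h : ∀ j, (MvPowerSeries.X j : MvPowerSeries (Fin n) ℂ) ^ N ∈ Ideal.span (Set.range y))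
    {a : Fin n → MvPowerSeries (Fin n) ℂ} (ha : ∑ i, a i * y i = 0) : IsKos y a := by
  have h1 : ∀ k : ℕ, ∃ b : Fin n → MvPowerSeries (Fin n) ℂ, zXp n N k = ∑ i, b i * y i := by
    intro k
    unfold zXp
    split_ifs with hk
    · obtain ⟨b, hb⟩ := (Ideal.mem_span_range_iff_exists_fun).1 (h ⟨k, hk⟩)
      exact ⟨b, hb.symm⟩
    · exact ⟨0, by simp⟩
  choose b hb using h1
  exact MPb07157I.koszul hb (fun j hj r hr => zXp_reg N hj r hr) ha

end YM

end MPb07157
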