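import Pool.Agent.Lib.MP_b07157_agYM.Defs
import Pool.Agent.Lib.MP_b07157_agI.IsoB

/-!
# Vector fields and the Jacobian ideal of a double point
-/

noncomputable section

namespace MPb07157

open MvPolynomial

namespace YM

namespace LcB

/-- The restriction to the first axis. -/
def rho {t : ℕ} (f : MvPowerSeries (Fin (t + 2)) ℂ) : PowerSeries ℂ :=
  PowerSeries.mk fun j => MvPowerSeries.coeff (Finsupp.single 0 j) f

variable {t : ℕ}

theorem coeff_rho (f : MvPowerSeries (Fin (t + 2)) ℂ) (j : ℕ) :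
    PowerSeries.coeff j (rho f) = MvPowerSeries.coeff (Finsupp.single 0 j) f :=
  PowerSeries.coeff_mk _ _

theorem rho_add (f g : MvPowerSeries (Fin (t + 2)) ℂ) : rho (f + g) = rho f + rho g := by
  ext j
  simp [coeff_rho]

theorem rho_sub (f g : MvPowerSeries (Fin (t + 2)) ℂ) : rho (f - g) = rho f - rho g := by
  ext j
  simp [coeff_rho]

theorem rho_zero : rho (0 : MvPowerSeries (Fin (t + 2)) ℂ) = 0 := by
  ext j
  simp [coeff_rho]

theorem rho_sum {ι : Type*} (s : Finset ι) (f : ι → MvPowerSeries (Fin (t + 2)) ℂ) :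
    rho (∑ i ∈ s, f i) = ∑ i ∈ s, rho (f i) := by
  classical
  induction s using Finset.induction_on with
  | empty => simp [rho_zero]
  | insert a s ha ih => rw [Finset.sum_insert ha, Finset.sum_insert ha, rho_add, ih]

theorem rho_mul (f g : MvPowerSeries (Fin (t + 2)) ℂ) : rho (f * g) = rho f * rho g := by
  classical
  ext j
  rw [coeff_rho, MvPowerSeries.coeff_mul, PowerSeries.coeff_mul, Finsupp.antidiagonal_single,
    Finset.sum_map]
  refine Finset.sum_congr rfl fun p _ => ?_
  simp [coeff_rho]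

theorem rho_C (c : ℂ) : rho (MvPowerSeries.C c : MvPowerSeries (Fin (t + 2)) ℂ) =
    PowerSeries.C c := by
  classical
  ext j
  rw [coeff_rho, MvPowerSeries.coeff_C, PowerSeries.coeff_C]
  simp

theorem rho_X_succ (i : Fin (t + 1)) :
    rho (MvPowerSeries.X i.succ : MvPowerSeries (Fin (t + 2)) ℂ) = 0 := by
  classical
  ext j
  rw [coeff_rho, MvPowerSeries.coeff_X, map_zero, if_neg]
  intro h
  have h1 := DFunLike.congr_fun h i.succ
  rw [Finsupp.single_eq_same, Finsupp.single_eq_of_ne (Fin.succ_ne_zero i)] at h1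
  omega

theorem rho_pderiv (f : MvPowerSeries (Fin (t + 2)) ℂ) :
    rho (MvPowerSeries.pderiv ℂ 0 f) = PowerSeries.derivative ℂ (rho f) := by
  classical
  ext j
  rw [coeff_rho, MvPowerSeries.coeff_pderiv, PowerSeries.coeff_derivative, coeff_rho,
    ← Finsupp.single_add]
  simp

theorem rho_subst (k : PowerSeries ℂ) :
    rho (PowerSeries.subst (MvPowerSeries.X 0 : MvPowerSeries (Fin (t + 2)) ℂ) k) = k := by
  classical
  ext j
  rw [coeff_rho, PowerSeries.coeff_subst_single]
  simp

theorem constantCoeff_rho (f : MvPowerSeries (Fin (t + 2)) ℂ) :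
    PowerSeries.constantCoeff (rho f) = MvPowerSeries.constantCoeff f := by
  rw [← PowerSeries.coeff_zero_eq_constantCoeff_apply, coeff_rho,
    ← MvPowerSeries.coeff_zero_eq_constantCoeff_apply, Finsupp.single_zero]

/-- The monomials without the variables of `s` vanish. -/
theorem mem_span_of {f : MvPowerSeries (Fin (t + 2)) ℂ} (s : Finset (Fin (t + 1))) :
    (∀ m : Fin (t + 2) →₀ ℕ, (∀ i ∈ s, m i.succ = 0) → MvPowerSeries.coeff m f = 0) →
    f ∈ Ideal.span (Set.range fun i : Fin (t + 1) =>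
      (MvPowerSeries.X i.succ : MvPowerSeries (Fin (t + 2)) ℂ)) := by
  classical
  induction s using Finset.induction_on generalizing f with
  | empty =>
    intro h
    have h0 : f = 0 := by
      ext m
      rw [h m fun i hi => absurd hi (Finset.notMem_empty i), map_zero]
    rw [h0]
    exact Ideal.zero_mem _
  | insert a s ha ih =>
    intro h
    let f' : MvPowerSeries (Fin (t + 2)) ℂ := fun m =>
      if m a.succ = 0 then MvPowerSeries.coeff m f else 0
    have hf' : ∀ m, MvPowerSeries.coeff m f' =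
        if m a.succ = 0 then MvPowerSeries.coeff m f else 0 := fun m => rfl
    have h1 : f' ∈ Ideal.span (Set.range fun i : Fin (t + 1) =>
        (MvPowerSeries.X i.succ : MvPowerSeries (Fin (t + 2)) ℂ)) := by
      refine ih fun m hm => ?_
      rw [hf']
      split_ifs with h2
      · refine h m fun i hi => ?_
        rcases Finset.mem_insert.1 hi with h3 | h3
        · rw [h3]; exact h2
        · exact hm i h3
      · rfl
    have h2 : (MvPowerSeries.X a.succ : MvPowerSeries (Fin (t + 2)) ℂ) ∣ f - f' := by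
      rw [MvPowerSeries.X_dvd_iff]
      intro m hm
      rw [map_sub, hf', if_pos hm, sub_self]
    have h3 : f = f' + (f - f') := by ring
    rw [h3]
    exact Ideal.add_mem _ h1 (Ideal.mem_of_dvd _ h2 (Ideal.subset_span ⟨a, rfl⟩))

theorem mem_span_of_rho {f : MvPowerSeries (Fin (t + 2)) ℂ} (h : rho f = 0) :
    f ∈ Ideal.span (Set.range fun i : Fin (t + 1) =>
      (MvPowerSeries.X i.succ : MvPowerSeries (Fin (t + 2)) ℂ)) := by
  classical
  refine mem_span_of Finset.univ fun m hm => ?_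
  have h1 : m = Finsupp.single 0 (m 0) := by
    ext i
    refine Fin.cases ?_ (fun i => ?_) i
    · rw [Finsupp.single_eq_same]
    · rw [hm i (Finset.mem_univ i), Finsupp.single_eq_of_ne (Fin.succ_ne_zero i)]
  rw [h1, ← coeff_rho, h, map_zero]

theorem pderiv_zero_subst (k : PowerSeries ℂ) :
    MvPowerSeries.pderiv ℂ 0
      (PowerSeries.subst (MvPowerSeries.X 0 : MvPowerSeries (Fin (t + 2)) ℂ) k) =
    PowerSeries.subst (MvPowerSeries.X 0 : MvPowerSeries (Fin (t + 2)) ℂ)
      (PowerSeries.derivative ℂ k) := by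
  classical
  ext v
  rw [MvPowerSeries.coeff_pderiv, PowerSeries.coeff_subst_single, PowerSeries.coeff_subst_single,
    PowerSeries.coeff_derivative]
  by_cases h : v = Finsupp.single 0 (v 0)
  · have h1 : v + Finsupp.single 0 1 =
        Finsupp.single 0 ((v + Finsupp.single 0 1 : Fin (t + 2) →₀ ℕ) 0) := by
      rw [Finsupp.add_apply, Finsupp.single_eq_same, Finsupp.single_add, ← h]
    rw [if_pos h, if_pos h1, Finsupp.add_apply, Finsupp.single_eq_same]
  · have h1 : ¬ v + Finsupp.single 0 1 =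
        Finsupp.single 0 ((v + Finsupp.single 0 1 : Fin (t + 2) →₀ ℕ) 0) := by
      rw [Finsupp.add_apply, Finsupp.single_eq_same, Finsupp.single_add]
      intro h2
      exact h (add_right_cancel h2)
    rw [if_neg h, if_neg h1, zero_mul]

theorem pderiv_succ_subst (i : Fin (t + 1)) (k : PowerSeries ℂ) :
    MvPowerSeries.pderiv ℂ i.succ
      (PowerSeries.subst (MvPowerSeries.X 0 : MvPowerSeries (Fin (t + 2)) ℂ) k) = 0 := by
  classical
  ext v
  rw [MvPowerSeries.coeff_pderiv, PowerSeries.coeff_subst_single, if_neg, zero_mul, map_zero]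
  intro h
  have h1 := DFunLike.congr_fun h i.succ
  rw [Finsupp.add_apply, Finsupp.single_eq_same,
    Finsupp.single_eq_of_ne (Fin.succ_ne_zero i)] at h1
  omega

theorem pderiv_zero_kY (k : PowerSeries ℂ) :
    MvPowerSeries.pderiv ℂ 0 (kY t k) =
      PowerSeries.subst (MvPowerSeries.X 0 : MvPowerSeries (Fin (t + 2)) ℂ)
        (PowerSeries.derivative ℂ k) := by
  unfold kY
  rw [map_add, pderiv_zero_subst, map_sum, Finset.sum_eq_zero, add_zero]
  intro i _
  rw [Derivation.leibniz_pow, MvPowerSeries.pderiv_X_of_ne (Fin.succ_ne_zero i)]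
  simp

theorem pderiv_succ_kY (i : Fin (t + 1)) (k : PowerSeries ℂ) :
    MvPowerSeries.pderiv ℂ i.succ (kY t k) = MvPowerSeries.C 2 * MvPowerSeries.X i.succ := by
  unfold kY
  rw [map_add, pderiv_succ_subst, zero_add, map_sum, Finset.sum_eq_single i]
  · rw [Derivation.leibniz_pow, MvPowerSeries.pderiv_X_self]
    simp only [Nat.add_one_sub_one, pow_one, smul_eq_mul, mul_one, nsmul_eq_mul]
    rw [show (2 : ℂ) = ((2 : ℕ) : ℂ) by norm_num, map_natCast]
  · intro j _ hj
    rw [Derivation.leibniz_pow, MvPowerSeries.pderiv_X_of_ne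
      (fun h => hj (Fin.succ_injective _ h))]
    simp
  · intro h
    exact absurd (Finset.mem_univ i) h

theorem hasS : PowerSeries.HasSubst (MvPowerSeries.X 0 : MvPowerSeries (Fin (t + 2)) ℂ) :=
  PowerSeries.HasSubst.X _

theorem subst_mul (a b : PowerSeries ℂ) :
    PowerSeries.subst (MvPowerSeries.X 0 : MvPowerSeries (Fin (t + 2)) ℂ) (a * b) =
      PowerSeries.subst (MvPowerSeries.X 0 : MvPowerSeries (Fin (t + 2)) ℂ) a *
      PowerSeries.subst (MvPowerSeries.X 0 : MvPowerSeries (Fin (t + 2)) ℂ) b :=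
  PowerSeries.subst_mul hasS a b

/-- The derivative of `X^M κ` is `X^(M-1)` times a unit. -/
theorem deriv_eq {M : ℕ} (hM : 2 ≤ M) {κ : PowerSeries ℂ}
    (hκ : PowerSeries.constantCoeff κ ≠ 0) :
    ∃ u : PowerSeries ℂ, PowerSeries.constantCoeff u = 1 / (M : ℂ) ∧
      PowerSeries.X * u * PowerSeries.derivative ℂ (PowerSeries.X ^ M * κ) =
        PowerSeries.X ^ M * κ ∧
      ∃ w : PowerSeries ℂ, PowerSeries.derivative ℂ (PowerSeries.X ^ M * κ) * w =
        PowerSeries.X ^ (M - 1) ∧ (∃ w' : PowerSeries ℂ,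
        PowerSeries.derivative ℂ (PowerSeries.X ^ M * κ) = PowerSeries.X ^ (M - 1) * w') := by
  set v : PowerSeries ℂ := PowerSeries.C (M : ℂ) * κ + PowerSeries.X * PowerSeries.derivative ℂ κ
    with hv
  have hM0 : (M : ℂ) ≠ 0 := by
    have : M ≠ 0 := by omega
    exact_mod_cast this
  have hv0 : PowerSeries.constantCoeff v = M * PowerSeries.constantCoeff κ := by
    rw [hv, map_add, map_mul, map_mul, PowerSeries.constantCoeff_C, PowerSeries.constantCoeff_X,
      zero_mul, add_zero]
  have hv1 : v * v⁻¹ = 1 := by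
    refine PowerSeries.mul_inv_cancel v ?_
    rw [hv0]
    exact mul_ne_zero hM0 hκ
  have hd : PowerSeries.derivative ℂ (PowerSeries.X ^ M * κ) = PowerSeries.X ^ (M - 1) * v := by
    obtain ⟨N, rfl⟩ : ∃ N, M = N + 1 := ⟨M - 1, by omega⟩
    rw [Derivation.leibniz, Derivation.leibniz_pow, PowerSeries.derivative_X, hv]
    simp only [Nat.add_one_sub_one, smul_eq_mul, mul_one, nsmul_eq_mul]
    rw [map_natCast]
    ring
  refine ⟨κ * v⁻¹, ?_, ?_, v⁻¹, ?_, v, hd⟩
  · rw [map_mul, PowerSeries.constantCoeff_inv, hv0]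
    field_simp
  · rw [hd]
    have e1 : (PowerSeries.X : PowerSeries ℂ) ^ M = PowerSeries.X * PowerSeries.X ^ (M - 1) := by
      rw [← pow_succ', Nat.sub_add_cancel (by omega)]
    rw [e1]
    calc PowerSeries.X * (κ * v⁻¹) * (PowerSeries.X ^ (M - 1) * v)
        = PowerSeries.X * PowerSeries.X ^ (M - 1) * κ * (v * v⁻¹) := by ring
      _ = _ := by rw [hv1, mul_one]
  · rw [hd, mul_assoc, hv1, mul_one]

theorem mem_JI_kY {M : ℕ} (hM : 2 ≤ M) {κ : PowerSeries ℂ}
    (hκ : PowerSeries.constantCoeff κ ≠ 0) (α : MvPowerSeries (Fin (t + 2)) ℂ) :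
    α ∈ JI (kY t (PowerSeries.X ^ M * κ)) ↔ (PowerSeries.X : PowerSeries ℂ) ^ (M - 1) ∣ rho α := by
  obtain ⟨u, hu0, hu1, w, hw, w', hw'⟩ := deriv_eq hM hκ
  constructor
  · intro h
    unfold JI at h
    refine Submodule.span_induction ?_ ?_ ?_ ?_ h
    · rintro _ ⟨i, rfl⟩
      refine Fin.cases ?_ (fun i => ?_) i
      · show _ ∣ rho (MvPowerSeries.pderiv ℂ 0 (kY t (PowerSeries.X ^ M * κ)))
        rw [pderiv_zero_kY, rho_subst, hw']
        exact dvd_mul_right _ _
      · show _ ∣ rho (MvPowerSeries.pderiv ℂ i.succ (kY t (PowerSeries.X ^ M * κ)))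
        rw [pderiv_succ_kY, rho_mul, rho_X_succ, mul_zero]
        exact dvd_zero _
    · rw [rho_zero]
      exact dvd_zero _
    · intro a b _ _ ha hb
      rw [rho_add]
      exact dvd_add ha hb
    · intro a b _ hb
      rw [smul_eq_mul, rho_mul]
      exact hb.mul_left _
  · rintro ⟨β, hβ⟩
    have hX : ∀ i : Fin (t + 1), (MvPowerSeries.X i.succ : MvPowerSeries (Fin (t + 2)) ℂ) ∈
        JI (kY t (PowerSeries.X ^ M * κ)) := by
      intro i
      have h1 : MvPowerSeries.pderiv ℂ i.succ (kY t (PowerSeries.X ^ M * κ)) ∈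
          JI (kY t (PowerSeries.X ^ M * κ)) := Ideal.subset_span ⟨i.succ, rfl⟩
      rw [pderiv_succ_kY] at h1
      have h2 := Ideal.mul_mem_left _ (MvPowerSeries.C (2⁻¹ : ℂ)) h1
      rw [← mul_assoc, ← map_mul] at h2
      norm_num at h2
      exact h2
    have h1 : rho (α - PowerSeries.subst
        (MvPowerSeries.X 0 : MvPowerSeries (Fin (t + 2)) ℂ) (rho α)) = 0 := by
      rw [rho_sub, rho_subst, sub_self]
    have h2 := mem_span_of_rho h1
    have h3 : Ideal.span (Set.range fun i : Fin (t + 1) =>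
        (MvPowerSeries.X i.succ : MvPowerSeries (Fin (t + 2)) ℂ)) ≤
        JI (kY t (PowerSeries.X ^ M * κ)) := by
      rw [Ideal.span_le]
      rintro _ ⟨i, rfl⟩
      exact hX i
    have h4 : PowerSeries.subst (MvPowerSeries.X 0 : MvPowerSeries (Fin (t + 2)) ℂ) (rho α) ∈
        JI (kY t (PowerSeries.X ^ M * κ)) := by
      have e1 : rho α = PowerSeries.derivative ℂ (PowerSeries.X ^ M * κ) * (w * β) := by
        rw [← mul_assoc, hw, hβ]
      rw [e1, subst_mul, ← pderiv_zero_kY]
      exact Ideal.mul_mem_right _ _ (Ideal.subset_span ⟨0, rfl⟩)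
    have h5 : α = (α - PowerSeries.subst
        (MvPowerSeries.X 0 : MvPowerSeries (Fin (t + 2)) ℂ) (rho α)) + PowerSeries.subst
        (MvPowerSeries.X 0 : MvPowerSeries (Fin (t + 2)) ℂ) (rho α) := by ring
    rw [h5]
    exact Ideal.add_mem _ (h3 h2) h4

theorem symm_mem {n : ℕ} (e : MvPowerSeries (Fin n) ℂ ≃ₐ[ℂ] MvPowerSeries (Fin n) ℂ)
    {g β : MvPowerSeries (Fin n) ℂ} (h : β ∈ JI (e g)) : e.symm β ∈ JI g := by
  unfold JI at h
  refine Submodule.span_induction ?_ ?_ ?_ ?_ h
  · rintro _ ⟨i, rfl⟩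
    show e.symm (MvPowerSeries.pderiv ℂ i (e g)) ∈ JI g
    rw [pderiv_equiv e i g, map_sum]
    refine Ideal.sum_mem _ fun j _ => ?_
    rw [map_mul, AlgEquiv.symm_apply_apply]
    exact Ideal.mul_mem_left _ _ (Ideal.subset_span ⟨j, rfl⟩)
  · rw [map_zero]
    exact Ideal.zero_mem _
  · intro a b _ _ ha hb
    rw [map_add]
    exact Ideal.add_mem _ ha hb
  · intro a b _ hb
    rw [smul_eq_mul, map_mul]
    exact Ideal.mul_mem_left _ _ hb

theorem equiv_mem {n : ℕ} (e : MvPowerSeries (Fin n) ℂ ≃ₐ[ℂ] MvPowerSeries (Fin n) ℂ)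
    {g α : MvPowerSeries (Fin n) ℂ} : e α ∈ JI (e g) ↔ α ∈ JI g := by
  constructor
  · intro h
    have := symm_mem e h
    rwa [AlgEquiv.symm_apply_apply] at this
  · intro h
    have h1 : α ∈ JI (e.symm (e g)) := by rwa [AlgEquiv.symm_apply_apply]
    have := symm_mem e.symm h1
    rwa [AlgEquiv.symm_symm] at this

/-- The step in one variable. -/
theorem dvd_of {M : ℕ} {b u w : PowerSeries ℂ} {c d : ℂ}
    (hc : ∀ j : ℕ, j + 1 < M → c ≠ d * (PowerSeries.constantCoeff w +
      j * PowerSeries.constantCoeff u))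
    (h : (PowerSeries.X : PowerSeries ℂ) ^ (M - 1) ∣ PowerSeries.C c * b - PowerSeries.C d *
      (PowerSeries.X * u * PowerSeries.derivative ℂ b + b * w)) :
    (PowerSeries.X : PowerSeries ℂ) ^ (M - 1) ∣ b := by
  have key : ∀ j : ℕ, j ≤ M - 1 → (PowerSeries.X : PowerSeries ℂ) ^ j ∣ b := by
    intro j
    induction j with
    | zero => intro _; rw [pow_zero]; exact one_dvd _
    | succ j ih =>
      intro hj
      obtain ⟨a, ha⟩ := ih (by omega)
      have h1 : PowerSeries.X * PowerSeries.derivative ℂ b =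
          PowerSeries.X ^ j * (PowerSeries.C (j : ℂ) * a +
            PowerSeries.X * PowerSeries.derivative ℂ a) := by
        rw [ha, Derivation.leibniz, Derivation.leibniz_pow, PowerSeries.derivative_X]
        simp only [smul_eq_mul, mul_one, nsmul_eq_mul]
        rw [map_natCast]
        rcases Nat.eq_zero_or_pos j with h0 | h0
        · subst h0
          simp
        · have e1 : (PowerSeries.X : PowerSeries ℂ) ^ j =
              PowerSeries.X * PowerSeries.X ^ (j - 1) := by
            rw [← pow_succ', Nat.sub_add_cancel (by omega)]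
          rw [e1]
          ring
      have h2 : PowerSeries.C c * b - PowerSeries.C d *
          (PowerSeries.X * u * PowerSeries.derivative ℂ b + b * w) =
          PowerSeries.X ^ j * (PowerSeries.C c * a - PowerSeries.C d *
            (u * (PowerSeries.C (j : ℂ) * a + PowerSeries.X * PowerSeries.derivative ℂ a) +
              a * w)) := by
        have e1 : PowerSeries.X * u * PowerSeries.derivative ℂ b =
            u * (PowerSeries.X * PowerSeries.derivative ℂ b) := by ring
        rw [e1, h1]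
        nth_rewrite 1 [ha]
        nth_rewrite 1 [ha]
        ring
      rw [h2] at h
      have h3 : (PowerSeries.X : PowerSeries ℂ) ^ j * PowerSeries.X ∣
          PowerSeries.X ^ j * (PowerSeries.C c * a - PowerSeries.C d *
            (u * (PowerSeries.C (j : ℂ) * a + PowerSeries.X * PowerSeries.derivative ℂ a) +
              a * w)) := by
        rw [← pow_succ]
        exact (pow_dvd_pow _ hj).trans h
      have h4 := (mul_dvd_mul_iff_left (pow_ne_zero j PowerSeries.X_ne_zero)).1 h3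
      rw [PowerSeries.X_dvd_iff] at h4
      simp only [map_sub, map_add, map_mul, PowerSeries.constantCoeff_C,
        PowerSeries.constantCoeff_X, zero_mul, add_zero] at h4
      have h5 : (c - d * (PowerSeries.constantCoeff w + j * PowerSeries.constantCoeff u)) *
          PowerSeries.constantCoeff a = 0 := by
        rw [← h4]
        ring
      have h6 := (mul_eq_zero.1 h5).resolve_left (sub_ne_zero.2 (hc j (by omega)))
      rw [ha, pow_succ]
      exact mul_dvd_mul_left _ (PowerSeries.X_dvd_iff.2 h6)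
  exact key _ le_rfl

end LcB

/-- The Euler field of the normal form: `χ' = (k/k') ∂_0 + ∑ (X_i/2) ∂_i` for `kY t k`,
`k = X^M κ`, and its transform by `e`: a derivation `χ` with `χ(g) = g`, whose divergence has the
constant term `(t + 1)/2 + 1/M` (the trace of the action on `m/m²` is invariant), and such that
`c α - d χ(α) - d (div χ) α ∈ JI g` implies `α ∈ JI g` if
`c ≠ d ((t + 1)/2 + (j + 1)/M)` for all `j < M - 1`. (For `e`-coordinates: `JI` is the ideal
`(X_0^{M-1}, X_1, …)`; if `α` is not in it, `α = a X_0^j + ⋯`, `a ≠ 0`, `j < M - 1`, modulo the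
ideal and `X_0^{j+1}`, and `χ' X_0^j = (j/M) X_0^j + ⋯`; the ideal is stable under `χ'`.) -/
theorem exists_euler {t : ℕ} {g : MvPowerSeries (Fin (t + 2)) ℂ}
    (e : MvPowerSeries (Fin (t + 2)) ℂ ≃ₐ[ℂ] MvPowerSeries (Fin (t + 2)) ℂ) {M : ℕ} (hM : 2 ≤ M)
    {κ : PowerSeries ℂ} (hκ : PowerSeries.constantCoeff κ ≠ 0)
    (he : e g = kY t (PowerSeries.X ^ M * κ)) :
    ∃ χ : Fin (t + 2) → MvPowerSeries (Fin (t + 2)) ℂ,
      (∑ i, χ i * MvPowerSeries.pderiv ℂ i g = g) ∧
      ∀ (c d : ℂ) (_ : ∀ j : ℕ, j + 1 < M → c ≠ d * (((t : ℂ) + 1) / 2 + ((j : ℂ) + 1) / M))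
        (α : MvPowerSeries (Fin (t + 2)) ℂ),
        MvPowerSeries.C c * α - MvPowerSeries.C d *
          (∑ i, MvPowerSeries.pderiv ℂ i (α * χ i)) ∈ JI g → α ∈ JI g := by
  classical
  have halg : ∀ c : ℂ, algebraMap ℂ (MvPowerSeries (Fin (t + 2)) ℂ) c = MvPowerSeries.C c :=
    fun _ => rfl
  obtain ⟨u, hu0, hu1, -⟩ := LcB.deriv_eq hM hκ
  let c' : Fin (t + 2) → MvPowerSeries (Fin (t + 2)) ℂ :=
    Fin.cases (PowerSeries.subst (MvPowerSeries.X 0 : MvPowerSeries (Fin (t + 2)) ℂ)
      (PowerSeries.X * u)) fun i => MvPowerSeries.C (1 / 2) * MvPowerSeries.X i.succ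
  have c'0 : c' 0 = PowerSeries.subst (MvPowerSeries.X 0 : MvPowerSeries (Fin (t + 2)) ℂ)
      (PowerSeries.X * u) := rfl
  have c's : ∀ i : Fin (t + 1), c' i.succ = MvPowerSeries.C (1 / 2) * MvPowerSeries.X i.succ :=
    fun _ => rfl
  let F : Fin (t + 2) → MvPowerSeries (Fin (t + 2)) ℂ := fun i =>
    ∑ j, c' j * MvPowerSeries.pderiv ℂ j (e (MvPowerSeries.X i))
  have hkey : ∀ α, e (∑ i, e.symm (F i) * MvPowerSeries.pderiv ℂ i α) =
      ∑ j, c' j * MvPowerSeries.pderiv ℂ j (e α) := by
    intro α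
    rw [map_sum]
    have e1 : ∀ i, e (e.symm (F i) * MvPowerSeries.pderiv ℂ i α) =
        ∑ j, c' j * (MvPowerSeries.pderiv ℂ j (e (MvPowerSeries.X i)) *
          e (MvPowerSeries.pderiv ℂ i α)) := by
      intro i
      rw [map_mul, AlgEquiv.apply_symm_apply]
      show (∑ j, c' j * MvPowerSeries.pderiv ℂ j (e (MvPowerSeries.X i))) * _ = _
      rw [Finset.sum_mul]
      exact Finset.sum_congr rfl fun j _ => by ring
    rw [Finset.sum_congr rfl fun i _ => e1 i, Finset.sum_comm]
    refine Finset.sum_congr rfl fun j _ => ?_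
    rw [← Finset.mul_sum, pderiv_equiv e j α]
  -- the trace
  have hc0 : ∀ j, MvPowerSeries.constantCoeff (c' j) = 0 := by
    intro j
    refine Fin.cases ?_ (fun i => ?_) j
    · rw [c'0, ← LcB.constantCoeff_rho, LcB.rho_subst, map_mul, PowerSeries.constantCoeff_X,
        zero_mul]
    · rw [c's, map_mul, MvPowerSeries.constantCoeff_X, mul_zero]
  let ℓ : Fin (t + 2) → ℂ := Fin.cases (1 / (M : ℂ)) fun _ => 1 / 2
  have hL : ∀ j m, MvPowerSeries.constantCoeff (MvPowerSeries.pderiv ℂ m (c' j)) =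
      if j = m then ℓ m else 0 := by
    intro j m
    refine Fin.cases ?_ (fun i => ?_) j
    · refine Fin.cases ?_ (fun i => ?_) m
      · rw [c'0, LcB.pderiv_zero_subst, ← LcB.constantCoeff_rho, LcB.rho_subst, if_pos rfl,
          Derivation.leibniz, PowerSeries.derivative_X]
        simp only [smul_eq_mul, mul_one, map_add, map_mul, PowerSeries.constantCoeff_X, zero_mul,
          zero_add]
        exact hu0
      · rw [c'0, LcB.pderiv_succ_subst, map_zero, if_neg (Fin.succ_ne_zero i).symm]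
    · rw [c's, Derivation.leibniz]
      have e1 : MvPowerSeries.pderiv ℂ m (MvPowerSeries.C (1 / 2) :
          MvPowerSeries (Fin (t + 2)) ℂ) = 0 := by
        rw [← halg]
        exact Derivation.map_algebraMap _ _
      rw [e1, smul_zero, add_zero, smul_eq_mul, map_mul, MvPowerSeries.constantCoeff_C]
      by_cases h : i.succ = m
      · rw [if_pos h, ← h, MvPowerSeries.pderiv_X_self, map_one, mul_one]
        rfl
      · rw [if_neg h, MvPowerSeries.pderiv_X_of_ne h, map_zero, mul_zero]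
  have hKJ : ∀ l, ∑ i, MvPowerSeries.constantCoeff
      (MvPowerSeries.pderiv ℂ i (e.symm (MvPowerSeries.X l))) *
      MvPowerSeries.constantCoeff (MvPowerSeries.pderiv ℂ l (e (MvPowerSeries.X i))) = 1 := by
    intro l
    have h1 := congrArg MvPowerSeries.constantCoeff
      (pderiv_equiv e l (e.symm (MvPowerSeries.X l)))
    rw [AlgEquiv.apply_symm_apply, MvPowerSeries.pderiv_X_self, map_one, map_sum] at h1
    rw [h1]
    refine Finset.sum_congr rfl fun i _ => ?_
    rw [map_mul, constantCoeff_equiv e, mul_comm]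
  have hdiv : MvPowerSeries.constantCoeff (∑ i, MvPowerSeries.pderiv ℂ i (e.symm (F i))) =
      ((t : ℂ) + 1) / 2 + 1 / M := by
    have h1 : ∀ i, MvPowerSeries.constantCoeff (MvPowerSeries.pderiv ℂ i (e.symm (F i))) =
        ∑ m, ℓ m * (MvPowerSeries.constantCoeff
          (MvPowerSeries.pderiv ℂ i (e.symm (MvPowerSeries.X m))) *
          MvPowerSeries.constantCoeff (MvPowerSeries.pderiv ℂ m (e (MvPowerSeries.X i)))) := by
      intro i
      rw [pderiv_equiv e.symm i (F i), map_sum]
      refine Finset.sum_congr rfl fun m _ => ?_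
      rw [map_mul, constantCoeff_equiv e.symm]
      have h2 : MvPowerSeries.constantCoeff (MvPowerSeries.pderiv ℂ m (F i)) =
          ℓ m * MvPowerSeries.constantCoeff
            (MvPowerSeries.pderiv ℂ m (e (MvPowerSeries.X i))) := by
        show MvPowerSeries.constantCoeff (MvPowerSeries.pderiv ℂ m
          (∑ j, c' j * MvPowerSeries.pderiv ℂ j (e (MvPowerSeries.X i)))) = _
        rw [map_sum, map_sum, Finset.sum_eq_single m]
        · rw [Derivation.leibniz, map_add, smul_eq_mul, smul_eq_mul, map_mul, map_mul, hc0,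
            zero_mul, zero_add, hL, if_pos rfl, mul_comm]
        · intro j _ hj
          rw [Derivation.leibniz, map_add, smul_eq_mul, smul_eq_mul, map_mul, map_mul, hc0,
            zero_mul, zero_add, hL, if_neg hj, mul_zero]
        · intro h
          exact absurd (Finset.mem_univ m) h
      rw [h2]
      ring
    rw [map_sum, Finset.sum_congr rfl fun i _ => h1 i, Finset.sum_comm]
    have h3 : ∀ m, ∑ i, ℓ m * (MvPowerSeries.constantCoeff
          (MvPowerSeries.pderiv ℂ i (e.symm (MvPowerSeries.X m))) *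
          MvPowerSeries.constantCoeff (MvPowerSeries.pderiv ℂ m (e (MvPowerSeries.X i)))) =
        ℓ m := by
      intro m
      rw [← Finset.mul_sum, hKJ, mul_one]
    rw [Finset.sum_congr rfl fun m _ => h3 m, Fin.sum_univ_succ]
    have h4 : ∑ i : Fin (t + 1), ℓ i.succ = ∑ _i : Fin (t + 1), (1 / 2 : ℂ) := rfl
    rw [h4, Finset.sum_const, Finset.card_univ, Fintype.card_fin]
    show 1 / (M : ℂ) + (t + 1) • (1 / 2 : ℂ) = _
    rw [nsmul_eq_mul]
    push_cast
    ring
  refine ⟨fun i => e.symm (F i), ?_, ?_⟩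
  · apply e.injective
    rw [hkey g, he, Fin.sum_univ_succ, LcB.pderiv_zero_kY, c'0, ← LcB.subst_mul, hu1]
    unfold kY
    congr 1
    refine Finset.sum_congr rfl fun i _ => ?_
    have h1 := LcB.pderiv_succ_kY (t := t) i (PowerSeries.X ^ M * κ)
    unfold kY at h1
    rw [h1, c's]
    have h2 : (MvPowerSeries.C (1 / 2) : MvPowerSeries (Fin (t + 2)) ℂ) * MvPowerSeries.C 2 = 1 := by
      rw [← map_mul]
      norm_num
    calc MvPowerSeries.C (1 / 2) * MvPowerSeries.X i.succ *
          (MvPowerSeries.C 2 * MvPowerSeries.X i.succ)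
        = (MvPowerSeries.C (1 / 2) * MvPowerSeries.C 2) *
          (MvPowerSeries.X i.succ : MvPowerSeries (Fin (t + 2)) ℂ) ^ 2 := by ring
      _ = _ := by rw [h2, one_mul]
  · intro c d hc α h
    have h1 : ∑ i, MvPowerSeries.pderiv ℂ i (α * e.symm (F i)) =
        ∑ i, e.symm (F i) * MvPowerSeries.pderiv ℂ i α +
          α * ∑ i, MvPowerSeries.pderiv ℂ i (e.symm (F i)) := by
      rw [Finset.mul_sum, ← Finset.sum_add_distrib]
      refine Finset.sum_congr rfl fun i _ => ?_
      rw [Derivation.leibniz, smul_eq_mul, smul_eq_mul]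
      ring
    rw [h1, ← LcB.equiv_mem e, he, LcB.mem_JI_kY hM hκ, map_sub, map_mul, map_mul, map_add,
      hkey, map_mul, ← halg, ← halg, e.commutes, e.commutes, halg, halg, Fin.sum_univ_succ] at h
    rw [← LcB.equiv_mem e, he, LcB.mem_JI_kY hM hκ]
    have h2 : LcB.rho (∑ i : Fin (t + 1), c' i.succ * MvPowerSeries.pderiv ℂ i.succ (e α)) = 0 := by
      rw [LcB.rho_sum]
      refine Finset.sum_eq_zero fun i _ => ?_
      rw [c's, LcB.rho_mul, LcB.rho_mul, LcB.rho_X_succ, mul_zero, zero_mul]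
    rw [LcB.rho_sub, LcB.rho_mul, LcB.rho_mul, LcB.rho_add, LcB.rho_add, LcB.rho_C, LcB.rho_C,
      LcB.rho_mul, LcB.rho_mul, h2, add_zero, LcB.rho_pderiv, c'0, LcB.rho_subst] at h
    refine LcB.dvd_of (c := c) (d := d) ?_ h
    intro j hj
    rw [LcB.constantCoeff_rho, constantCoeff_equiv e, hdiv, hu0]
    have h3 := hc j hj
    intro h4
    apply h3
    rw [h4]
    ring

/-- The Jacobian ideal contains powers of the variables: it is the image of `(X_0^{M-1}, X_1, …)`. -/
theorem jac_powers {t : ℕ} {g : MvPowerSeries (Fin (t + 2)) ℂ}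
    (e : MvPowerSeries (Fin (t + 2)) ℂ ≃ₐ[ℂ] MvPowerSeries (Fin (t + 2)) ℂ) {M : ℕ} (hM : 2 ≤ M)
    {κ : PowerSeries ℂ} (hκ : PowerSeries.constantCoeff κ ≠ 0)
    (he : e g = kY t (PowerSeries.X ^ M * κ)) :
    ∃ N : ℕ, ∀ i, (MvPowerSeries.X i : MvPowerSeries (Fin (t + 2)) ℂ) ^ N ∈ JI g := by
  refine ⟨M - 1, fun i => ?_⟩
  rw [← LcB.equiv_mem e, he, LcB.mem_JI_kY hM hκ, map_pow]
  have h1 : (PowerSeries.X : PowerSeries ℂ) ∣ LcB.rho (e (MvPowerSeries.X i)) := by
    rw [PowerSeries.X_dvd_iff, LcB.constantCoeff_rho, constantCoeff_equiv e,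
      MvPowerSeries.constantCoeff_X]
  have h2 : ∀ n : ℕ, LcB.rho (e (MvPowerSeries.X i) ^ n) = LcB.rho (e (MvPowerSeries.X i)) ^ n := by
    intro n
    induction n with
    | zero =>
      rw [pow_zero, pow_zero]
      have := LcB.rho_C (t := t) 1
      rwa [map_one, map_one] at this
    | succ n ih => rw [pow_succ, pow_succ, LcB.rho_mul, ih]
  rw [h2]
  exact pow_dvd_pow_of_dvd h1 _

end YM

end MPb07157
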