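import Pool.Agent.Lib.MP_b07157_agYM.LcA
import Pool.Agent.Lib.MP_b07157_agYM.LcB
import Pool.Agent.Lib.MP_b07157_agYM.KosP

/-!
# The local statement at a double point
-/

noncomputable section

namespace MPb07157

open MvPolynomial

namespace YM

namespace LcCaux

theorem pderiv_comm {n : ℕ} (i j : Fin n) (f : MvPowerSeries (Fin n) ℂ) :
    MvPowerSeries.pderiv ℂ i (MvPowerSeries.pderiv ℂ j f) =
      MvPowerSeries.pderiv ℂ j (MvPowerSeries.pderiv ℂ i f) := by
  classical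
  ext m
  rw [MvPowerSeries.coeff_pderiv, MvPowerSeries.coeff_pderiv, MvPowerSeries.coeff_pderiv,
    MvPowerSeries.coeff_pderiv, add_right_comm]
  by_cases hij : i = j
  · subst hij
    rfl
  · rw [Finsupp.add_apply, Finsupp.add_apply, Finsupp.single_apply, Finsupp.single_apply,
      if_neg hij, if_neg (Ne.symm hij), add_zero, add_zero]
    ring

theorem antisymm_sum {n : ℕ} {κ d : Fin n → Fin n → MvPowerSeries (Fin n) ℂ}
    (hκ : ∀ i j, κ i j = -κ j i) (hd : ∀ i j, d i j = d j i) :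
    ∑ i, ∑ j, κ i j * d i j = 0 := by
  have h1 : ∑ i, ∑ j, κ i j * d i j = -∑ i, ∑ j, κ i j * d i j := by
    conv_lhs => rw [Finset.sum_comm]
    rw [← Finset.sum_neg_distrib]
    refine Finset.sum_congr rfl fun j _ => ?_
    rw [← Finset.sum_neg_distrib]
    refine Finset.sum_congr rfl fun i _ => ?_
    rw [hκ i j, hd i j]
    ring
  have h2 : (2 : MvPowerSeries (Fin n) ℂ) * ∑ i, ∑ j, κ i j * d i j = 0 := by
    linear_combination h1
  refine (mul_eq_zero.1 h2).resolve_left fun h3 => ?_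
  have h4 := congrArg (MvPowerSeries.constantCoeff (σ := Fin n) (R := ℂ)) h3
  rw [map_ofNat, map_zero] at h4
  exact two_ne_zero h4

/-- The divergence of a Koszul relation belongs to the Jacobian ideal. -/
theorem div_mem {n : ℕ} {g : MvPowerSeries (Fin n) ℂ} {v : Fin n → MvPowerSeries (Fin n) ℂ}
    (h : IsKos (fun j => MvPowerSeries.pderiv ℂ j g) v) :
    ∑ i, MvPowerSeries.pderiv ℂ i (v i) ∈ JI g := by
  classical
  obtain ⟨c, hc1, -, hc3⟩ := h
  have h1 : ∀ i, MvPowerSeries.pderiv ℂ i (v i) =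
      ∑ j, c i j * MvPowerSeries.pderiv ℂ i (MvPowerSeries.pderiv ℂ j g) +
        ∑ j, MvPowerSeries.pderiv ℂ j g * MvPowerSeries.pderiv ℂ i (c i j) := by
    intro i
    rw [hc3 i, map_sum, ← Finset.sum_add_distrib]
    refine Finset.sum_congr rfl fun j _ => ?_
    rw [Derivation.leibniz, smul_eq_mul, smul_eq_mul]
  rw [Finset.sum_congr rfl fun i _ => h1 i, Finset.sum_add_distrib,
    antisymm_sum hc1 fun i j => pderiv_comm i j g, zero_add]
  refine Ideal.sum_mem _ fun i _ => Ideal.sum_mem _ fun j _ => ?_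
  exact Ideal.mul_mem_right _ _ (Ideal.subset_span ⟨j, rfl⟩)

theorem natCast_eq {n : ℕ} (a : ℕ) :
    ((a : ℕ) : MvPowerSeries (Fin n) ℂ) = MvPowerSeries.C (a : ℂ) := by
  rw [map_natCast]

end LcCaux

/-- **The local statement.** With `χ` of `exists_euler`: `(β + d α χ)(g) = 0`, so `β + d α χ` is
Koszul (`koszul_of_powers_ps`, `jac_powers`), and its divergence belongs to `JI g`; also `g ∈ JI g`.
So `(d m + n) α - d div(α χ) ∈ JI g`. -/
theorem mem_of_corank {t : ℕ} {g : MvPowerSeries (Fin (t + 2)) ℂ}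
    (h0 : MvPowerSeries.constantCoeff g = 0)
    (h1 : ∀ i, MvPowerSeries.constantCoeff (MvPowerSeries.pderiv ℂ i g) = 0)
    (h2 : t + 1 ≤ (Matrix.of fun i j : Fin (t + 2) => MvPowerSeries.constantCoeff
      (MvPowerSeries.pderiv ℂ i (MvPowerSeries.pderiv ℂ j g)) :
        Matrix (Fin (t + 2)) (Fin (t + 2)) ℂ).rank)
    (hiso : ∃ N : ℕ, ∀ i, (MvPowerSeries.X i : MvPowerSeries (Fin (t + 2)) ℂ) ^ N ∈
      Ideal.span {g} ⊔ JI g) {d m : ℕ} (hd : 0 < d) (hm : 0 < m)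
    (hnum : (t + 1) * d ≤ 2 * (t + 3) ∨
      ((Matrix.of fun i j : Fin (t + 2) => MvPowerSeries.constantCoeff
        (MvPowerSeries.pderiv ℂ i (MvPowerSeries.pderiv ℂ j g)) :
          Matrix (Fin (t + 2)) (Fin (t + 2)) ℂ).rank = t + 2 ∧
        2 * (d * m + (t + 3)) ≠ (t + 2) * d))
    {α : MvPowerSeries (Fin (t + 2)) ℂ} {β : Fin (t + 2) → MvPowerSeries (Fin (t + 2)) ℂ}
    (e1 : (d : MvPowerSeries (Fin (t + 2)) ℂ) * α * g +
      ∑ i, β i * MvPowerSeries.pderiv ℂ i g = 0)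
    (e2 : ((d * m + (t + 3) : ℕ) : MvPowerSeries (Fin (t + 2)) ℂ) * α +
      ∑ i, MvPowerSeries.pderiv ℂ i (β i) = g ^ m) :
    α ∈ JI g ∧ ∃ N : ℕ, ∀ i, (MvPowerSeries.X i : MvPowerSeries (Fin (t + 2)) ℂ) ^ N ∈ JI g := by
  classical
  obtain ⟨e, M, κ, hM, hκ, he, hrk⟩ := exists_normal h0 h1 h2 hiso
  obtain ⟨χ, hχ, hE⟩ := exists_euler e hM hκ he
  obtain ⟨N, hN⟩ := jac_powers e hM hκ he
  refine ⟨?_, N, hN⟩
  have hsum : ∑ i, (β i + (d : MvPowerSeries (Fin (t + 2)) ℂ) * (α * χ i)) *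
      MvPowerSeries.pderiv ℂ i g = 0 := by
    have h3 : ∑ i, (β i + (d : MvPowerSeries (Fin (t + 2)) ℂ) * (α * χ i)) *
        MvPowerSeries.pderiv ℂ i g = ∑ i, β i * MvPowerSeries.pderiv ℂ i g +
          (d : MvPowerSeries (Fin (t + 2)) ℂ) * α * ∑ i, χ i * MvPowerSeries.pderiv ℂ i g := by
      rw [Finset.mul_sum, ← Finset.sum_add_distrib]
      exact Finset.sum_congr rfl fun i _ => by ring
    rw [h3, hχ]
    linear_combination e1
  have hdiv := LcCaux.div_mem (koszul_of_powers_ps (N := N)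
    (y := fun j => MvPowerSeries.pderiv ℂ j g) hN hsum)
  have hdiv2 : ∑ i, MvPowerSeries.pderiv ℂ i (β i +
      (d : MvPowerSeries (Fin (t + 2)) ℂ) * (α * χ i)) =
      ∑ i, MvPowerSeries.pderiv ℂ i (β i) + (d : MvPowerSeries (Fin (t + 2)) ℂ) *
        ∑ i, MvPowerSeries.pderiv ℂ i (α * χ i) := by
    rw [Finset.mul_sum, ← Finset.sum_add_distrib]
    refine Finset.sum_congr rfl fun i _ => ?_
    rw [map_add, Derivation.leibniz, Derivation.map_natCast, smul_zero, add_zero, smul_eq_mul]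
  rw [hdiv2] at hdiv
  have hg : g ∈ JI g := by
    have h3 : ∑ i, χ i * MvPowerSeries.pderiv ℂ i g ∈ JI g :=
      Ideal.sum_mem _ fun i _ => Ideal.mul_mem_left _ _ (Ideal.subset_span ⟨i, rfl⟩)
    rwa [hχ] at h3
  have hgm : g ^ m ∈ JI g := by
    obtain ⟨k, rfl⟩ := Nat.exists_eq_succ_of_ne_zero hm.ne'
    rw [pow_succ]
    exact Ideal.mul_mem_left _ _ hg
  refine hE ((d * m + (t + 3) : ℕ) : ℂ) (d : ℂ) (fun j hj hc => ?_) α ?_
  · have hM0 : (0 : ℝ) < M := by
      have : 0 < M := by omega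
      exact_mod_cast this
    have hc' : ((d * m + (t + 3) : ℕ) : ℝ) = (d : ℝ) * (((t : ℝ) + 1) / 2 + ((j : ℝ) + 1) / M) := by
      have h3 : (((d * m + (t + 3) : ℕ) : ℝ) : ℂ) =
          (((d : ℝ) * (((t : ℝ) + 1) / 2 + ((j : ℝ) + 1) / M) : ℝ) : ℂ) := by
        push_cast at hc ⊢
        exact hc
      exact_mod_cast h3
    rcases hnum with hn | ⟨hr, hn⟩
    · have hj' : ((j : ℝ) + 1) / M < 1 := by
        rw [div_lt_one hM0]
        exact_mod_cast hj
      have hn' : ((t : ℝ) + 1) * d ≤ 2 * ((t : ℝ) + 3) := by exact_mod_cast hn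
      have hd' : (0 : ℝ) < d := by exact_mod_cast hd
      have hm' : (1 : ℝ) ≤ m := by exact_mod_cast hm
      push_cast at hc'
      have h4 : (d : ℝ) * (((j : ℝ) + 1) / M) < d * m := by
        calc (d : ℝ) * (((j : ℝ) + 1) / M) < d * 1 := mul_lt_mul_of_pos_left hj' hd'
          _ ≤ d * m := mul_le_mul_of_nonneg_left hm' hd'.le
      have h5 : (d : ℝ) * (((t : ℝ) + 1) / 2 + ((j : ℝ) + 1) / M) =
          ((t : ℝ) + 1) * d / 2 + d * (((j : ℝ) + 1) / M) := by ring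
      rw [h5] at hc'
      linarith
    · have hM2 := hrk hr
      rw [hM2] at hj hc'
      have hj0 : j = 0 := by omega
      rw [hj0] at hc'
      push_cast at hc'
      apply hn
      have h4 : (2 : ℝ) * ((d : ℝ) * m + (t + 3)) = (t + 2) * d := by
        rw [hc']
        ring
      exact_mod_cast h4
  · rw [← LcCaux.natCast_eq, ← LcCaux.natCast_eq]
    have h3 : ((d * m + (t + 3) : ℕ) : MvPowerSeries (Fin (t + 2)) ℂ) * α -
        (d : MvPowerSeries (Fin (t + 2)) ℂ) * ∑ i, MvPowerSeries.pderiv ℂ i (α * χ i) =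
        g ^ m - (∑ i, MvPowerSeries.pderiv ℂ i (β i) + (d : MvPowerSeries (Fin (t + 2)) ℂ) *
          ∑ i, MvPowerSeries.pderiv ℂ i (α * χ i)) := by
      linear_combination e2
    rw [h3]
    exact Ideal.sub_mem _ hgm hdiv

end YM

end MPb07157
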