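import Pool.Agent.Lib.MP_b07157_agYM.Glob
import Pool.Agent.Lib.MP_b07157_agYM.LcC
import Pool.Agent.Lib.MP_b07157_agYM.ChA
import Pool.Agent.Lib.MP_b07157_agYM.ChB
import Pool.Agent.Lib.MP_b07157_agYM.BadN
import Pool.Agent.Lib.MP_b07157_agYM.IsoN
import Pool.Agent.Lib.MP_b07157_agYG.HsG

/-!
# The power F^(-n/d) is not a sum of derivatives
-/

noncomputable section

namespace MPb07157

open MvPolynomial

namespace YM

/-- Values of a form at a multiple of a point. -/
private theorem eval_smul_hom {n : ℕ} {S : MvPolynomial (Fin n) ℂ} {l : ℕ}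
    (hS : S.IsHomogeneous l) (c : ℂ) (q : Fin n → ℂ) : eval (c • q) S = c ^ l * eval q S := by
  rw [eval_eq', eval_eq', Finset.mul_sum]
  refine Finset.sum_congr rfl fun v hv => ?_
  have h1 : ∑ i, v i = l := by
    have := hS (mem_support_iff.1 hv)
    rw [← this]
    simp [Finsupp.weight_apply, Finsupp.sum_fintype]
  simp only [Pi.smul_apply, smul_eq_mul, mul_pow, Finset.prod_mul_distrib]
  rw [Finset.prod_pow_eq_pow_sum, h1]
  ring

private theorem constantCoeff_gchN {n : ℕ} (F : MvPolynomial (Fin (n + 1)) ℂ)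
    {q : Fin (n + 1) → ℂ} {j₀ : Fin (n + 1)} (hq : q j₀ = 1) :
    constantCoeff (SI.gch F q j₀) = eval q F := by
  have h1 := eval_gchN F q j₀ 0
  have h2 : (j₀.insertNth (α := fun _ => ℂ) 1 fun i => (0 : Fin n → ℂ) i + q (j₀.succAbove i)) =
      q := by
    funext i
    rcases Fin.eq_self_or_eq_succAbove j₀ i with rfl | ⟨m, rfl⟩
    · rw [Fin.insertNth_apply_same, hq]
    · rw [Fin.insertNth_apply_succAbove, Pi.zero_apply, zero_add]
  rw [h2] at h1
  rw [← h1, ← eval_zero]

/-- The Hessian matrix of the germ in the chart. -/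
private theorem hess_gchN {n : ℕ} (F : MvPolynomial (Fin (n + 1)) ℂ)
    {q : Fin (n + 1) → ℂ} {j₀ : Fin (n + 1)} (hq : q j₀ = 1) :
    (Matrix.of fun i j : Fin n => MvPowerSeries.constantCoeff (MvPowerSeries.pderiv ℂ i
      (MvPowerSeries.pderiv ℂ j (SI.gch F q j₀ : MvPowerSeries (Fin n) ℂ))) :
        Matrix (Fin n) (Fin n) ℂ) =
      Matrix.of fun i j : Fin n => YG.hessAt F q (j₀.succAbove i) (j₀.succAbove j) := by
  ext i j
  rw [Matrix.of_apply, Matrix.of_apply, MvPowerSeries.pderiv_coe, MvPowerSeries.pderiv_coe,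
    YG.cc_coeG, pderiv_gchN, pderiv_gchN, constantCoeff_gchN _ hq]
  rfl

/-- The rank of the Hessian matrix in the chart. -/
private theorem rank_gchN {n : ℕ} {F : MvPolynomial (Fin (n + 1)) ℂ} {d : ℕ}
    (hF : F.IsHomogeneous d) {q : Fin (n + 1) → ℂ} {j₀ : Fin (n + 1)} (hq : q j₀ = 1)
    (hs : ∀ j, eval q (pderiv j F) = 0) :
    (YG.hessAt F q).rank ≤
      (Matrix.of fun i j : Fin n => MvPowerSeries.constantCoeff (MvPowerSeries.pderiv ℂ i
        (MvPowerSeries.pderiv ℂ j (SI.gch F q j₀ : MvPowerSeries (Fin n) ℂ))) :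
          Matrix (Fin n) (Fin n) ℂ).rank := by
  rw [hess_gchN F hq]
  refine YG.rank_le_block hq (fun i j => ?_) fun i => ?_
  · unfold YG.hessAt
    rw [Matrix.of_apply, Matrix.of_apply, YG.pd_commG]
  · have h1 := (hF.pderiv (i := i)).sum_X_mul_pderiv
    have h2 := congrArg (eval q) h1
    rw [map_sum, map_nsmul, hs i, smul_zero] at h2
    rw [← h2]
    refine Finset.sum_congr rfl fun j _ => ?_
    unfold YG.hessAt
    rw [Matrix.of_apply, map_mul, eval_X, mul_comm, YG.pd_commG]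

/-- **The power `F^(-n/d)`**, `n = t + 3`, of a form such that the projective hypersurface `F = 0` has
finitely many singular points, all nodes or, if `(n - 2) d ≤ 2 n`, of corank one, is not a sum of
derivatives, if each linear vector field which kills `F` has divergence zero; for nodes, `n/d + m` must
not be `(n - 1)/2`. As `YN.nonEx_of_double` (`agYN/NonExD.lean`). -/
theorem nonEx_of_corank {t : ℕ} {F : MvPolynomial (Fin (t + 3)) ℂ} {d : ℕ} (hd : 2 ≤ d)
    (hF : F.IsHomogeneous d) (hF0 : F ≠ 0) (hfin : YG.FinSing F)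
    (hsing : ∀ q : Fin (t + 3) → ℂ, q ≠ 0 → (∀ j, eval q (pderiv j F) = 0) →
      ((t + 1) * d ≤ 2 * (t + 3) ∧ t + 1 ≤ (YG.hessAt F q).rank) ∨
      ((YG.hessAt F q).rank = t + 2 ∧ ∀ m : ℕ, 0 < m → 2 * (d * m + (t + 3)) ≠ (t + 2) * d))
    (hNS : NS F) : NonEx F (((t : ℂ) + 3) / (d : ℂ)) := by
  by_contra hne
  have hd0 : 0 < d := by omega
  have hcast : ((t + 3 : ℕ) : ℂ) = (t : ℂ) + 3 := by push_cast; ring
  rw [← hcast] at hne
  obtain ⟨m, hm⟩ := bad_of_not_nonEx (Nat.succ_pos (t + 2)) hd0 hF hF0 hne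
  induction m with
  | zero =>
    obtain ⟨v, hv, hvF, hdiv⟩ := hm.homog hF
    have h1 := hNS v (fun i => by simpa using hv i) hvF
    rw [h1, pow_zero] at hdiv
    exact zero_ne_one hdiv
  | succ m ih =>
    obtain ⟨v, hv, hvF, hdiv⟩ := hm.homog hF
    have hp0 : ∀ i, eval 0 (pderiv i F) = 0 := by
      intro i
      have h1 := eval_smul_hom (hF.pderiv (i := i)) 0 0
      rw [zero_smul, zero_pow (by omega), zero_mul] at h1
      exact h1
    refine ih (Bad.pred (Nat.succ_pos (t + 2)) hd0 hF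
      (isKos_of_local hfin hp0 hvF fun p hp hs => ?_) hdiv)
    obtain ⟨j₀, hj⟩ := Function.ne_iff.1 hp
    rw [Pi.zero_apply] at hj
    set q : Fin (t + 3) → ℂ := (p j₀)⁻¹ • p with hqdef
    have hpq : p = p j₀ • q := by
      rw [hqdef, smul_smul, mul_inv_cancel₀ hj, one_smul]
    have hq : q j₀ = 1 := by
      rw [hqdef, Pi.smul_apply, smul_eq_mul, inv_mul_cancel₀ hj]
    have hq0 : q ≠ 0 := by
      intro h
      rw [h] at hq
      exact zero_ne_one hq
    have hsq' : ∀ j, eval q (pderiv j F) = 0 := by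
      intro j
      rw [hqdef, eval_smul_hom (hF.pderiv (i := j)), hs j, mul_zero]
    have hFq : eval q F = 0 := by
      have h1 := congrArg (eval q) hF.sum_X_mul_pderiv
      rw [map_sum, map_nsmul, Finset.sum_eq_zero (fun j _ => by
        rw [map_mul, hsq' j, mul_zero])] at h1
      rw [nsmul_eq_mul] at h1
      exact (mul_eq_zero.1 h1.symm).resolve_left (by exact_mod_cast hd0.ne')
    set g : MvPowerSeries (Fin (t + 2)) ℂ := (SI.gch F q j₀ : MvPowerSeries (Fin (t + 2)) ℂ)
      with hg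
    have h0 : MvPowerSeries.constantCoeff g = 0 := by
      rw [hg, YG.cc_coeG, constantCoeff_gchN _ hq, hFq]
    have h1 : ∀ i, MvPowerSeries.constantCoeff (MvPowerSeries.pderiv ℂ i g) = 0 := by
      intro i
      rw [hg, MvPowerSeries.pderiv_coe, YG.cc_coeG, pderiv_gchN, constantCoeff_gchN _ hq]
      exact hsq' _
    have hrank := rank_gchN hF hq hsq'
    have hcard := Matrix.rank_le_card_width (Matrix.of fun i j : Fin (t + 2) =>
      MvPowerSeries.constantCoeff (MvPowerSeries.pderiv ℂ i (MvPowerSeries.pderiv ℂ j g)) :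
        Matrix (Fin (t + 2)) (Fin (t + 2)) ℂ)
    rw [Fintype.card_fin] at hcard
    have hiso := isoSing_gchN hF hfin q j₀
    obtain ⟨e1, e2⟩ := chart_eqs hF hv hvF hdiv q j₀
    have e1' := congrArg
      (MvPolynomial.coeToMvPowerSeries.ringHom (R := ℂ) (σ := Fin (t + 2))) e1
    have e2' := congrArg
      (MvPolynomial.coeToMvPowerSeries.ringHom (R := ℂ) (σ := Fin (t + 2))) e2
    rw [map_add, map_mul, map_mul, map_natCast, map_sum, map_zero] at e1'
    rw [map_add, map_mul, map_natCast, map_sum, map_pow] at e2'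
    simp only [map_mul, MvPolynomial.coeToMvPowerSeries.ringHom_apply,
      ← MvPowerSeries.pderiv_coe] at e1' e2'
    obtain ⟨hc, hN⟩ := mem_of_corank h0 h1 (m := m + 1) (d := d)
      ((by
        rcases hsing q hq0 hsq' with h | h
        · exact h.2
        · rw [h.1]; exact Nat.le_succ _ : t + 1 ≤ (YG.hessAt F q).rank).trans hrank)
      hiso hd0 (Nat.succ_pos m)
      (by
        rcases hsing q hq0 hsq' with h | h
        · exact Or.inl h.1
        · exact Or.inr ⟨le_antisymm hcard (h.1.symm.le.trans hrank), h.2 _ (Nat.succ_pos m)⟩)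
      e1' e2'
    obtain ⟨S, k, hS, hSq, hk⟩ := local_kos hd0 hF hv hvF hq hN hc
    refine ⟨S, ?_, hk⟩
    rw [hpq, eval_smul_hom hS]
    exact mul_ne_zero (pow_ne_zero _ hj) hSq

end YM

end MPb07157
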