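import Pool.Agent.Lib.MP_b07157_agYM.NonExN
import Pool.Agent.Lib.MP_b07157_agYM.NSK
import Pool.Agent.Lib.MP_b07157_agYG.MainG
import Pool.Agent.Lib.MP_b07157_agYH.A6
import Pool.Agent.Lib.MP_b07157_agYH.A7

/-!
# Hypersurface germs in at least four variables whose tangent cone has nodes or points of corank one
-/

noncomputable section

namespace MPb07157

open MvPolynomial

namespace YM

/-- All singular points of the projective hypersurface `F = 0` are nodes. -/
def Nodal {t : ℕ} (F : MvPolynomial (Fin (t + 3)) ℂ) : Prop :=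
  ∀ q : Fin (t + 3) → ℂ, q ≠ 0 → (∀ j, eval q (pderiv j F) = 0) →
    (YG.hessAt F q).rank = t + 2

/-- The points of a form with singular points of corank at most one have multiplicity at most
two. -/
theorem multLe_of_rank {t : ℕ} {F : MvPolynomial (Fin (t + 3)) ℂ} {q : Fin (t + 3) → ℂ}
    (h : (∀ j, eval q (pderiv j F) = 0) → 1 ≤ (YG.hessAt F q).rank) : YH.MultLe F q 2 := by
  by_cases hs : ∀ j, eval q (pderiv j F) = 0
  · have h1 := h hs
    by_contra hcon
    have h2 : YG.hessAt F q = 0 := by
      ext i j
      by_contra hij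
      exact hcon (YH.multLe_two (i := i) (j := j) hij)
    rw [h2, Matrix.rank_zero] at h1
    omega
  · push Not at hs
    obtain ⟨j, hj⟩ := hs
    exact (YH.multLe_one hj).mono (by omega)

end YM

/-- **Hypersurface germs in `n = t + 3 ≥ 4` variables whose tangent cone has nodes or points of corank
one.** Let `f` be an isolated singularity of multiplicity `d ≥ 3` such that the projective
hypersurface `f_d = 0` has finitely many singular points, each of which is a node or, if
`(n - 2) d ≤ 2 n`, a point of corank one. Assume that `n/d + m ≠ (n - 1)/2` for all `m ≥ 1`, unless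
`d = n` or `d ≥ 2 n`, and that all singular points are nodes, or all linear vector fields which kill
`f_d` have divergence zero, unless `d = n`. -/
theorem SmcLoc.of_tcN {t : ℕ} {f : MvPolynomial (Fin (t + 3)) ℂ} {d : ℕ} (hf : YG.IsTCG f d)
    (h1 : d = t + 3 ∨ 2 * (t + 3) ≤ d ∨ ∀ m : ℕ, 0 < m → 2 * (d * m + (t + 3)) ≠ (t + 2) * d)
    (h2 : d = t + 3 ∨ YM.Nodal (homogeneousComponent d f) ∨ NS (homogeneousComponent d f)) :
    SmcLoc f := by
  intro s₀ _ hp b hb
  have hd := hf.hd
  have hF0 : homogeneousComponent d f ≠ 0 := by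
    intro h0
    have h3 := hf.sing (fun _ => 1) (fun h => one_ne_zero (congrFun h 0)) (fun j => by
      rw [h0, map_zero, map_zero])
    have h4 : YG.hessAt (homogeneousComponent d f) (fun _ => (1 : ℂ)) = 0 := by
      ext i j
      show eval _ (pderiv i (pderiv j (homogeneousComponent d f))) = 0
      rw [h0, map_zero, map_zero, map_zero]
    rw [h4, Matrix.rank_zero] at h3
    omega
  have hf0 : f ≠ 0 := by
    rintro rfl
    exact hF0 (map_zero _)
  have h00 : coeff 0 f = 0 := by
    have h1 := hf.low 0 (by omega)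
    rw [homogeneousComponent_zero] at h1
    exact C_eq_zero.1 h1
  by_cases hs1 : s₀ = -1
  · subst hs1
    exact neg_one_root hf0 (by rwa [notMem_support_iff]) b hb
  have hcase : d = t + 3 → s₀ = -(((t : ℚ) + 3) / d) → s₀ = -1 := by
    intro h5 h6
    have h7 : ((t : ℚ) + 3) ≠ 0 := by positivity
    rw [h6, h5]
    push_cast
    rw [div_self h7]
  rcases h1 with h1 | h1 | h1
  · exact YG.smc_tcG hf (fun h => absurd (hcase h1 h) hs1) hp hb
  · refine YG.smc_tcG hf (fun _ => Or.inl ?_) hp hb
    have h5 := YH.hasLct_of_mult (n := t + 3) (by omega) (by omega) hf.low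
      (fun p hp => ⟨2, h1, YM.multLe_of_rank fun hs => by
        rcases hf.sing p hp hs with h | h <;> omega⟩)
    push_cast at h5
    exact h5
  rcases h2 with h2 | h2
  · exact YG.smc_tcG hf (fun h => absurd (hcase h2 h) hs1) hp hb
  have hNS : NS (homogeneousComponent d f) := h2.elim
    (fun h => YM.ns_of_nodal hf.ht hd (homogeneousComponent_isHomogeneous d f) h) id
  refine YG.smc_tcG hf (fun _ => Or.inr (YM.nonEx_of_corank (by omega)
    (homogeneousComponent_isHomogeneous d f) hF0 hf.fin (fun q hq hs => ?_) hNS)) hp hb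
  rcases hf.sing q hq hs with h | h
  · exact Or.inr ⟨h, h1⟩
  · exact Or.inl h

end MPb07157
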