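import Pool.Agent.Lib.MP_b07157_agYG.Defs
import Pool.Agent.Lib.MP_b07157_agM.CDefs

/-!
# Vector fields which kill a form in n variables: definitions
-/

noncomputable section

namespace MPb07157

open MvPolynomial

namespace YM

/-- The tuple `v` is a combination of the Koszul relations between the `y_i`. -/
def IsKos {R : Type*} [CommRing R] {n : ℕ} (y v : Fin n → R) : Prop :=
  ∃ c : Fin n → Fin n → R, (∀ i j, c i j = -c j i) ∧ (∀ i, c i i = 0) ∧
    ∀ i, v i = ∑ j, c i j * y j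

/-- A polynomial vector field with `v(F) = 0` and `div v = F^m`. -/
def Bad {n : ℕ} (F : MvPolynomial (Fin n) ℂ) (m : ℕ) : Prop :=
  ∃ v : Fin n → MvPolynomial (Fin n) ℂ, ∑ i, v i * pderiv i F = 0 ∧ ∑ i, pderiv i (v i) = F ^ m

/-- The power series `k(X_0) + ∑_{i > 0} X_i²`. -/
def kY (t : ℕ) (k : PowerSeries ℂ) : MvPowerSeries (Fin (t + 2)) ℂ :=
  PowerSeries.subst (MvPowerSeries.X 0 : MvPowerSeries (Fin (t + 2)) ℂ) k +
    ∑ i : Fin (t + 1), MvPowerSeries.X i.succ ^ 2

/-- The Jacobian ideal. -/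
def JI {n : ℕ} (g : MvPowerSeries (Fin n) ℂ) : Ideal (MvPowerSeries (Fin n) ℂ) :=
  Ideal.span (Set.range fun j : Fin n => MvPowerSeries.pderiv ℂ j g)

end YM

end MPb07157
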