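import Pool.Agent.Lib.MP_b07157_agYM.KosD

/-!
# The Koszul relations: from local to global
-/

noncomputable section

namespace MPb07157

open MvPolynomial

namespace YM

/-- The ideal of the `s` such that `s v` is Koszul. -/
private def kosIdealN {n : ℕ} (y v : Fin n → MvPolynomial (Fin n) ℂ) :
    Ideal (MvPolynomial (Fin n) ℂ) where
  carrier := {s | IsKos y fun i => s * v i}
  zero_mem' := ⟨fun _ _ => 0, fun i j => neg_zero.symm, fun i => rfl, fun i => by
    show 0 * v i = ∑ j, 0 * y j
    rw [zero_mul]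
    symm
    exact Finset.sum_eq_zero fun j _ => zero_mul _⟩
  add_mem' := by
    rintro s t ⟨b, b1, b2, b3⟩ ⟨c, c1, c2, c3⟩
    refine ⟨fun i j => b i j + c i j, fun i j => ?_, fun i => ?_, fun i => ?_⟩
    · show b i j + c i j = -(b j i + c j i)
      rw [b1 i j, c1 i j]
      ring
    · show b i i + c i i = 0
      rw [b2, c2, add_zero]
    · have h1 : s * v i = ∑ j, b i j * y j := b3 i
      have h2 : t * v i = ∑ j, c i j * y j := c3 i
      show (s + t) * v i = ∑ j, (b i j + c i j) * y j
      rw [add_mul, h1, h2, ← Finset.sum_add_distrib]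
      exact Finset.sum_congr rfl fun j _ => (add_mul _ _ _).symm
  smul_mem' := by
    rintro t s ⟨b, b1, b2, b3⟩
    refine ⟨fun i j => t * b i j, fun i j => ?_, fun i => ?_, fun i => ?_⟩
    · show t * b i j = -(t * b j i)
      rw [b1 i j]
      ring
    · show t * b i i = 0
      rw [b2, mul_zero]
    · have h1 : s * v i = ∑ j, b i j * y j := b3 i
      show (t * s) * v i = ∑ j, (t * b i j) * y j
      rw [mul_assoc, h1, Finset.mul_sum]
      exact Finset.sum_congr rfl fun j _ => (mul_assoc _ _ _).symm

private theorem mem_kosIdealN {n : ℕ} {y v : Fin n → MvPolynomial (Fin n) ℂ}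
    {s : MvPolynomial (Fin n) ℂ} : s ∈ kosIdealN y v ↔ IsKos y fun i => s * v i := Iff.rfl

private theorem self_mem_kosIdealN {n : ℕ} {y v : Fin n → MvPolynomial (Fin n) ℂ}
    (hv : ∑ i, v i * y i = 0) (j : Fin n) : y j ∈ kosIdealN y v := by
  classical
  rw [mem_kosIdealN]
  refine ⟨fun i l => (if l = j then v i else 0) - (if i = j then v l else 0), fun i l => ?_,
    fun i => sub_self _, fun i => ?_⟩
  · show (if l = j then v i else 0) - (if i = j then v l else 0) =
      -((if i = j then v l else 0) - (if l = j then v i else 0))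
    ring
  · show y j * v i = ∑ l, ((if l = j then v i else 0) - (if i = j then v l else 0)) * y l
    have h1 : ∑ l, ((if l = j then v i else 0) - (if i = j then v l else 0)) * y l =
        v i * y j - (if i = j then ∑ l, v l * y l else 0) := by
      simp only [sub_mul, Finset.sum_sub_distrib]
      congr 1
      · rw [Finset.sum_eq_single j]
        · rw [if_pos rfl]
        · intro l _ hl
          rw [if_neg hl, zero_mul]
        · intro h
          exact absurd (Finset.mem_univ _) h
      · split_ifs with h2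
        · rfl
        · exact Finset.sum_eq_zero fun l _ => zero_mul _
    rw [h1, hv]
    split_ifs <;> ring

/-- A linear form which does not vanish at finitely many points. -/
private theorem exists_lin_ne {n : ℕ} (P : Finset (Fin (n + 1) → ℂ)) :
    ∃ a : Fin (n + 1) → ℂ, a 0 ≠ 0 ∧ ∀ p ∈ P, p ≠ 0 → ∑ i, a i * p i ≠ 0 := by
  classical
  set Q : MvPolynomial (Fin (n + 1)) ℂ := X 0 * ∏ p ∈ P.filter fun p => p ≠ 0,
    ∑ i, X i * C (p i) with hQ
  have hQ0 : Q ≠ 0 := by
    rw [hQ]
    refine mul_ne_zero (X_ne_zero _) (Finset.prod_ne_zero_iff.2 fun p hp h => ?_)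
    rw [Finset.mem_filter] at hp
    apply hp.2
    funext i
    have h1 := congrArg (eval (Pi.single i (1 : ℂ))) h
    rw [map_sum, map_zero, Finset.sum_eq_single i] at h1
    · rw [map_mul, eval_X, eval_C, Pi.single_eq_same, one_mul] at h1
      exact h1
    · intro l _ hl
      rw [map_mul, eval_X, Pi.single_eq_of_ne hl, zero_mul]
    · intro h
      exact absurd (Finset.mem_univ _) h
  obtain ⟨a, ha⟩ : ∃ a, eval a Q ≠ 0 := by
    by_contra hcon
    push Not at hcon
    exact hQ0 (MvPolynomial.funext fun v => by rw [hcon, map_zero])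
  rw [hQ, map_mul, eval_X, map_prod] at ha
  refine ⟨a, left_ne_zero_of_mul ha, fun p hp hp0 h => ?_⟩
  refine Finset.prod_ne_zero_iff.1 (right_ne_zero_of_mul ha) p
    (Finset.mem_filter.2 ⟨hp, hp0⟩) ?_
  rw [map_sum, ← h]
  refine Finset.sum_congr rfl fun i _ => ?_
  rw [map_mul, eval_X, eval_C]

/-- **From local to global.** The ideal of the `s` such that `s v` is Koszul has no zeros `p ≠ 0` (at
the `p` with `∂_j F(p) ≠ 0`: `s = ∂_j F`), so it contains powers of the variables, and of a linear
form `ℓ` without zeros at the finitely many singular lines (Nullstellensatz); use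
`isKos_of_linear_mul`. -/
theorem isKos_of_local {n : ℕ} {F : MvPolynomial (Fin (n + 1)) ℂ} (hfin : YG.FinSing F)
    (hF0 : ∀ i, eval 0 (pderiv i F) = 0)
    {v : Fin (n + 1) → MvPolynomial (Fin (n + 1)) ℂ} (hv : ∑ i, v i * pderiv i F = 0)
    (h : ∀ p : Fin (n + 1) → ℂ, p ≠ 0 → (∀ j, eval p (pderiv j F) = 0) →
      ∃ s, eval p s ≠ 0 ∧ IsKos (fun i => pderiv i F) fun i => s * v i) :
    IsKos (fun i => pderiv i F) v := by
  have _ := hF0
  obtain ⟨P, hP⟩ := hfin
  obtain ⟨a, ha0, ha⟩ := exists_lin_ne P
  set ℓ : MvPolynomial (Fin (n + 1)) ℂ := ∑ i, C (a i) * X i with hl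
  have hle : ∀ p, eval p ℓ = ∑ i, a i * p i := by
    intro p
    rw [hl, map_sum]
    refine Finset.sum_congr rfl fun i _ => ?_
    rw [map_mul, eval_X, eval_C]
  have hlh : ℓ.IsHomogeneous 1 := by
    rw [hl]
    refine IsHomogeneous.sum _ _ _ fun i _ => ?_
    have h1 := (isHomogeneous_C (Fin (n + 1)) (a i)).mul (isHomogeneous_X ℂ i)
    rwa [zero_add] at h1
  have hl0 : ℓ ≠ 0 := by
    intro h0
    apply ha0
    have h1 := hle (Pi.single 0 1)
    rw [h0, map_zero, Finset.sum_eq_single 0, Pi.single_eq_same, mul_one] at h1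
    · exact h1.symm
    · intro l _ hl'
      rw [Pi.single_eq_of_ne hl', mul_zero]
    · intro h
      exact absurd (Finset.mem_univ _) h
  have hz : ∀ p : Fin (n + 1) → ℂ, (∀ i, eval p (pderiv i F) = 0) → eval p ℓ = 0 → p = 0 := by
    intro q hq hlq
    by_contra hq0
    obtain ⟨p, hp, c, rfl⟩ := hP q hq0 hq
    have hc : c ≠ 0 := by
      rintro rfl
      exact hq0 (zero_smul _ _)
    have hp0 : p ≠ 0 := by
      rintro rfl
      exact hq0 (smul_zero _)
    apply ha p hp hp0
    rw [hle] at hlq
    have h1 : ∑ i, a i * (c • p) i = c * ∑ i, a i * p i := by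
      rw [Finset.mul_sum]
      refine Finset.sum_congr rfl fun i _ => ?_
      rw [Pi.smul_apply, smul_eq_mul]
      ring
    rw [h1] at hlq
    exact (mul_eq_zero.1 hlq).resolve_left hc
  have hrad : ℓ ∈ (kosIdealN (fun i => pderiv i F) v).radical := by
    rw [← vanishingIdeal_zeroLocus_eq_radical (K := ℂ), mem_vanishingIdeal_iff]
    intro p hp
    have hp0 : p = 0 := by
      by_contra hp0
      rw [mem_zeroLocus_iff] at hp
      by_cases hj : ∀ j, eval p (pderiv j F) = 0
      · obtain ⟨s, hs, hk⟩ := h p hp0 hj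
        exact hs (hp s (mem_kosIdealN.2 hk))
      · push Not at hj
        obtain ⟨i, hi⟩ := hj
        exact hi (hp _ (self_mem_kosIdealN hv i))
    have h1 := hle p
    rw [hp0] at h1
    rw [hp0]
    refine Eq.trans ?_ (h1.trans ?_)
    · rfl
    · exact Finset.sum_eq_zero fun i _ => by rw [Pi.zero_apply, mul_zero]
  obtain ⟨N, hN⟩ := hrad
  have key : ∀ N : ℕ, (IsKos (fun i => pderiv i F) fun i => ℓ ^ N * v i) →
      IsKos (fun i => pderiv i F) v := by
    intro N
    induction N with
    | zero =>
      intro h1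
      have e : (fun i => ℓ ^ 0 * v i) = v := by
        funext i
        rw [pow_zero, one_mul]
      rwa [e] at h1
    | succ N ih =>
      intro h1
      apply ih
      apply isKos_of_linear_mul hlh hl0 hz
      have e : (fun i => ℓ * (ℓ ^ N * v i)) = fun i => ℓ ^ (N + 1) * v i := by
        funext i
        rw [pow_succ]
        ring
      rw [e]
      exact h1
  exact key N hN

end YM

end MPb07157
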