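import Pool.Agent.Lib.MP_b07157_agYM.Defs
import Pool.Agent.Lib.MP_b07157_agI.KosA

/-!
# Exactness of the Koszul complex, the second step
-/

noncomputable section

namespace MPb07157

open MvPolynomial

namespace YM

section

open CliffordAlgebra ExteriorAlgebra MPb07157I

variable {R : Type*} [CommRing R] {n : ℕ}

/-- The product `b_{j-1} ∧ … ∧ b_0 ∧ w`. -/
def wk (w : ExteriorAlgebra R (Fin n → R)) (b : ℕ → Fin n → R) :
    ℕ → ExteriorAlgebra R (Fin n → R)
  | 0 => w
  | j + 1 => ExteriorAlgebra.ι R (b j) * wk w b j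

theorem extPow_bot {m : ℕ} (hm : n < m) (x : ExteriorAlgebra R (Fin n → R))
    (hx : x ∈ LinearMap.range (ExteriorAlgebra.ι R (M := Fin n → R)) ^ m) : x = 0 := by
  have h : (ιMulti R m : (Fin n → R) [⋀^Fin m]→ₗ[R] _) = 0 := by
    apply Module.Basis.ext_alternating (Pi.basisFun R (Fin n))
    intro v hv
    exfalso
    have := Fintype.card_le_of_injective v hv
    simp at this
    omega
  have h2 : x ∈ Submodule.span R (Set.range (ιMulti R m (M := Fin n → R))) := by
    rw [ιMulti_span_fixedDegree]
    exact hx
  rw [h] at h2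
  have h3 : Set.range (0 : (Fin n → R) [⋀^Fin m]→ₗ[R] ExteriorAlgebra R (Fin n → R)) ⊆ {0} := by
    rintro _ ⟨v, rfl⟩
    simp
  have h4 := Submodule.span_mono h3 h2
  rw [Submodule.span_zero_singleton, Submodule.mem_bot] at h4
  exact h4

theorem wk_mem (w : ExteriorAlgebra R (Fin n → R)) (b : ℕ → Fin n → R)
    (hw : w ∈ LinearMap.range (ExteriorAlgebra.ι R (M := Fin n → R)) ^ 2) (j : ℕ) :
    wk w b j ∈ LinearMap.range (ExteriorAlgebra.ι R (M := Fin n → R)) ^ (j + 2) := by
  induction j with
  | zero => exact hw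
  | succ j ih =>
    have e : j + 1 + 2 = (j + 2) + 1 := by omega
    rw [e, pow_succ']
    exact Submodule.mul_mem_mul ⟨_, rfl⟩ ih

/-- The element of degree two with the coefficients `a i j`, `i < j`. -/
def om (a : Fin n → Fin n → R) : ExteriorAlgebra R (Fin n → R) :=
  ∑ i, ∑ j, (if i < j then a i j else 0) •
    (ExteriorAlgebra.ι R (Pi.single i (1 : R) : Fin n → R) *
      ExteriorAlgebra.ι R (Pi.single j (1 : R) : Fin n → R))

theorem om_mem (a : Fin n → Fin n → R) :
    om a ∈ LinearMap.range (ExteriorAlgebra.ι R (M := Fin n → R)) ^ 2 := by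
  refine Submodule.sum_mem _ fun i _ => Submodule.sum_mem _ fun j _ => ?_
  refine Submodule.smul_mem _ _ ?_
  rw [pow_two]
  exact Submodule.mul_mem_mul ⟨_, rfl⟩ ⟨_, rfl⟩

theorem contract_pair (d : Module.Dual R (Fin n → R)) (u v : Fin n → R) :
    contractLeft (Q := (0 : QuadraticForm R (Fin n → R))) d
        (ExteriorAlgebra.ι R u * ExteriorAlgebra.ι R v) =
      ExteriorAlgebra.ι R (d u • v - d v • u) := by
  have h1 := contractLeft_ι_mul (Q := (0 : QuadraticForm R (Fin n → R))) d u
    (ExteriorAlgebra.ι R v)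
  have h2 := contractLeft_ι (Q := (0 : QuadraticForm R (Fin n → R))) d v
  have h3 : contractLeft (Q := (0 : QuadraticForm R (Fin n → R))) d (ExteriorAlgebra.ι R v) =
      algebraMap R _ (d v) := h2
  rw [h3] at h1
  have h4 : contractLeft (Q := (0 : QuadraticForm R (Fin n → R))) d
      (ExteriorAlgebra.ι R u * ExteriorAlgebra.ι R v) =
      d u • ExteriorAlgebra.ι R v - ExteriorAlgebra.ι R u * algebraMap R _ (d v) := h1
  rw [h4, map_sub, map_smul, map_smul, ← Algebra.commutes, ← Algebra.smul_def]

theorem contract_om {a : Fin n → Fin n → R} (ha1 : ∀ i j, a i j = -a j i)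
    (ha2 : ∀ i, a i i = 0) (d : Module.Dual R (Fin n → R)) :
    contractLeft (Q := (0 : QuadraticForm R (Fin n → R))) d (om a) =
      ExteriorAlgebra.ι R (fun i => -∑ j, a i j * d (Pi.single j (1 : R))) := by
  have h1 : contractLeft (Q := (0 : QuadraticForm R (Fin n → R))) d (om a) =
      ExteriorAlgebra.ι R (∑ i, ∑ j, (if i < j then a i j else 0) •
        (d (Pi.single i (1 : R)) • (Pi.single j (1 : R) : Fin n → R) -
          d (Pi.single j (1 : R)) • (Pi.single i (1 : R) : Fin n → R))) := by
    unfold om
    rw [map_sum, map_sum]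
    refine Finset.sum_congr rfl fun i _ => ?_
    rw [map_sum, map_sum]
    refine Finset.sum_congr rfl fun j _ => ?_
    rw [map_smul, map_smul, contract_pair]
  rw [h1]
  congr 1
  funext l
  rw [Finset.sum_apply]
  have h2 : ∀ i : Fin n, (∑ j, (if i < j then a i j else 0) •
        (d (Pi.single i (1 : R)) • (Pi.single j (1 : R) : Fin n → R) -
          d (Pi.single j (1 : R)) • (Pi.single i (1 : R) : Fin n → R))) l =
      (if i < l then a i l else 0) * d (Pi.single i (1 : R)) -
        (if i = l then ∑ j, (if i < j then a i j else 0) * d (Pi.single j (1 : R)) else 0) := by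
    intro i
    rw [Finset.sum_apply]
    have h3 : ∀ j : Fin n, ((if i < j then a i j else 0) •
        (d (Pi.single i (1 : R)) • (Pi.single j (1 : R) : Fin n → R) -
          d (Pi.single j (1 : R)) • (Pi.single i (1 : R) : Fin n → R))) l =
        (if l = j then (if i < l then a i l else 0) * d (Pi.single i (1 : R)) else 0) -
          (if i = l then (if i < j then a i j else 0) * d (Pi.single j (1 : R)) else 0) := by
      intro j
      simp only [Pi.smul_apply, Pi.sub_apply, smul_eq_mul, Pi.single_apply]
      by_cases h4 : l = j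
      · subst h4
        by_cases h5 : i = l
        · subst h5
          simp
        · have h6 : ¬ l = i := fun h => h5 h.symm
          simp [h5, h6]
      · by_cases h5 : i = l
        · subst h5
          simp [h4]
        · have h6 : ¬ l = i := fun h => h5 h.symm
          simp [h4, h5, h6]
    rw [Finset.sum_congr rfl fun j _ => h3 j, Finset.sum_sub_distrib, Finset.sum_ite_eq]
    congr 1
    · simp
    · by_cases h5 : i = l
      · simp [h5]
      · simp [h5]
  rw [Finset.sum_congr rfl fun i _ => h2 i, Finset.sum_sub_distrib, Finset.sum_ite_eq']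
  rw [if_pos (Finset.mem_univ _), ← Finset.sum_sub_distrib, ← Finset.sum_neg_distrib]
  refine Finset.sum_congr rfl fun i _ => ?_
  rcases lt_trichotomy i l with h | h | h
  · rw [if_pos h, if_neg (not_lt.2 h.le), zero_mul, sub_zero, ha1 i l, neg_mul]
  · subst h
    rw [if_neg (lt_irrefl _), ha2]
    simp
  · rw [if_pos h, if_neg (not_lt.2 h.le), zero_mul, zero_sub]

end

/-- The element of degree two is a boundary. -/
theorem exists_bd {R : Type*} [CommRing R] {n k : ℕ} (hk : n ≤ k + 1) {y : Fin n → R} {z : ℕ → R}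
    {b : ℕ → Fin n → R} (hz : ∀ j, z j = ∑ i, b j i * y i)
    (hreg : ∀ j < k, ∀ r, z j * r ∈ Ideal.span (z '' {l | l < j}) →
      r ∈ Ideal.span (z '' {l | l < j}))
    {a : Fin n → Fin n → R} (ha1 : ∀ i j, a i j = -a j i) (ha2 : ∀ i, a i i = 0)
    (ha : ∀ i, ∑ j, a i j * y j = 0) :
    ∃ E, om a = CliffordAlgebra.contractLeft (Q := (0 : QuadraticForm R (Fin n → R)))
      (MPb07157I.dy y) E := by
  classical
  set D : ExteriorAlgebra R (Fin n → R) →ₗ[R] ExteriorAlgebra R (Fin n → R) :=
    CliffordAlgebra.contractLeft (MPb07157I.dy y) with hD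
  have hD1 : ∀ (v : Fin n → R) (x : ExteriorAlgebra R (Fin n → R)),
      D (ExteriorAlgebra.ι R v * x) = MPb07157I.dy y v • x - ExteriorAlgebra.ι R v * D x :=
    fun v x => CliffordAlgebra.contractLeft_ι_mul (MPb07157I.dy y) v x
  have hDD : ∀ x, D (D x) = 0 := fun x =>
    CliffordAlgebra.contractLeft_contractLeft (MPb07157I.dy y) x
  set A : ℕ → Ideal R := fun j => Ideal.span (z '' {k | k < j}) with hA
  have hA0 : A 0 = ⊥ := by
    rw [hA]
    simp
  have hAs : ∀ j, A (j + 1) = A j ⊔ Ideal.span {z j} := by
    intro j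
    have e : {k | k < j + 1} = {k | k < j} ∪ {j} := by
      ext k
      simp only [Set.mem_ofPred_eq, Set.mem_union, Set.mem_singleton_iff]
      omega
    simp only [hA]
    rw [e, Set.image_union, Set.image_singleton, Ideal.span_union]
  -- the boundary of `w_j`
  have hdw : ∀ j, MPb07157I.InA (A j) (D (wk (om a) b j)) := by
    intro j
    induction j with
    | zero =>
      have h0 : wk (om a) b 0 = om a := rfl
      have h1 : D (om a) = 0 := by
        rw [hD, contract_om ha1 ha2]
        have h2 : (fun i => -∑ j, a i j * MPb07157I.dy y (Pi.single j (1 : R))) = 0 := by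
          funext i
          have h3 : ∀ j, MPb07157I.dy y (Pi.single j (1 : R)) = y j := by
            intro j
            rw [MPb07157I.dy_apply, Finset.sum_eq_single j]
            · rw [Pi.single_eq_same, one_mul]
            · intro b _ hb
              rw [Pi.single_eq_of_ne hb, zero_mul]
            · intro hb
              exact absurd (Finset.mem_univ _) hb
          rw [Finset.sum_congr rfl fun j _ => by rw [h3 j], ha i]
          simp
        rw [h2, map_zero]
      rw [h0, h1]
      exact MPb07157I.InA.zero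
    | succ j ih =>
      have h0 : wk (om a) b (j + 1) = ExteriorAlgebra.ι R (b j) * wk (om a) b j := rfl
      rw [h0, hD1, MPb07157I.dy_apply, ← hz]
      refine MPb07157I.InA.sub (MPb07157I.InA.smul_mem ?_ _) ?_
      · rw [hAs]
        exact Submodule.mem_sup_right (Ideal.mem_span_singleton_self _)
      · rw [hAs]
        exact ((ih.map (LinearMap.mulLeft R (ExteriorAlgebra.ι R (b j))))).mono le_sup_left
  have hstep : ∀ j < k, (∃ e, MPb07157I.InA (A (j + 1)) (wk (om a) b (j + 1) - D e)) →
      ∃ e, MPb07157I.InA (A j) (wk (om a) b j - D e) := by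
    rintro j hj ⟨e, he⟩
    have h0 : wk (om a) b (j + 1) = ExteriorAlgebra.ι R (b j) * wk (om a) b j := rfl
    rw [hAs] at he
    obtain ⟨e', he'⟩ := he.exists_sub
    refine ⟨e', MPb07157I.InA.of_smul (hreg j hj) ?_⟩
    have h1 := he'.map D
    rw [map_sub, map_sub, hDD, sub_zero, map_smul, h0, hD1, MPb07157I.dy_apply, ← hz] at h1
    have h2 := (hdw j).map (LinearMap.mulLeft R (ExteriorAlgebra.ι R (b j)))
    rw [LinearMap.mulLeft_apply] at h2
    have h3 := h1.add h2
    have e3 : z j • wk (om a) b j - ExteriorAlgebra.ι R (b j) * D (wk (om a) b j) - z j • D e' +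
        ExteriorAlgebra.ι R (b j) * D (wk (om a) b j) = z j • (wk (om a) b j - D e') := by
      rw [smul_sub]
      abel
    rw [e3] at h3
    exact h3
  have hall : ∀ i ≤ k, ∃ e, MPb07157I.InA (A (k - i)) (wk (om a) b (k - i) - D e) := by
    intro i
    induction i with
    | zero =>
      intro _
      refine ⟨0, ?_⟩
      rw [Nat.sub_zero, extPow_bot (by omega) _ (wk_mem (om a) b (om_mem a) k), map_zero,
        sub_zero]
      exact MPb07157I.InA.zero
    | succ i ih =>
      intro hi
      obtain ⟨e, he⟩ := ih (by omega)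
      have e1 : k - i = (k - (i + 1)) + 1 := by omega
      rw [e1] at he
      exact hstep _ (by omega) ⟨e, he⟩
  obtain ⟨e, he⟩ := hall k le_rfl
  have h0 : wk (om a) b 0 = om a := rfl
  rw [Nat.sub_self, hA0, h0] at he
  exact ⟨e, sub_eq_zero.1 he.eq_zero⟩

/-- The 2-cycles of the Koszul complex of `n` elements which generate an ideal with a regular
sequence `z` of length `k`, `n ≤ k + 1`, are boundaries. As `MPb07157I.koszul` (`agI/KosA.lean`),
starting from the element of degree two instead of `ι a`; products of degree `k + 2 > n` vanish. -/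
theorem koszul_two {R : Type*} [CommRing R] {n k : ℕ} (hk : n ≤ k + 1) {y : Fin n → R} {z : ℕ → R}
    {b : ℕ → Fin n → R} (hz : ∀ j, z j = ∑ i, b j i * y i)
    (hreg : ∀ j < k, ∀ r, z j * r ∈ Ideal.span (z '' {l | l < j}) →
      r ∈ Ideal.span (z '' {l | l < j}))
    {a : Fin n → Fin n → R} (ha1 : ∀ i j, a i j = -a j i) (ha2 : ∀ i, a i i = 0)
    (ha : ∀ i, ∑ j, a i j * y j = 0) :
    ∃ e : Fin n → Fin n → Fin n → R, (∀ i j l, e i j l = -e j i l) ∧
      (∀ i j l, e i j l = -e i l j) ∧ (∀ i l, e i i l = 0) ∧ (∀ i j, e i j j = 0) ∧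
      ∀ i j, a i j = ∑ l, e i j l * y l := by
  classical
  obtain ⟨E, hE⟩ := exists_bd hk hz hreg ha1 ha2 ha
  let p : Fin n → Module.Dual R (Fin n → R) := fun i => LinearMap.proj i
  let cc : Fin n → Fin n → Fin n → R := fun i j l =>
    ExteriorAlgebra.algebraMapInv (CliffordAlgebra.contractLeft (p j)
      (CliffordAlgebra.contractLeft (p i) (CliffordAlgebra.contractLeft (p l) E)))
  refine ⟨cc, fun i j l => ?_, fun i j l => ?_, fun i l => ?_, fun i j => ?_, fun i j => ?_⟩
  · show ExteriorAlgebra.algebraMapInv (CliffordAlgebra.contractLeft (p j)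
        (CliffordAlgebra.contractLeft (p i) (CliffordAlgebra.contractLeft (p l) E))) =
      -ExteriorAlgebra.algebraMapInv (CliffordAlgebra.contractLeft (p i)
        (CliffordAlgebra.contractLeft (p j) (CliffordAlgebra.contractLeft (p l) E)))
    rw [CliffordAlgebra.contractLeft_comm, map_neg]
  · show ExteriorAlgebra.algebraMapInv (CliffordAlgebra.contractLeft (p j)
        (CliffordAlgebra.contractLeft (p i) (CliffordAlgebra.contractLeft (p l) E))) =
      -ExteriorAlgebra.algebraMapInv (CliffordAlgebra.contractLeft (p l)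
        (CliffordAlgebra.contractLeft (p i) (CliffordAlgebra.contractLeft (p j) E)))
    rw [CliffordAlgebra.contractLeft_comm (p i) (p l) E, map_neg,
      CliffordAlgebra.contractLeft_comm (p j) (p l), neg_neg,
      CliffordAlgebra.contractLeft_comm (p j) (p i) E, map_neg, map_neg]
  · show ExteriorAlgebra.algebraMapInv (CliffordAlgebra.contractLeft (p i)
        (CliffordAlgebra.contractLeft (p i) (CliffordAlgebra.contractLeft (p l) E))) = 0
    rw [CliffordAlgebra.contractLeft_contractLeft, map_zero]
  · show ExteriorAlgebra.algebraMapInv (CliffordAlgebra.contractLeft (p j)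
        (CliffordAlgebra.contractLeft (p i) (CliffordAlgebra.contractLeft (p j) E))) = 0
    rw [CliffordAlgebra.contractLeft_comm (p i) (p j) E, map_neg,
      CliffordAlgebra.contractLeft_contractLeft, neg_zero, map_zero]
  · have h1 : ExteriorAlgebra.algebraMapInv (CliffordAlgebra.contractLeft (p j)
        (CliffordAlgebra.contractLeft (p i) (om a))) = a i j := by
      rw [contract_om ha1 ha2]
      have h := CliffordAlgebra.contractLeft_ι (Q := (0 : QuadraticForm R (Fin n → R))) (p j)
        (fun i' => -∑ j', a i' j' * p i (Pi.single j' (1 : R)))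
      show ExteriorAlgebra.algebraMapInv (CliffordAlgebra.contractLeft (p j)
        (CliffordAlgebra.ι (0 : QuadraticForm R (Fin n → R))
          (fun i' => -∑ j', a i' j' * p i (Pi.single j' (1 : R))))) = a i j
      rw [h]
      have h2 : p j (fun i' => -∑ j', a i' j' * p i (Pi.single j' (1 : R))) = a i j := by
        show -∑ j', a j j' * (Pi.single j' (1 : R) : Fin n → R) i = a i j
        rw [Finset.sum_eq_single i]
        · rw [Pi.single_eq_same, mul_one, ← ha1]
        · intro b _ hb
          rw [Pi.single_eq_of_ne (Ne.symm hb), mul_zero]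
        · intro hb
          exact absurd (Finset.mem_univ _) hb
      rw [h2]
      exact ExteriorAlgebra.algebraMap_leftInverse _ _
    rw [← h1, hE]
    have h2 : CliffordAlgebra.contractLeft (Q := (0 : QuadraticForm R (Fin n → R)))
        (MPb07157I.dy y) E = ∑ l, y l • CliffordAlgebra.contractLeft (p l) E := by
      unfold MPb07157I.dy
      rw [map_sum, LinearMap.sum_apply]
      refine Finset.sum_congr rfl fun j _ => ?_
      rw [map_smul, LinearMap.smul_apply]
    rw [h2, map_sum, map_sum, map_sum]
    refine Finset.sum_congr rfl fun l _ => ?_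
    rw [map_smul, map_smul, map_smul, smul_eq_mul, mul_comm]

end YM

end MPb07157
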