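import Pool.Agent.Lib.MP_b07157_agYM.KosC
import Pool.Agent.Lib.MP_b07157_agI.KosB
import Mathlib.RingTheory.MvPolynomial.EulerIdentity

/-!
# A linear form which is not a zero divisor
-/

noncomputable section

namespace MPb07157

open MvPolynomial

namespace YM

namespace KosDaux

variable {n : ℕ}

/-- A linear form. -/
theorem exists_lin {ℓ : MvPolynomial (Fin (n + 1)) ℂ} (hℓ : ℓ.IsHomogeneous 1) :
    ∃ a : Fin (n + 1) → ℂ, ℓ = ∑ k, X k * C (a k) := by
  have h1 : ∀ k, ∃ c : ℂ, pderiv k ℓ = C c := by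
    intro k
    have h2 := hℓ.pderiv (i := k)
    rw [Nat.sub_self, ← totalDegree_zero_iff_isHomogeneous, totalDegree_eq_zero_iff_eq_C] at h2
    exact ⟨_, h2⟩
  choose a ha using h1
  refine ⟨a, ?_⟩
  have h3 := hℓ.sum_X_mul_pderiv
  rw [one_smul] at h3
  rw [← h3]
  exact Finset.sum_congr rfl fun k _ => by rw [ha]

/-- The section of the restriction. -/
def sec (i₀ : Fin (n + 1)) : MvPolynomial (Fin n) ℂ →ₐ[ℂ] MvPolynomial (Fin (n + 1)) ℂ :=
  aeval fun j => X (i₀.succAbove j)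

/-- The restriction to the hyperplane. -/
def res (i₀ : Fin (n + 1)) (a : Fin (n + 1) → ℂ) :
    MvPolynomial (Fin (n + 1)) ℂ →ₐ[ℂ] MvPolynomial (Fin n) ℂ :=
  aeval (i₀.insertNth (α := fun _ => MvPolynomial (Fin n) ℂ)
    (-(C (a i₀)⁻¹ * ∑ j, X j * C (a (i₀.succAbove j)))) fun j => X j)

theorem res_X_self (i₀ : Fin (n + 1)) (a : Fin (n + 1) → ℂ) :
    res i₀ a (X i₀) = -(C (a i₀)⁻¹ * ∑ j, X j * C (a (i₀.succAbove j))) := by
  rw [res, aeval_X, Fin.insertNth_apply_same]

theorem res_X (i₀ : Fin (n + 1)) (a : Fin (n + 1) → ℂ) (j : Fin n) :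
    res i₀ a (X (i₀.succAbove j)) = X j := by
  rw [res, aeval_X, Fin.insertNth_apply_succAbove]

theorem res_C (i₀ : Fin (n + 1)) (a : Fin (n + 1) → ℂ) (c : ℂ) : res i₀ a (C c) = C c := by
  rw [res, aeval_C]
  rfl

theorem sec_C (i₀ : Fin (n + 1)) (c : ℂ) : sec i₀ (C c) = C c := by
  rw [sec, aeval_C]
  rfl

theorem res_sec (i₀ : Fin (n + 1)) (a : Fin (n + 1) → ℂ) (p : MvPolynomial (Fin n) ℂ) :
    res i₀ a (sec i₀ p) = p := by
  have h1 : (res i₀ a).comp (sec i₀) = AlgHom.id ℂ _ := by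
    apply MvPolynomial.algHom_ext
    intro j
    rw [AlgHom.comp_apply, sec, aeval_X, res_X, AlgHom.id_apply]
  exact congrArg (fun φ => φ p) h1

theorem res_lin {i₀ : Fin (n + 1)} {a : Fin (n + 1) → ℂ} (h0 : a i₀ ≠ 0) :
    res i₀ a (∑ k, X k * C (a k)) = 0 := by
  rw [map_sum, Fin.sum_univ_succAbove _ i₀, map_mul, res_X_self, res_C]
  have h1 : ∑ j, res i₀ a (X (i₀.succAbove j) * C (a (i₀.succAbove j))) =
      ∑ j, X j * C (a (i₀.succAbove j)) :=
    Finset.sum_congr rfl fun j _ => by rw [map_mul, res_X, res_C]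
  rw [h1]
  have h2 : (C (a i₀)⁻¹ * C (a i₀) : MvPolynomial (Fin n) ℂ) = 1 := by
    rw [← C_mul, inv_mul_cancel₀ h0, C_1]
  linear_combination (-(∑ j, X j * C (a (i₀.succAbove j)))) * h2

theorem dvd_sub_sec {i₀ : Fin (n + 1)} {a : Fin (n + 1) → ℂ} (h0 : a i₀ ≠ 0)
    (p : MvPolynomial (Fin (n + 1)) ℂ) :
    (∑ k, X k * C (a k)) ∣ p - sec i₀ (res i₀ a p) := by
  induction p using MvPolynomial.induction_on with
  | C c => rw [res_C, sec_C, sub_self]; exact dvd_zero _
  | add p q hp hq =>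
    have h1 := dvd_add hp hq
    rw [map_add, map_add]
    rwa [add_sub_add_comm]
  | mul_X p k hp =>
    have hX : (∑ k, X k * C (a k)) ∣ (X k : MvPolynomial (Fin (n + 1)) ℂ) -
        sec i₀ (res i₀ a (X k)) := by
      rcases Fin.eq_self_or_eq_succAbove i₀ k with rfl | ⟨j, rfl⟩
      · refine ⟨C (a k)⁻¹, ?_⟩
        rw [res_X_self, map_neg, map_mul, sec_C, map_sum, Fin.sum_univ_succAbove _ k]
        have h1 : ∑ j, sec k (X j * C (a (k.succAbove j))) =
            ∑ j, X (k.succAbove j) * C (a (k.succAbove j)) :=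
          Finset.sum_congr rfl fun j _ => by rw [map_mul, sec_C, sec, aeval_X]
        rw [h1]
        have h2 : (C (a k)⁻¹ * C (a k) : MvPolynomial (Fin (n + 1)) ℂ) = 1 := by
          rw [← C_mul, inv_mul_cancel₀ h0, C_1]
        linear_combination (-X k) * h2
      · rw [res_X, sec, aeval_X, sub_self]
        exact dvd_zero _
    have h1 : p * X k - sec i₀ (res i₀ a (p * X k)) =
        (p - sec i₀ (res i₀ a p)) * X k + sec i₀ (res i₀ a p) * (X k - sec i₀ (res i₀ a (X k))) := by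
      rw [map_mul, map_mul]
      ring
    rw [h1]
    exact dvd_add (hp.mul_right _) (hX.mul_left _)

theorem eval_res (i₀ : Fin (n + 1)) (a : Fin (n + 1) → ℂ) (p : Fin n → ℂ)
    (g : MvPolynomial (Fin (n + 1)) ℂ) :
    eval p (res i₀ a g) = eval (fun k => eval p (res i₀ a (X k))) g := by
  induction g using MvPolynomial.induction_on with
  | C c => rw [res_C, eval_C, eval_C]
  | add g g' h h' => rw [map_add, map_add, map_add, h, h']
  | mul_X g k h => rw [map_mul, map_mul, map_mul, h, eval_X]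

end KosDaux

open KosDaux in
/-- If `ℓ v` is Koszul, then `v` is Koszul, if `0` is the only common zero of `ℓ` and the partial
derivatives: let `ℓ v_i = ∑ b_ij F_j`; modulo `ℓ`, `b` is a 2-cycle of the Koszul complex of the
`F_j` in a polynomial ring in `n` variables, which contain powers of the variables
(`exists_power`, `zX_reg`), so `b_ij = ∑ e_ijl F_l + ℓ b'_ij` by `koszul_two`, with `b'`
antisymmetric, and `v_i = ∑ b'_ij F_j`. -/
theorem isKos_of_linear_mul {n : ℕ} {F : MvPolynomial (Fin (n + 1)) ℂ}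
    {ℓ : MvPolynomial (Fin (n + 1)) ℂ} (hℓ : ℓ.IsHomogeneous 1) (hℓ0 : ℓ ≠ 0)
    (h0 : ∀ p : Fin (n + 1) → ℂ, (∀ i, eval p (pderiv i F) = 0) → eval p ℓ = 0 → p = 0)
    {v : Fin (n + 1) → MvPolynomial (Fin (n + 1)) ℂ}
    (h : IsKos (fun i => pderiv i F) fun i => ℓ * v i) : IsKos (fun i => pderiv i F) v := by
  classical
  obtain ⟨a, rfl⟩ := exists_lin hℓ
  obtain ⟨i₀, hi₀⟩ : ∃ i₀, a i₀ ≠ 0 := by
    by_contra hcon
    push Not at hcon
    apply hℓ0
    refine Finset.sum_eq_zero fun k _ => ?_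
    rw [hcon, C_0, mul_zero]
  set ℓ : MvPolynomial (Fin (n + 1)) ℂ := ∑ k, X k * C (a k) with hℓd
  obtain ⟨c, hc1, hc2, hc3⟩ := h
  have hres : res i₀ a ℓ = 0 := res_lin hi₀
  -- the powers of the variables
  have hz : ∀ p : Fin n → ℂ, (∀ i, eval p (res i₀ a (pderiv i F)) = 0) → p = 0 := by
    intro p hp
    have h1 := h0 (fun k => eval p (res i₀ a (X k))) (fun i => by rw [← eval_res]; exact hp i)
      (by rw [← eval_res, hres, map_zero])
    funext j
    have h2 := congrFun h1 (i₀.succAbove j)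
    rw [res_X, eval_X] at h2
    exact h2
  obtain ⟨N, hN⟩ := MPb07157I.exists_power hz
  have h1 : ∀ k : ℕ, ∃ b : Fin (n + 1) → MvPolynomial (Fin n) ℂ,
      MPb07157I.zX n N k = ∑ i, b i * res i₀ a (pderiv i F) := by
    intro k
    unfold MPb07157I.zX
    split_ifs with hk
    · obtain ⟨b, hb⟩ := (Ideal.mem_span_range_iff_exists_fun).1 (hN ⟨k, hk⟩)
      exact ⟨b, hb.symm⟩
    · exact ⟨0, by simp⟩
  choose b hb using h1
  obtain ⟨e, he1, he2, he3, he4, he5⟩ := koszul_two (k := n) le_rfl hb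
    (fun j hj r hr => MPb07157I.zX_reg N hj r hr) (a := fun i j => res i₀ a (c i j))
    (fun i j => by rw [hc1 i j, map_neg]) (fun i => by rw [hc2, map_zero])
    (fun i => by
      have h2 := congrArg (res i₀ a) (hc3 i)
      rw [map_mul, hres, zero_mul, map_sum] at h2
      rw [h2]
      exact Finset.sum_congr rfl fun j _ => by rw [map_mul])
  have h2 : ∀ i j, ∃ b', c i j - ∑ l, sec i₀ (e i j l) * pderiv l F = ℓ * b' := by
    intro i j
    have h3 := dvd_sub_sec hi₀ (c i j - ∑ l, sec i₀ (e i j l) * pderiv l F)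
    have h4 : res i₀ a (c i j - ∑ l, sec i₀ (e i j l) * pderiv l F) = 0 := by
      rw [map_sub, map_sum, he5 i j, sub_eq_zero]
      exact Finset.sum_congr rfl fun l _ => by rw [map_mul, res_sec]
    rw [h4, map_zero, sub_zero] at h3
    exact h3
  choose b' hb' using h2
  refine ⟨b', fun i j => ?_, fun i => ?_, fun i => ?_⟩
  · apply mul_left_cancel₀ hℓ0
    have hs : ∑ l, sec i₀ (e i j l) * pderiv l F = -∑ l, sec i₀ (e j i l) * pderiv l F := by
      rw [← Finset.sum_neg_distrib]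
      refine Finset.sum_congr rfl fun l _ => ?_
      rw [he1 i j l, map_neg, neg_mul]
    rw [mul_neg, ← hb' i j, ← hb' j i, hc1 i j, hs]
    ring
  · apply mul_left_cancel₀ hℓ0
    rw [mul_zero, ← hb' i i, hc2, zero_sub, neg_eq_zero]
    refine Finset.sum_eq_zero fun l _ => ?_
    rw [he3, map_zero, zero_mul]
  · apply mul_left_cancel₀ hℓ0
    have h3 : ∑ j, ∑ l, sec i₀ (e i j l) * pderiv l F * pderiv j F = 0 := by
      have h4 : ∑ j, ∑ l, sec i₀ (e i j l) * pderiv l F * pderiv j F =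
          -∑ j, ∑ l, sec i₀ (e i j l) * pderiv l F * pderiv j F := by
        conv_lhs => rw [Finset.sum_comm]
        rw [← Finset.sum_neg_distrib]
        refine Finset.sum_congr rfl fun j _ => ?_
        rw [← Finset.sum_neg_distrib]
        refine Finset.sum_congr rfl fun l _ => ?_
        rw [he2 i l j, map_neg]
        ring
      exact self_eq_neg.1 h4
    have h5 : ∑ j, c i j * pderiv j F = ℓ * ∑ j, b' i j * pderiv j F +
        ∑ j, ∑ l, sec i₀ (e i j l) * pderiv l F * pderiv j F := by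
      rw [Finset.mul_sum, ← Finset.sum_add_distrib]
      refine Finset.sum_congr rfl fun j _ => ?_
      rw [← Finset.sum_mul, ← mul_assoc, ← hb' i j]
      ring
    rw [h3, add_zero] at h5
    rw [← h5]
    exact hc3 i

end YM

end MPb07157
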