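import Pool.Agent.Lib.MP_b07157_agYM.Defs
import Pool.Agent.Lib.MP_b07157_agYL.Morse
import Pool.Agent.Lib.MP_b07157_agU.Split2

/-!
# The normal form at a double point
-/

noncomputable section

namespace MPb07157

open MvPolynomial

namespace YM

namespace LcAaux

open Spl

theorem hs1 (n : ℕ) : MvPowerSeries.HasSubst (fun _ : Fin 1 =>
    (MvPowerSeries.X 0 : MvPowerSeries (Fin (n + 1)) ℂ)) :=
  MvPowerSeries.hasSubst_of_constantCoeff_zero fun _ => MvPowerSeries.constantCoeff_X _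

/-- Power series in the first variable. -/
def inc (n : ℕ) : MvPowerSeries (Fin 1) ℂ →ₐ[ℂ] MvPowerSeries (Fin (n + 1)) ℂ :=
  MvPowerSeries.substAlgHom (hs1 n)

theorem inc_X (n : ℕ) (i : Fin 1) : inc n (MvPowerSeries.X i) = MvPowerSeries.X 0 := by
  rw [inc, MvPowerSeries.substAlgHom_X]

/-- The series `k(X_0) + ∑ X_i²`. -/
def kf (r : ℕ) (k : MvPowerSeries (Fin 1) ℂ) : MvPowerSeries (Fin (r + 1)) ℂ :=
  inc r k + ∑ i : Fin r, MvPowerSeries.X i.succ ^ 2

theorem R_inc (r : ℕ) (k : MvPowerSeries (Fin 1) ℂ) : Spl.R (r + 1) (inc r k) = inc (r + 1) k := by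
  have h : (Spl.R (r + 1)).comp (inc r) = inc (r + 1) := by
    apply hom_ext
    intro i
    rw [AlgHom.comp_apply, inc_X, inc_X, R_X]
    rfl
  exact congrArg (fun f => f k) h

theorem kf_succ (k : MvPowerSeries (Fin 1) ℂ) (r : ℕ) :
    kf (r + 1) k = Spl.R (r + 1) (kf r k) + MvPowerSeries.X (Fin.last (r + 1)) ^ 2 := by
  unfold kf
  rw [map_add, R_inc, map_sum]
  refine Eq.trans ?_ (add_assoc _ _ _).symm
  congr 1
  rw [Fin.sum_univ_castSucc]
  congr 1
  refine Finset.sum_congr rfl fun i _ => ?_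
  rw [map_pow, R_X]
  rfl

/-- The splitting lemma for corank at most one. -/
theorem splitting1 (r : ℕ) : ∀ F : MvPowerSeries (Fin (r + 1)) ℂ,
    MvPowerSeries.constantCoeff F = 0 → Gr F = 0 → r ≤ (Hs F).rank →
    ∃ (e : MvPowerSeries (Fin (r + 1)) ℂ ≃ₐ[ℂ] MvPowerSeries (Fin (r + 1)) ℂ)
      (k : MvPowerSeries (Fin 1) ℂ), e F = kf r k := by
  induction r with
  | zero =>
    intro F h0 _ _
    refine ⟨AlgEquiv.refl, F, ?_⟩
    have h1 : inc 0 = AlgHom.id ℂ (MvPowerSeries (Fin 1) ℂ) := by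
      apply hom_ext
      intro i
      rw [inc_X, AlgHom.id_apply, Subsingleton.elim i 0]
    unfold kf
    rw [h1, AlgHom.id_apply, Finset.univ_eq_empty, Finset.sum_empty, add_zero]
    rfl
  | succ r ih =>
    intro F h0 h1 h2
    have hH : Hs F ≠ 0 := by
      intro h
      rw [h, Matrix.rank_zero] at h2
      omega
    obtain ⟨e1, he1⟩ := exists_lin (m := r + 1) h1 hH
    obtain ⟨e2, b, he2⟩ := morse (G := e1 F) (congrFun (Gr_equiv e1 h1) _) he1
    have h3 : Gr (e2 (e1 F)) = 0 := Gr_equiv e2 (Gr_equiv e1 h1)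
    have h4 : MvPowerSeries.constantCoeff b = 0 := by
      have h5 : MvPowerSeries.constantCoeff (e2 (e1 F)) = 0 := by
        rw [constantCoeff_equiv, constantCoeff_equiv, h0]
      rwa [he2, map_add, map_pow, MvPowerSeries.constantCoeff_X, zero_pow two_ne_zero, add_zero,
        cc_hom] at h5
    have h5 : Gr b = 0 := by
      funext j
      have h6 := congrFun h3 j.castSucc
      unfold Gr at h6
      rw [he2, map_add, pderiv_R, Derivation.leibniz_pow, pderiv_X,
        if_neg (Fin.castSucc_lt_last j).ne, smul_zero, smul_zero, add_zero, cc_hom] at h6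
      exact h6
    have h6 : r ≤ (Hs b).rank := by
      have h7 := (rank_equiv e1 h1).trans (rank_equiv e2 (Gr_equiv e1 h1))
      rw [he2] at h7
      have h8 := Hs_R_add b
      omega
    obtain ⟨e3, g, he3⟩ := ih b h4 h5 h6
    obtain ⟨E, hE1, hE2⟩ := exists_ext e3
    refine ⟨(e1.trans e2).trans E, g, ?_⟩
    rw [AlgEquiv.trans_apply, AlgEquiv.trans_apply, he2, map_add, map_pow, hE1, hE2, he3]
    exact (kf_succ g r).symm

theorem hsX (n : ℕ) : PowerSeries.HasSubst (MvPowerSeries.X 0 : MvPowerSeries (Fin (n + 1)) ℂ) :=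
  PowerSeries.HasSubst.of_constantCoeff_zero (MvPowerSeries.constantCoeff_X _)

theorem exists_ps (k : MvPowerSeries (Fin 1) ℂ) : ∃ κ : PowerSeries ℂ, ∀ n : ℕ,
    PowerSeries.subst (MvPowerSeries.X 0 : MvPowerSeries (Fin (n + 1)) ℂ) κ = inc n k := by
  have hs : MvPowerSeries.HasSubst (fun _ : Fin 1 => (PowerSeries.X : PowerSeries ℂ)) :=
    MvPowerSeries.hasSubst_of_constantCoeff_zero fun _ => MvPowerSeries.constantCoeff_X _
  refine ⟨MvPowerSeries.subst (fun _ : Fin 1 => (PowerSeries.X : PowerSeries ℂ)) k, fun n => ?_⟩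
  have h1 := MvPowerSeries.subst_comp_subst_apply hs (hsX n).const k
  refine h1.trans ?_
  rw [inc, MvPowerSeries.substAlgHom_apply]
  congr 1
  funext s
  exact PowerSeries.subst_X (hsX n)

theorem cc_subst (n : ℕ) (κ : PowerSeries ℂ) : MvPowerSeries.constantCoeff
    (PowerSeries.subst (MvPowerSeries.X 0 : MvPowerSeries (Fin (n + 1)) ℂ) κ) =
      PowerSeries.constantCoeff κ := by
  have h1 := PowerSeries.constantCoeff_subst_eq_zero
    (a := (MvPowerSeries.X 0 : MvPowerSeries (Fin (n + 1)) ℂ)) (MvPowerSeries.constantCoeff_X _)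
    (κ - PowerSeries.C (PowerSeries.constantCoeff κ)) (by simp)
  have h2 : PowerSeries.subst (MvPowerSeries.X 0 : MvPowerSeries (Fin (n + 1)) ℂ)
      (κ - PowerSeries.C (PowerSeries.constantCoeff κ)) =
      PowerSeries.subst (MvPowerSeries.X 0 : MvPowerSeries (Fin (n + 1)) ℂ) κ -
        MvPowerSeries.C (PowerSeries.constantCoeff κ) := by
    rw [← PowerSeries.coe_substAlgHom (hsX n), map_sub]
    congr 1
    exact AlgHom.commutes _ _
  rw [h2, map_sub, MvPowerSeries.constantCoeff_C] at h1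
  exact sub_eq_zero.1 h1

/-- The sum of squares. -/
def sqs (r : ℕ) : MvPowerSeries (Fin (r + 1)) ℂ := ∑ i : Fin r, MvPowerSeries.X i.succ ^ 2

theorem pd_sqs (r : ℕ) : MvPowerSeries.pderiv ℂ 0 (sqs r) = 0 := by
  rw [sqs, map_sum]
  refine Finset.sum_eq_zero fun i _ => ?_
  rw [Derivation.leibniz_pow, pderiv_X, if_neg (Fin.succ_ne_zero i).symm, smul_zero, smul_zero]

theorem pd_pow {r : ℕ} (M : ℕ) (U : MvPowerSeries (Fin (r + 1)) ℂ) :
    MvPowerSeries.pderiv ℂ 0 (MvPowerSeries.X 0 ^ (M + 1) * U + sqs r) =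
      MvPowerSeries.X 0 ^ M * ((M + 1 : ℕ) • U + MvPowerSeries.X 0 *
        MvPowerSeries.pderiv ℂ 0 U) := by
  rw [map_add, pd_sqs, add_zero, Derivation.leibniz, Derivation.leibniz_pow, pderiv_X, if_pos rfl,
    smul_eq_mul, smul_eq_mul, Nat.add_sub_cancel, smul_eq_mul, mul_one, nsmul_eq_mul,
    nsmul_eq_mul, pow_succ]
  ring

theorem cc_pd_pow {r : ℕ} (m : ℕ) (i : Fin (r + 1)) (V : MvPowerSeries (Fin (r + 1)) ℂ) :
    MvPowerSeries.constantCoeff (MvPowerSeries.pderiv ℂ i (MvPowerSeries.X 0 ^ (m + 2) * V)) =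
      0 := by
  rw [Derivation.leibniz, Derivation.leibniz_pow, smul_eq_mul, smul_eq_mul, map_add, map_mul,
    map_mul, map_pow, MvPowerSeries.constantCoeff_X, zero_pow (Nat.succ_ne_zero _), zero_mul,
    zero_add, nsmul_eq_mul, smul_eq_mul, map_mul, map_mul, map_pow, MvPowerSeries.constantCoeff_X,
    show m + 2 - 1 = m + 1 from rfl, zero_pow (Nat.succ_ne_zero _), zero_mul, mul_zero, mul_zero]

/-- A matrix with a zero column does not have full rank. -/
theorem rank_lt {n : ℕ} (A : Matrix (Fin (n + 1)) (Fin (n + 1)) ℂ) (h : ∀ i, A i 0 = 0) :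
    A.rank < n + 1 := by
  have h1 := LinearMap.finrank_range_add_finrank_ker A.mulVecLin
  rw [Module.finrank_fin_fun] at h1
  have h2 : 0 < Module.finrank ℂ (LinearMap.ker A.mulVecLin) := by
    rw [Module.finrank_pos_iff, Submodule.nontrivial_iff_ne_bot]
    intro h3
    have h4 : (Pi.single 0 1 : Fin (n + 1) → ℂ) ∈ LinearMap.ker A.mulVecLin := by
      rw [LinearMap.mem_ker, Matrix.mulVecLin_apply]
      funext i
      rw [Matrix.mulVec_single_one]
      exact h i
    rw [h3, Submodule.mem_bot] at h4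
    have h5 := congrFun h4 0
    rw [Pi.single_eq_same] at h5
    exact one_ne_zero h5
  have h3 : A.rank = Module.finrank ℂ (LinearMap.range A.mulVecLin) := rfl
  omega

/-- The singularity is not isolated if `k = 0`. -/
theorem ne_zero {r : ℕ} {g : MvPowerSeries (Fin (r + 1)) ℂ}
    (e : MvPowerSeries (Fin (r + 1)) ℂ ≃ₐ[ℂ] MvPowerSeries (Fin (r + 1)) ℂ)
    (hiso : ∃ N : ℕ, ∀ i, (MvPowerSeries.X i : MvPowerSeries (Fin (r + 1)) ℂ) ^ N ∈
      Ideal.span {g} ⊔ JI g) : e g ≠ sqs r := by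
  intro he
  obtain ⟨φ, hφ⟩ := exists_hom (fun i : Fin (r + 1) =>
    if i = 0 then (MvPowerSeries.X 0 : MvPowerSeries (Fin (r + 1)) ℂ) else 0) (by
      intro i
      split_ifs
      · exact MvPowerSeries.constantCoeff_X _
      · exact map_zero _)
  have hφs : ∀ i : Fin r, φ (MvPowerSeries.X i.succ) = 0 := by
    intro i
    rw [hφ, if_neg (Fin.succ_ne_zero i)]
  have hsq : φ (sqs r) = 0 := by
    rw [sqs, map_sum]
    refine Finset.sum_eq_zero fun i _ => ?_
    rw [map_pow, hφs, zero_pow two_ne_zero]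
  have hpd : ∀ i, φ (MvPowerSeries.pderiv ℂ i (sqs r)) = 0 := by
    intro i
    induction i using Fin.cases with
    | zero => rw [pd_sqs, map_zero]
    | succ i =>
      rw [sqs, map_sum, map_sum]
      refine Finset.sum_eq_zero fun j _ => ?_
      rw [Derivation.leibniz_pow, pow_one, smul_eq_mul, nsmul_eq_mul, map_mul, map_mul, hφs,
        zero_mul, mul_zero]
  have hψg : φ (e g) = 0 := by rw [he, hsq]
  have hψd : ∀ j, φ (e (MvPowerSeries.pderiv ℂ j g)) = 0 := by
    intro j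
    have h1 := pderiv_equiv e.symm j (e g)
    rw [AlgEquiv.symm_apply_apply] at h1
    rw [h1, map_sum, map_sum]
    refine Finset.sum_eq_zero fun i _ => ?_
    rw [map_mul, map_mul, AlgEquiv.apply_symm_apply, he, hpd, mul_zero]
  obtain ⟨N, hN⟩ := hiso
  have hle : Ideal.span {g} ⊔ JI g ≤ RingHom.ker (φ.comp (e : MvPowerSeries (Fin (r + 1)) ℂ →ₐ[ℂ]
      MvPowerSeries (Fin (r + 1)) ℂ)) := by
    rw [sup_le_iff]
    refine ⟨?_, ?_⟩
    · rw [Ideal.span_le, Set.singleton_subset_iff]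
      exact hψg
    · rw [JI, Ideal.span_le]
      rintro _ ⟨j, rfl⟩
      exact hψd j
  have hX : ∀ i, φ (e (MvPowerSeries.X i)) = 0 := by
    intro i
    have h1 : φ (e (MvPowerSeries.X i ^ N)) = 0 := hle (hN i)
    rw [map_pow, map_pow] at h1
    by_contra h2
    exact pow_ne_zero N h2 h1
  obtain ⟨ζ, hζ⟩ := exists_hom (fun _ : Fin (r + 1) => (0 : MvPowerSeries (Fin (r + 1)) ℂ))
    (fun _ => map_zero _)
  have h1 : φ.comp (e : MvPowerSeries (Fin (r + 1)) ℂ →ₐ[ℂ] MvPowerSeries (Fin (r + 1)) ℂ) =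
      ζ := by
    apply hom_ext
    intro i
    rw [hζ]
    exact hX i
  have h2 : ζ.comp ζ = ζ := by
    apply hom_ext
    intro i
    rw [AlgHom.comp_apply, hζ, map_zero]
  have h3 : MvPowerSeries.X 0 = ζ (e.symm (MvPowerSeries.X 0)) := by
    rw [← h1]
    show _ = φ (e (e.symm (MvPowerSeries.X 0)))
    rw [AlgEquiv.apply_symm_apply, hφ, if_pos rfl]
  have h4 : (MvPowerSeries.X 0 : MvPowerSeries (Fin (r + 1)) ℂ) = 0 := by
    have h5 : ζ (ζ (e.symm (MvPowerSeries.X 0))) = ζ (e.symm (MvPowerSeries.X 0)) :=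
      congrArg (fun f => f (e.symm (MvPowerSeries.X 0))) h2
    rw [← h3, hζ] at h5
    exact h5.symm
  have h6 := congrArg (MvPowerSeries.coeff (Finsupp.single (0 : Fin (r + 1)) 1)) h4
  rw [MvPowerSeries.coeff_X, if_pos rfl, map_zero] at h6
  exact one_ne_zero h6

end LcAaux

open LcAaux Spl

/-- The splitting lemma for corank at most one (as `YG.exists_ueqG`, without parameter; compare
`agU/Split2.lean`); `k` has order `M ≥ 2`, since the ideal of `g` and its derivatives contains powers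
of the variables; `M = 2` if the rank is `t + 2`. -/
theorem exists_normal {t : ℕ} {g : MvPowerSeries (Fin (t + 2)) ℂ}
    (h0 : MvPowerSeries.constantCoeff g = 0)
    (h1 : ∀ i, MvPowerSeries.constantCoeff (MvPowerSeries.pderiv ℂ i g) = 0)
    (h2 : t + 1 ≤ (Matrix.of fun i j : Fin (t + 2) => MvPowerSeries.constantCoeff
      (MvPowerSeries.pderiv ℂ i (MvPowerSeries.pderiv ℂ j g)) :
        Matrix (Fin (t + 2)) (Fin (t + 2)) ℂ).rank)
    (hiso : ∃ N : ℕ, ∀ i, (MvPowerSeries.X i : MvPowerSeries (Fin (t + 2)) ℂ) ^ N ∈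
      Ideal.span {g} ⊔ JI g) :
    ∃ (e : MvPowerSeries (Fin (t + 2)) ℂ ≃ₐ[ℂ] MvPowerSeries (Fin (t + 2)) ℂ)
      (M : ℕ) (κ : PowerSeries ℂ), 2 ≤ M ∧ PowerSeries.constantCoeff κ ≠ 0 ∧
      e g = kY t (PowerSeries.X ^ M * κ) ∧
      ((Matrix.of fun i j : Fin (t + 2) => MvPowerSeries.constantCoeff
        (MvPowerSeries.pderiv ℂ i (MvPowerSeries.pderiv ℂ j g)) :
          Matrix (Fin (t + 2)) (Fin (t + 2)) ℂ).rank = t + 2 → M = 2) := by
  have hGr : Gr g = 0 := funext h1
  obtain ⟨e, k, he⟩ := splitting1 (t + 1) g h0 hGr h2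
  obtain ⟨κ, hκ⟩ := exists_ps k
  have he' : e g = PowerSeries.subst (MvPowerSeries.X 0 : MvPowerSeries (Fin (t + 2)) ℂ) κ +
      sqs (t + 1) := by
    rw [he, kf, hκ]
    rfl
  have hκ0 : κ ≠ 0 := by
    rintro rfl
    apply ne_zero e hiso
    rw [he', ← PowerSeries.coe_substAlgHom (hsX (t + 1)), map_zero, zero_add]
  set M := κ.order.toNat with hM
  set κ' := PowerSeries.divXPowOrder κ with hκ'
  have hκ1 : PowerSeries.X ^ M * κ' = κ := PowerSeries.X_pow_order_mul_divXPowOrder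
  have hκ2 : PowerSeries.constantCoeff κ' ≠ 0 := fun h =>
    hκ0 (PowerSeries.constantCoeff_divXPowOrder_eq_zero_iff.1 h)
  have hU : PowerSeries.subst (MvPowerSeries.X 0 : MvPowerSeries (Fin (t + 2)) ℂ) κ =
      MvPowerSeries.X 0 ^ M *
        PowerSeries.subst (MvPowerSeries.X 0 : MvPowerSeries (Fin (t + 2)) ℂ) κ' := by
    rw [← hκ1, PowerSeries.subst_mul (hsX (t + 1)), PowerSeries.subst_pow (hsX (t + 1)),
      PowerSeries.subst_X (hsX (t + 1))]
  set U := PowerSeries.subst (MvPowerSeries.X 0 : MvPowerSeries (Fin (t + 2)) ℂ) κ' with hUdef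
  have hU0 : MvPowerSeries.constantCoeff U ≠ 0 := by
    rw [hUdef, cc_subst]
    exact hκ2
  have hG : Gr (e g) = 0 := Gr_equiv e hGr
  have hc : MvPowerSeries.constantCoeff (e g) = 0 := by rw [constantCoeff_equiv, h0]
  rw [hU] at he'
  have hsqc : MvPowerSeries.constantCoeff (sqs (t + 1)) = 0 := by
    rw [sqs, map_sum]
    refine Finset.sum_eq_zero fun i _ => ?_
    rw [map_pow, MvPowerSeries.constantCoeff_X, zero_pow two_ne_zero]
  have hM2 : 2 ≤ M := by
    by_contra hcon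
    rcases (show M = 0 ∨ M = 1 by omega) with h | h
    · rw [he', h, pow_zero, one_mul, map_add, hsqc, add_zero] at hc
      exact hU0 hc
    · have h3 : MvPowerSeries.constantCoeff (MvPowerSeries.pderiv ℂ 0 (e g)) = 0 := congrFun hG 0
      rw [he', h] at h3
      have h4 : MvPowerSeries.constantCoeff (MvPowerSeries.pderiv ℂ 0
        (MvPowerSeries.X 0 ^ (0 + 1) * U + sqs (t + 1))) = 0 := h3
      rw [pd_pow, pow_zero, one_mul, zero_add, one_smul,
        map_add, map_mul, MvPowerSeries.constantCoeff_X, zero_mul, add_zero] at h4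
      exact hU0 h4
  refine ⟨e, M, κ', hM2, hκ2, ?_, ?_⟩
  · rw [he', kY, hκ1, ← hU]
    rfl
  · intro h3
    by_contra h4
    obtain ⟨m, hm⟩ : ∃ m, M = m + 3 := ⟨M - 3, by omega⟩
    have h5 : (Hs g).rank ≤ (Hs (e g)).rank := rank_equiv e hGr
    have h6 : (Hs (e g)).rank < t + 2 := by
      refine rank_lt (n := t + 1) _ fun i => ?_
      rw [Hs_apply, he', hm, pd_pow (m + 2)]
      exact cc_pd_pow _ _ _
    have h7 : (Hs g).rank = t + 2 := h3
    omega

end YM

end MPb07157
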