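import Mathlib
import Pool.Agent.Lib.MP_b07157_agM.CDefs

/-!
# Linear vector fields which kill a form, in suitable coordinates (n variables)

The parts of `agQ/NSQ.lean` and `agYN/NSD.lean` which are needed for `agYM/NSN.lean` and
`agYM/NSK.lean`, for `Fin n` instead of `Fin 3`.
-/

noncomputable section

namespace MPb07157

open MvPolynomial

namespace YM

namespace NSA

variable {n : ℕ}

/-! ### Generalized eigenspaces of a derivation -/

/-- The product of generalized eigenvectors of a derivation. -/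
theorem mul_mem_gen {A : Type*} [CommRing A] [Algebra ℂ A] (D : Derivation ℂ A A) {μ ν : ℂ}
    {p q : A} (hp : p ∈ Module.End.maxGenEigenspace (D : A →ₗ[ℂ] A) μ)
    (hq : q ∈ Module.End.maxGenEigenspace (D : A →ₗ[ℂ] A) ν) :
    p * q ∈ Module.End.maxGenEigenspace (D : A →ₗ[ℂ] A) (μ + ν) := by
  rw [Module.End.mem_maxGenEigenspace] at hp hq ⊢
  obtain ⟨k, hk⟩ := hp
  obtain ⟨l, hl⟩ := hq
  refine ⟨k + l, ?_⟩
  obtain ⟨N, hN⟩ : ∃ N, N = k + l := ⟨_, rfl⟩
  rw [← hN]
  induction N generalizing k l p q with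
  | zero =>
    have h1 : k = 0 := by omega
    rw [h1, pow_zero] at hk
    change p = 0 at hk
    rw [hk, zero_mul, map_zero]
  | succ N ih =>
    rcases k with _ | k
    · rw [pow_zero] at hk
      change p = 0 at hk
      rw [hk, zero_mul, map_zero]
    rcases l with _ | l
    · rw [pow_zero] at hl
      change q = 0 at hl
      rw [hl, mul_zero, map_zero]
    have h1 : ((D : A →ₗ[ℂ] A) - (μ + ν) • (1 : Module.End ℂ A)) (p * q) =
        (((D : A →ₗ[ℂ] A) - μ • (1 : Module.End ℂ A)) p) * q +
          p * (((D : A →ₗ[ℂ] A) - ν • (1 : Module.End ℂ A)) q) := by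
      simp only [LinearMap.sub_apply, LinearMap.smul_apply, Module.End.one_apply,
        Derivation.coeFn_coe, Derivation.leibniz, smul_eq_mul]
      rw [add_smul, sub_mul, mul_sub, smul_mul_assoc, mul_smul_comm]
      ring
    rw [pow_succ, Module.End.mul_apply, h1, map_add, ih k ?_ (l + 1) hl (by omega),
      ih (k + 1) hk l ?_ (by omega), add_zero]
    · rw [pow_succ, Module.End.mul_apply] at hl
      exact hl
    · rw [pow_succ, Module.End.mul_apply] at hk
      exact hk

theorem one_mem_gen {A : Type*} [CommRing A] [Algebra ℂ A] (D : Derivation ℂ A A) :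
    (1 : A) ∈ Module.End.maxGenEigenspace (D : A →ₗ[ℂ] A) 0 := by
  rw [Module.End.mem_maxGenEigenspace]
  refine ⟨1, ?_⟩
  rw [pow_one, LinearMap.sub_apply, LinearMap.smul_apply, zero_smul, sub_zero,
    Derivation.coeFn_coe, Derivation.map_one_eq_zero]

theorem pow_mem_gen {A : Type*} [CommRing A] [Algebra ℂ A] (D : Derivation ℂ A A) {μ : ℂ}
    {p : A} (hp : p ∈ Module.End.maxGenEigenspace (D : A →ₗ[ℂ] A) μ) (k : ℕ) :
    p ^ k ∈ Module.End.maxGenEigenspace (D : A →ₗ[ℂ] A) (μ * k) := by
  induction k with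
  | zero =>
    rw [pow_zero, Nat.cast_zero, mul_zero]
    exact one_mem_gen D
  | succ k ih =>
    rw [pow_succ, Nat.cast_succ, mul_add, mul_one]
    exact mul_mem_gen D ih hp

theorem prod_mem_gen {A : Type*} [CommRing A] [Algebra ℂ A] (D : Derivation ℂ A A)
    {ι : Type*} (s : Finset ι) {μ : ι → ℂ} {p : ι → A}
    (hp : ∀ i ∈ s, p i ∈ Module.End.maxGenEigenspace (D : A →ₗ[ℂ] A) (μ i)) :
    ∏ i ∈ s, p i ∈ Module.End.maxGenEigenspace (D : A →ₗ[ℂ] A) (∑ i ∈ s, μ i) := by
  classical
  induction s using Finset.induction_on with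
  | empty =>
    rw [Finset.prod_empty, Finset.sum_empty]
    exact one_mem_gen D
  | insert a s ha ih =>
    rw [Finset.prod_insert ha, Finset.sum_insert ha]
    exact mul_mem_gen D (hp a (Finset.mem_insert_self a s))
      (ih fun i hi => hp i (Finset.mem_insert_of_mem hi))

/-! ### Linear forms -/

/-- The linear form with given coefficients. -/
def lin : (Fin n → ℂ) →ₗ[ℂ] MvPolynomial (Fin n) ℂ := Fintype.linearCombination ℂ X

theorem lin_apply (c : Fin n → ℂ) : lin c = ∑ i, c i • X i := rfl

theorem lin_single (i : Fin n) : lin (Pi.single i 1) = X i := by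
  classical
  unfold lin
  rw [Fintype.linearCombination_apply_single, one_smul]

theorem lin_isHomogeneous (c : Fin n → ℂ) : (lin c).IsHomogeneous 1 := by
  rw [lin_apply]
  refine IsHomogeneous.sum _ _ _ fun i _ => ?_
  rw [smul_eq_C_mul]
  simpa using (isHomogeneous_C (Fin n) (c i)).mul (isHomogeneous_X ℂ i)

theorem aeval_lin (u : Fin n → Fin n → ℂ) (c : Fin n → ℂ) :
    aeval (fun i => lin (u i)) (lin c) = lin (∑ j, c j • u j) := by
  rw [lin_apply, map_sum, map_sum]
  refine Finset.sum_congr rfl fun j _ => ?_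
  rw [map_smul, map_smul, aeval_X]

/-- The linear change of coordinates given by a basis. -/
def autB (b : Module.Basis (Fin n) ℂ (Fin n → ℂ)) :
    MvPolynomial (Fin n) ℂ ≃ₐ[ℂ] MvPolynomial (Fin n) ℂ :=
  AlgEquiv.ofAlgHom (aeval fun i => lin (b i))
    (aeval fun i => lin (b.repr (Pi.single i 1)))
    (by
      apply MvPolynomial.algHom_ext
      intro i
      rw [AlgHom.comp_apply, aeval_X, aeval_lin, b.sum_repr, lin_single, AlgHom.id_apply])
    (by
      apply MvPolynomial.algHom_ext
      intro i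
      have h : ∑ j, (b i) j • ⇑(b.repr (Pi.single j 1)) = ⇑(b.repr (b i)) := by
        have h1 : b i = ∑ j, (b i) j • (Pi.single j 1 : Fin n → ℂ) := by
          rw [← pi_eq_sum_univ' (b i)]
        conv_rhs => rw [h1, map_sum]
        rw [Finsupp.coe_finsetSum]
        refine Finset.sum_congr rfl fun j _ => ?_
        rw [map_smul, Finsupp.coe_smul]
      rw [AlgHom.comp_apply, aeval_X, aeval_lin, h, b.repr_self, Finsupp.single_eq_pi_single,
        lin_single, AlgHom.id_apply])

theorem autB_apply (b : Module.Basis (Fin n) ℂ (Fin n → ℂ)) (p : MvPolynomial (Fin n) ℂ) :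
    autB b p = aeval (fun i => lin (b i)) p := rfl

theorem autB_symm_apply (b : Module.Basis (Fin n) ℂ (Fin n → ℂ)) (p : MvPolynomial (Fin n) ℂ) :
    (autB b).symm p = aeval (fun i => lin (b.repr (Pi.single i 1))) p := rfl

/-- A basis of generalized eigenvectors. -/
theorem exists_basis (T : Module.End ℂ (Fin n → ℂ)) :
    ∃ (b : Module.Basis (Fin n) ℂ (Fin n → ℂ)) (lam : Fin n → ℂ),
      ∀ i, b i ∈ T.maxGenEigenspace (lam i) := by
  classical
  have hint : DirectSum.IsInternal T.maxGenEigenspace :=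
    DirectSum.isInternal_submodule_of_iSupIndep_of_iSup_eq_top T.independent_maxGenEigenspace
      T.iSup_maxGenEigenspace_eq_top
  let B := hint.collectedBasis (fun μ => Module.finBasis ℂ (T.maxGenEigenspace μ))
  let e := B.indexEquiv (Pi.basisFun ℂ (Fin n))
  refine ⟨B.reindex e, fun i => (e.symm i).1, fun i => ?_⟩
  rw [Module.Basis.reindex_apply]
  exact hint.collectedBasis_mem _ _

/-- A linear form is given by its derivatives. -/
theorem eq_lin {a : MvPolynomial (Fin n) ℂ} (ha : a.IsHomogeneous 1) :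
    a = lin fun i => coeff 0 (pderiv i a) := by
  have h1 : ∀ i, pderiv i a = C (coeff 0 (pderiv i a)) := by
    intro i
    have h2 : (pderiv i a).IsHomogeneous 0 := ha.pderiv
    exact totalDegree_eq_zero_iff_eq_C.1 (Nat.le_zero.1 h2.totalDegree_le)
  have h2 := ha.sum_X_mul_pderiv
  rw [one_smul] at h2
  conv_lhs => rw [← h2]
  rw [lin_apply]
  refine Finset.sum_congr rfl fun i _ => ?_
  rw [smul_eq_C_mul, ← h1 i, mul_comm]

/-- The linear vector field `∑ a_i ∂_i` acts on linear forms. -/
theorem mkDerivation_lin (a : Fin n → MvPolynomial (Fin n) ℂ) (A : Fin n → Fin n → ℂ)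
    (ha : ∀ i, a i = lin (A i)) (c : Fin n → ℂ) :
    mkDerivation ℂ a (lin c) = lin (Fintype.linearCombination ℂ A c) := by
  rw [lin_apply, map_sum, Fintype.linearCombination_apply, map_sum]
  refine Finset.sum_congr rfl fun i _ => ?_
  rw [Derivation.map_smul, map_smul, mkDerivation_X, ha i]

theorem lin_mem_gen {D : Derivation ℂ (MvPolynomial (Fin n) ℂ) (MvPolynomial (Fin n) ℂ)}
    {T : Module.End ℂ (Fin n → ℂ)} (hD : ∀ c, D (lin c) = lin (T c)) {c : Fin n → ℂ} {μ : ℂ}
    (hc : c ∈ T.maxGenEigenspace μ) :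
    lin c ∈ Module.End.maxGenEigenspace
      (D : MvPolynomial (Fin n) ℂ →ₗ[ℂ] MvPolynomial (Fin n) ℂ) μ := by
  rw [Module.End.mem_maxGenEigenspace] at hc ⊢
  obtain ⟨k, hk⟩ := hc
  refine ⟨k, ?_⟩
  have key : ∀ k : ℕ, (((D : MvPolynomial (Fin n) ℂ →ₗ[ℂ] MvPolynomial (Fin n) ℂ) -
      μ • (1 : Module.End ℂ (MvPolynomial (Fin n) ℂ))) ^ k) (lin c) =
      lin (((T - μ • (1 : Module.End ℂ (Fin n → ℂ))) ^ k) c) := by
    intro k
    induction k with
    | zero => rfl
    | succ k ih =>
      rw [pow_succ', Module.End.mul_apply, ih, pow_succ', Module.End.mul_apply,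
        LinearMap.sub_apply, LinearMap.smul_apply, Module.End.one_apply, Derivation.coeFn_coe, hD,
        LinearMap.sub_apply, LinearMap.smul_apply, Module.End.one_apply, map_sub, map_smul]
  rw [key, hk, map_zero]

theorem autB_monomial_mem (b : Module.Basis (Fin n) ℂ (Fin n → ℂ))
    {D : Derivation ℂ (MvPolynomial (Fin n) ℂ) (MvPolynomial (Fin n) ℂ)} {lam : Fin n → ℂ}
    (h : ∀ i, lin (b i) ∈ Module.End.maxGenEigenspace
      (D : MvPolynomial (Fin n) ℂ →ₗ[ℂ] MvPolynomial (Fin n) ℂ) (lam i))
    (v : Fin n →₀ ℕ) (c : ℂ) :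
    autB b (monomial v c) ∈ Module.End.maxGenEigenspace
      (D : MvPolynomial (Fin n) ℂ →ₗ[ℂ] MvPolynomial (Fin n) ℂ) (∑ i, lam i * v i) := by
  rw [autB_apply, aeval_monomial, algebraMap_eq, ← smul_eq_C_mul]
  refine Submodule.smul_mem _ _ ?_
  rw [Finsupp.prod_fintype _ _ (fun i => pow_zero _)]
  exact prod_mem_gen D _ fun i _ => pow_mem_gen D (h i) _

/-- The exponents of a polynomial killed by a linear vector field, in suitable coordinates. -/
theorem sum_eq_zero_of_mem_support (b : Module.Basis (Fin n) ℂ (Fin n → ℂ))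
    {D : Derivation ℂ (MvPolynomial (Fin n) ℂ) (MvPolynomial (Fin n) ℂ)} {lam : Fin n → ℂ}
    (h : ∀ i, lin (b i) ∈ Module.End.maxGenEigenspace
      (D : MvPolynomial (Fin n) ℂ →ₗ[ℂ] MvPolynomial (Fin n) ℂ) (lam i))
    {g : MvPolynomial (Fin n) ℂ} (hg : D (autB b g) = 0) {v : Fin n →₀ ℕ} (hv : v ∈ g.support) :
    ∑ i, lam i * v i = 0 := by
  classical
  by_contra hne
  set E := Module.End.maxGenEigenspace
    (D : MvPolynomial (Fin n) ℂ →ₗ[ℂ] MvPolynomial (Fin n) ℂ) with hE
  set dg : (Fin n →₀ ℕ) → ℂ := fun v => ∑ i, lam i * v i with hdg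
  set M : Finset ℂ := insert 0 (g.support.image dg) with hM
  set F : ℂ → MvPolynomial (Fin n) ℂ := fun μ =>
    ∑ v ∈ g.support.filter (fun v => dg v = μ), monomial v (coeff v g) with hF
  have hfE : autB b g ∈ E 0 := by
    rw [hE, Module.End.mem_maxGenEigenspace]
    refine ⟨1, ?_⟩
    rw [pow_one, LinearMap.sub_apply, LinearMap.smul_apply, zero_smul, sub_zero,
      Derivation.coeFn_coe, hg]
  have hFE : ∀ μ, autB b (F μ) ∈ E μ := by
    intro μ
    rw [hF]
    dsimp only
    rw [map_sum]
    refine Submodule.sum_mem _ fun v hv => ?_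
    rw [← (Finset.mem_filter.1 hv).2]
    exact autB_monomial_mem b h v _
  have hsum : ∑ μ ∈ M, autB b (F μ) = ∑ μ ∈ M, if μ = 0 then autB b g else 0 := by
    rw [Finset.sum_ite_eq' M 0 (fun _ => autB b g), if_pos (Finset.mem_insert_self _ _), ← map_sum]
    congr 1
    rw [hF]
    dsimp only
    rw [Finset.sum_fiberwise_of_maps_to (fun v hv => Finset.mem_insert_of_mem
      (Finset.mem_image_of_mem _ hv)), support_sum_monomial_coeff]
  have key := (iSupIndep_iff_finsetSum_eq_imp_eq E).1 (Module.End.independent_maxGenEigenspace _) M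
    (fun μ => autB b (F μ)) (fun μ => if μ = 0 then autB b g else 0) (by
      intro μ _
      refine ⟨hFE μ, ?_⟩
      split_ifs with h0
      · rw [h0]
        exact hfE
      · exact Submodule.zero_mem _) hsum (dg v)
    (Finset.mem_insert_of_mem (Finset.mem_image_of_mem _ hv))
  rw [if_neg hne] at key
  have h1 : F (dg v) = 0 := (map_eq_zero_iff _ (autB b).injective).1 key
  have h2 : coeff v (F (dg v)) = coeff v g := by
    rw [hF]
    dsimp only
    have hvm : v ∈ g.support.filter (fun u => dg u = dg v) := Finset.mem_filter.2 ⟨hv, rfl⟩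
    rw [coeff_sum, Finset.sum_eq_single_of_mem v hvm, coeff_monomial, if_pos rfl]
    intro u _ huv
    rw [coeff_monomial, if_neg huv]
  rw [h1, coeff_zero] at h2
  exact mem_support_iff.1 hv h2.symm

/-- The sum of the exponents except the one with index `i`. -/
def S (i : Fin n) (v : Fin n →₀ ℕ) : ℕ := ∑ j, if j = i then 0 else v j

theorem S_add_single (i m : Fin n) (v : Fin n →₀ ℕ) :
    S i (v + Finsupp.single m 1) ≤ S i v + 1 := by
  classical
  unfold S
  have h : ∀ j, (if j = i then 0 else (v + Finsupp.single m 1 : Fin n →₀ ℕ) j) ≤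
      (if j = i then 0 else v j) + if m = j then 1 else 0 := by
    intro j
    rw [Finsupp.add_apply, Finsupp.single_apply]
    split_ifs <;> omega
  refine (Finset.sum_le_sum fun j _ => h j).trans ?_
  rw [Finset.sum_add_distrib, Finset.sum_ite_eq]
  simp

theorem S_add (i : Fin n) (v : Fin n →₀ ℕ) : S i v + v i = ∑ j, v j := by
  classical
  unfold S
  have h : ∀ j, (v j : ℕ) = (if j = i then 0 else v j) + if i = j then v j else 0 := by
    intro j
    by_cases hj : j = i
    · rw [if_pos hj, if_pos hj.symm, zero_add]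
    · rw [if_neg hj, if_neg (Ne.symm hj), add_zero]
  rw [Finset.sum_congr rfl fun j _ => h j, Finset.sum_add_distrib, Finset.sum_ite_eq,
    if_pos (Finset.mem_univ i)]

theorem eval_zero {i : Fin n} {p : MvPolynomial (Fin n) ℂ} (h : ∀ v ∈ p.support, 1 ≤ S i v) :
    eval (Pi.single i 1) p = 0 := by
  rw [eval_eq']
  refine Finset.sum_eq_zero fun v hv => ?_
  obtain ⟨j, hj, hv0⟩ : ∃ j, j ≠ i ∧ v j ≠ 0 := by
    by_contra hcon
    push Not at hcon
    have h1 := h v hv
    have h0 : S i v = 0 := Finset.sum_eq_zero fun j _ => by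
      by_cases hj : j = i
      · rw [if_pos hj]
      · rw [if_neg hj, hcon j hj]
    omega
  rw [Finset.prod_eq_zero (Finset.mem_univ j), mul_zero]
  rw [Pi.single_eq_of_ne hj, zero_pow hv0]

theorem der {i : Fin n} {N : ℕ} {p : MvPolynomial (Fin n) ℂ}
    (h : ∀ v ∈ p.support, N + 1 ≤ S i v) (m : Fin n) :
    ∀ v ∈ (pderiv m p).support, N ≤ S i v := by
  intro v hv
  rw [mem_support_iff, coeff_pderiv] at hv
  have h1 := h (v + Finsupp.single m 1) (mem_support_iff.2 (left_ne_zero_of_mul hv))
  have h2 := S_add_single i m v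
  omega

theorem pderiv_lin (l : Fin n) (c : Fin n → ℂ) : pderiv l (lin c) = C (c l) := by
  rw [lin_apply, map_sum, Finset.sum_eq_single l]
  · rw [Derivation.map_smul, pderiv_X_self, smul_eq_C_mul, mul_one]
  · intro j _ hj
    rw [Derivation.map_smul, pderiv_X_of_ne hj, smul_zero]
  · intro h
    exact absurd (Finset.mem_univ l) h

theorem pderiv_autB (b : Module.Basis (Fin n) ℂ (Fin n → ℂ)) (l : Fin n)
    (p : MvPolynomial (Fin n) ℂ) :
    pderiv l (autB b p) = ∑ m, C (b m l) * autB b (pderiv m p) := by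
  rw [autB_apply]
  simp only [autB_apply]
  induction p using MvPolynomial.induction_on with
  | C a => simp
  | add p r hp hr => simp only [map_add, hp, hr, mul_add, Finset.sum_add_distrib]
  | mul_X p j hp =>
    rw [map_mul, aeval_X, Derivation.leibniz, hp, pderiv_lin]
    have h1 : ∀ m, C (b m l) * aeval (fun i => lin (b i)) (pderiv m (p * X j)) =
        lin (b j) * (C (b m l) * aeval (fun i => lin (b i)) (pderiv m p)) +
        if m = j then C (b m l) * aeval (fun i => lin (b i)) p else 0 := by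
      intro m
      rw [Derivation.leibniz, smul_eq_mul, smul_eq_mul, map_add, map_mul, map_mul, aeval_X]
      by_cases hm : m = j
      · rw [if_pos hm, hm, pderiv_X_self, map_one]
        ring
      · rw [if_neg hm, pderiv_X_of_ne (Ne.symm hm), map_zero]
        ring
    rw [Finset.sum_congr rfl fun m _ => h1 m, Finset.sum_add_distrib, ← Finset.mul_sum,
      Finset.sum_ite_eq' Finset.univ j, if_pos (Finset.mem_univ j), smul_eq_mul, smul_eq_mul]
    ring

/-- The vertex. -/
def vtx (b : Module.Basis (Fin n) ℂ (Fin n → ℂ)) (i : Fin n) : Fin n → ℂ :=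
  fun l => b.repr (Pi.single l 1) i

theorem lin_vtx (b : Module.Basis (Fin n) ℂ (Fin n → ℂ)) (i m : Fin n) :
    eval (vtx b i) (lin (b m)) = (Pi.single i 1 : Fin n → ℂ) m := by
  have h : ∑ j, (b m) j • b.repr (Pi.single j 1) = b.repr (b m) := by
    have h1 : b m = ∑ j, (b m) j • (Pi.single j 1 : Fin n → ℂ) := by
      rw [← pi_eq_sum_univ' (b m)]
    conv_rhs => rw [h1, map_sum]
    refine Finset.sum_congr rfl fun j _ => ?_
    rw [map_smul]
  have h2 := congrArg (fun f : Fin n →₀ ℂ => f i) h
  rw [b.repr_self] at h2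
  simp only [Finsupp.coe_finsetSum, Finset.sum_apply, Finsupp.smul_apply, smul_eq_mul] at h2
  rw [lin_apply, map_sum]
  simp only [smul_eval, eval_X]
  unfold vtx
  rw [h2, Finsupp.single_apply, Pi.single_apply]

theorem eval_vtx (b : Module.Basis (Fin n) ℂ (Fin n → ℂ)) (i : Fin n)
    (p : MvPolynomial (Fin n) ℂ) :
    eval (vtx b i) (autB b p) = eval (Pi.single i 1) p := by
  rw [autB_apply]
  induction p using MvPolynomial.induction_on with
  | C a => simp
  | add p r hp hr => simp only [map_add, hp, hr]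
  | mul_X p j hp => rw [map_mul, map_mul, map_mul, hp, aeval_X, lin_vtx, eval_X]

theorem vtx_ne (b : Module.Basis (Fin n) ℂ (Fin n → ℂ)) (i : Fin n) : vtx b i ≠ 0 := by
  intro h
  have h1 := lin_vtx b i i
  rw [h, Pi.single_eq_same, lin_apply, map_sum] at h1
  simp at h1

theorem mkDerivation_eq_sum (a : Fin n → MvPolynomial (Fin n) ℂ) (p : MvPolynomial (Fin n) ℂ) :
    mkDerivation ℂ a p = ∑ i, a i * pderiv i p := by
  classical
  induction p using MvPolynomial.induction_on with
  | C c => simp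
  | add p q hp hq => simp only [map_add, hp, hq, mul_add, Finset.sum_add_distrib]
  | mul_X p j hp =>
    rw [Derivation.leibniz, mkDerivation_X, hp]
    have h1 : ∀ i, a i * pderiv i (p * X j) =
        X j * (a i * pderiv i p) + if i = j then p * a i else 0 := by
      intro i
      rw [Derivation.leibniz, smul_eq_mul, smul_eq_mul]
      by_cases hi : i = j
      · rw [if_pos hi, hi, pderiv_X_self]
        ring
      · rw [if_neg hi, pderiv_X_of_ne (Ne.symm hi)]
        ring
    rw [Finset.sum_congr rfl fun i _ => h1 i, Finset.sum_add_distrib, ← Finset.mul_sum,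
      Finset.sum_ite_eq' Finset.univ j, if_pos (Finset.mem_univ j), smul_eq_mul, smul_eq_mul]
    ring

/-- A form which is killed by a linear vector field of non-zero divergence: in suitable linear
coordinates all its monomials have weight zero, for complex weights which are not all zero. -/
theorem exists_weights {F : MvPolynomial (Fin n) ℂ} {d : ℕ} (hF : F.IsHomogeneous d)
    (hNS : ¬ NS F) :
    ∃ (b : Module.Basis (Fin n) ℂ (Fin n → ℂ)) (lam : Fin n → ℂ) (g : MvPolynomial (Fin n) ℂ),
      autB b g = F ∧ g.IsHomogeneous d ∧ (∀ v ∈ g.support, ∑ i, lam i * v i = 0) ∧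
      (∀ v ∈ g.support, ∑ i, v i = d) ∧ ∃ i, lam i ≠ 0 := by
  classical
  unfold NS at hNS
  push Not at hNS
  obtain ⟨a, ha, haf, hdiv⟩ := hNS
  set A : Fin n → Fin n → ℂ := fun j i => coeff 0 (pderiv i (a j)) with hA
  have haA : ∀ j, a j = lin (A j) := fun j => eq_lin (ha j)
  set T : Module.End ℂ (Fin n → ℂ) := Fintype.linearCombination ℂ A with hT
  set D : Derivation ℂ (MvPolynomial (Fin n) ℂ) (MvPolynomial (Fin n) ℂ) := mkDerivation ℂ a with hD
  have hDT : ∀ c, D (lin c) = lin (T c) := mkDerivation_lin a A haA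
  have hDf : D F = 0 := by
    rw [← haf, hD, mkDerivation_eq_sum]
  obtain ⟨b, lam, hb⟩ := exists_basis T
  have hbD := fun i => lin_mem_gen hDT (hb i)
  set g := (autB b).symm F with hg
  have hfg : autB b g = F := AlgEquiv.apply_symm_apply _ _
  have hgh : g.IsHomogeneous d := by
    rw [hg, autB_symm_apply]
    have := hF.aeval (fun i => lin (b.repr (Pi.single i 1)))
      (fun i => lin_isHomogeneous _)
    rwa [one_mul] at this
  have hsupp : ∀ v ∈ g.support, ∑ i, lam i * v i = 0 := fun v hv =>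
    sum_eq_zero_of_mem_support b hbD (by rw [hfg]; exact hDf) hv
  have hdeg : ∀ v ∈ g.support, ∑ i, v i = d := by
    intro v hv
    have h1 := hgh (mem_support_iff.1 hv)
    rw [Finsupp.weight_apply, Finsupp.sum_fintype _ _ (fun i => by simp)] at h1
    simpa using h1
  refine ⟨b, lam, g, hfg, hgh, hsupp, hdeg, ?_⟩
  by_contra hcon
  push Not at hcon
  have hnil : IsNilpotent T := by
    have h4 : ∀ i, ∃ k : ℕ, (T ^ k) (b i) = 0 := by
      intro i
      obtain ⟨k, hk⟩ := (Module.End.mem_maxGenEigenspace _ _ _).1 (hb i)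
      rw [hcon i, zero_smul, sub_zero] at hk
      exact ⟨k, hk⟩
    choose k hk using h4
    refine ⟨∑ i, k i, ?_⟩
    apply b.ext
    intro i
    rw [← Finset.sum_erase_add _ _ (Finset.mem_univ i), pow_add, Module.End.mul_apply, hk,
      map_zero, LinearMap.zero_apply]
  have h5 := (LinearMap.isNilpotent_trace_of_isNilpotent hnil).eq_zero
  apply hdiv
  have h6 : ∀ i, pderiv i (a i) = C (A i i) := by
    intro i
    have h2 : (pderiv i (a i)).IsHomogeneous 0 := (ha i).pderiv
    exact totalDegree_eq_zero_iff_eq_C.1 (Nat.le_zero.1 h2.totalDegree_le)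
  rw [Finset.sum_congr rfl fun i _ => h6 i, ← map_sum]
  have h7 : LinearMap.trace ℂ (Fin n → ℂ) T = ∑ i, A i i := by
    rw [LinearMap.trace_eq_matrix_trace ℂ (Pi.basisFun ℂ (Fin n)), Matrix.trace]
    refine Finset.sum_congr rfl fun i _ => ?_
    rw [Matrix.diag_apply, LinearMap.toMatrix_apply, Pi.basisFun_apply, Pi.basisFun_repr, hT,
      Fintype.linearCombination_apply_single, one_smul]
  rw [← h7, h5, map_zero]

end NSA

end YM

end MPb07157
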